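import Mathlib.Dynamics.TopologicalEntropy.CoverEntropy
import Mathlib.Analysis.Calculus.ContDiff.Defs
import Mathlib.Topology.Algebra.Module.Determinant
import Mathlib.Dynamics.PeriodicPts.Defs

/-! Dissipative `C^1` diffeomorphisms of the disc and the boundary of zero entropy. -/

namespace Pool.Agent.Lib.MP_3fe454_an

/-- The closed unit disc of the plane. -/
def disc : Set (ℝ × ℝ) := {p | p.1 ^ 2 + p.2 ^ 2 ≤ 1}

/-- `f` restricts to a dissipative `C^1` diffeomorphism of the disc onto its image:
`C^1`, injective, with invertible derivative of Jacobian less than one in absolute value, and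
mapping the disc into its interior. -/
structure Dissipative (f : ℝ × ℝ → ℝ × ℝ) : Prop where
  smooth : ContDiffOn ℝ 1 f disc
  inj : Set.InjOn f disc
  det_ne : ∀ x ∈ disc, (fderivWithin ℝ f disc x).det ≠ 0
  det_lt : ∀ x ∈ disc, |(fderivWithin ℝ f disc x).det| < 1
  into : Set.MapsTo f disc (interior disc)

/-- Topological entropy of `f` on the disc (Bowen-Dinaburg). -/
noncomputable def entropy (f : ℝ × ℝ → ℝ × ℝ) : EReal := Dynamics.coverEntropy f disc

/-- `f` and `g` are at `C^1` distance at most `ε` on the disc. -/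
def C1Close (ε : ℝ) (f g : ℝ × ℝ → ℝ × ℝ) : Prop :=
  ∀ x ∈ disc, ‖f x - g x‖ ≤ ε ∧ ‖fderivWithin ℝ f disc x - fderivWithin ℝ g disc x‖ ≤ ε

/-- `f` lies on the boundary, in the `C^1` topology on dissipative diffeomorphisms of the disc,
of the set of maps with zero entropy. -/
def InBoundary (f : ℝ × ℝ → ℝ × ℝ) : Prop :=
  Dissipative f ∧ ∀ ε > 0, (∃ g, Dissipative g ∧ entropy g = 0 ∧ C1Close ε f g) ∧
    ∃ g, Dissipative g ∧ entropy g ≠ 0 ∧ C1Close ε f g

end Pool.Agent.Lib.MP_3fe454_an
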