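import Mathlib.Analysis.Calculus.Deriv.Inverse
import Mathlib.Analysis.Calculus.Deriv.MeanValue
import Mathlib.Analysis.Calculus.Deriv.Pow
import Mathlib.Analysis.Calculus.Deriv.Shift
import Mathlib.Analysis.Calculus.ContDiff.Deriv
import Mathlib.Topology.Order.MonotoneContinuity
import Mathlib.Topology.Order.IntermediateValue
import Mathlib.Topology.Algebra.Order.Field
import Mathlib.Topology.Homeomorph.Defs
import Mathlib.Topology.MetricSpace.Basic
import Mathlib.Analysis.SpecificLimits.Basic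
import Mathlib.Dynamics.PeriodicPts.Defs
import Mathlib.Tactic.IntervalCases
import Mathlib.Dynamics.FixedPoints.Topology
import Mathlib.Topology.Order.MonotoneConvergence
import Mathlib.Analysis.Calculus.BumpFunction.InnerProduct
import Mathlib.Analysis.InnerProductSpace.Basic

-- part Pool.Agent.Lib.MP_3fe454_an.Leg
section

/-! An explicit `C^1` interval map with a sink at `0`, a repeller `s` and a sink `a`. -/

namespace Pool.Agent.Lib.MP_3fe454_an

open Set Filter Topology Function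

lemma hd_congr {f g : ℝ → ℝ} {a b x : ℝ} (h : HasDerivAt f a x) (h1 : ∀ y, g y = f y)
    (h2 : b = a) : HasDerivAt g b x := by
  rw [funext h1, h2]; exact h

noncomputable def sq0 (x : ℝ) : ℝ := (max x 0) ^ 2

lemma hasDerivAt_sq0 (x : ℝ) : HasDerivAt sq0 (2 * max x 0) x := by
  rcases lt_trichotomy x 0 with hx | rfl | hx
  · have : sq0 =ᶠ[𝓝 x] fun _ => 0 := by
      filter_upwards [Iio_mem_nhds hx] with y hy
      simp [sq0, max_eq_right (le_of_lt (mem_Iio.1 hy))]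
    rw [max_eq_right hx.le, mul_zero]
    exact (hasDerivAt_const x (0 : ℝ)).congr_of_eventuallyEq this
  · rw [hasDerivAt_iff_isLittleO, Asymptotics.isLittleO_iff]
    intro c hc
    filter_upwards [Metric.ball_mem_nhds (0 : ℝ) hc] with y hy
    have h1 : |y| < c := by simpa using hy
    have h2 : |max y 0| ≤ |y| := by
      rcases le_total y 0 with h | h
      · simp [max_eq_right h]
      · simp [max_eq_left h]
    simp only [sq0, max_self, sub_zero, mul_zero, smul_zero, Real.norm_eq_abs]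
    norm_num
    calc (max y 0) ^ 2 = |max y 0| * |max y 0| := by rw [← abs_mul, ← sq, abs_of_nonneg (sq_nonneg _)]
      _ ≤ c * |y| := mul_le_mul (h2.trans h1.le) h2 (abs_nonneg _) hc.le
  · have : sq0 =ᶠ[𝓝 x] fun y => y ^ 2 := by
      filter_upwards [Ioi_mem_nhds hx] with y hy
      simp [sq0, max_eq_left (le_of_lt (mem_Ioi.1 hy))]
    rw [max_eq_left hx.le]
    have h := (hasDerivAt_pow 2 x).congr_of_eventuallyEq this
    simpa using h

/-- The ramp: `0`, then `x^2/2`, then `x - 1/2`. -/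
noncomputable def rp (x : ℝ) : ℝ := (sq0 x - sq0 (x - 1)) / 2

noncomputable def cl (x : ℝ) : ℝ := max x 0 - max (x - 1) 0

lemma hasDerivAt_rp (u x : ℝ) : HasDerivAt (fun y => rp (y - u)) (cl (x - u)) x := by
  have h1 := HasDerivAt.comp_sub_const x u (hasDerivAt_sq0 (x - u))
  have h2 := HasDerivAt.comp_sub_const x (u + 1) (hasDerivAt_sq0 (x - (u + 1)))
  have h3 := (h1.sub h2).div_const 2
  refine hd_congr h3 (fun y => ?_) ?_
  · simp only [rp, Pi.sub_apply]; rw [sub_sub]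
  · simp only [cl]; rw [sub_sub]; ring

lemma cl_cont : Continuous cl := by unfold cl; fun_prop

lemma cl_nonneg (x : ℝ) : 0 ≤ cl x := by
  unfold cl; have : max (x - 1) 0 ≤ max x 0 := max_le_max (by linarith) le_rfl; linarith

lemma cl_le_one (x : ℝ) : cl x ≤ 1 := by
  unfold cl; rcases le_total x 0 with h | h
  · rw [max_eq_right h]; linarith [le_max_right (x - 1) 0]
  · rw [max_eq_left h]; linarith [le_max_left (x - 1) 0]

lemma cl_mono {x y : ℝ} (h : x + 1 ≤ y) : cl x ≤ cl y := by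
  rcases le_total x 0 with h1 | h1
  · have : cl x = 0 := by
      unfold cl; rw [max_eq_right h1, max_eq_right (by linarith)]; ring
    rw [this]; exact cl_nonneg y
  · have : cl y = 1 := by
      unfold cl; rw [max_eq_left (by linarith), max_eq_left (by linarith)]; ring
    rw [this]; exact cl_le_one x

lemma rp_lo {x : ℝ} (h : x ≤ 0) : rp x = 0 := by
  unfold rp sq0; rw [max_eq_right h, max_eq_right (by linarith)]; ring

lemma rp_mid {x : ℝ} (h : 0 ≤ x) (h' : x ≤ 1) : rp x = x ^ 2 / 2 := by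
  unfold rp sq0; rw [max_eq_left h, max_eq_right (by linarith)]; ring

lemma rp_hi {x : ℝ} (h : 1 ≤ x) : rp x = x - 1 / 2 := by
  unfold rp sq0; rw [max_eq_left (by linarith), max_eq_left (by linarith)]; ring

/-- The properties of the leg map that are used later. -/
structure Leg (ω : ℝ) (g g' : ℝ → ℝ) (s a R : ℝ) : Prop where
  hd : ∀ x, HasDerivAt g (g' x) x
  hc : Continuous g'
  lo : ∀ x, ω / 2 ≤ g' x
  hi : ∀ x, g' x ≤ 2
  low : ∀ x, x ≤ 1 / 2 → g x = ω * x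
  high : ∀ x, R ≤ x → g x = ω * x
  tip : ∀ x, |x - a| ≤ 1 → g x = a + 4 / 5 * (x - a)
  lb : ∀ x, 0 ≤ x → ω * x ≤ g x
  ub : ∀ x, 0 ≤ x → g x ≤ 23 + ω * x
  s_pos : 0 < s
  s_lt : s < a
  fix_s : g s = s
  lt1 : ∀ x, 0 < x → x < s → g x < x
  gt1 : ∀ x, s < x → x < a → x < g x
  lt2 : ∀ x, a < x → g x < x

noncomputable def gg (ω x : ℝ) : ℝ :=
  ω * x + (2 - ω) * rp (x - 1 / 2) - 6 / 5 * rp (x - 9 / 2) - (4 / 5 - ω / 2) * rp (x - 22)
    + ω / 2 * rp (x - (44 / ω - 21))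

noncomputable def gg' (ω x : ℝ) : ℝ :=
  ω + (2 - ω) * cl (x - 1 / 2) - 6 / 5 * cl (x - 9 / 2) - (4 / 5 - ω / 2) * cl (x - 22)
    + ω / 2 * cl (x - (44 / ω - 21))

lemma gg_cases {ω : ℝ} (h0 : 0 < ω) (h1 : ω ≤ 1 / 1000) (x : ℝ) :
    (x ≤ 1 / 2 ∧ gg ω x = ω * x) ∨
    (1 / 2 ≤ x ∧ x ≤ 3 / 2 ∧ gg ω x = ω * x + (2 - ω) * (x - 1 / 2) ^ 2 / 2) ∨
    (3 / 2 ≤ x ∧ x ≤ 9 / 2 ∧ gg ω x = 2 * x - 2 + ω) ∨
    (9 / 2 ≤ x ∧ x ≤ 11 / 2 ∧ gg ω x = 2 * x - 2 + ω - 3 / 5 * (x - 9 / 2) ^ 2) ∨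
    (11 / 2 ≤ x ∧ x ≤ 22 ∧ gg ω x = 4 / 5 * x + 4 + ω) ∨
    (22 ≤ x ∧ x ≤ 23 ∧ gg ω x = 4 / 5 * x + 4 + ω - (2 / 5 - ω / 4) * (x - 22) ^ 2) ∨
    (23 ≤ x ∧ ω * x ≤ 44 - 21 * ω ∧ gg ω x = ω / 2 * x + 22 - 41 / 4 * ω) ∨
    (23 ≤ x ∧ ∃ t, 0 ≤ t ∧ t ≤ 1 ∧ gg ω x = ω * x + ω / 4 * (1 - t) ^ 2) ∨
    (23 ≤ x ∧ gg ω x = ω * x) := by
  have hu : 44000 ≤ 44 / ω := by rw [le_div_iff₀ h0]; linarith
  have hω : ω * (44 / ω) = 44 := by field_simp
  set u := 44 / ω with hu'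
  unfold gg
  rw [← hu']
  rcases le_total x (1 / 2) with a1 | a1
  · left; refine ⟨a1, ?_⟩
    rw [rp_lo (by linarith), rp_lo (by linarith), rp_lo (by linarith), rp_lo (by linarith)]; ring
  right
  rcases le_total x (3 / 2) with a2 | a2
  · left; refine ⟨a1, a2, ?_⟩
    rw [rp_mid (by linarith) (by linarith), rp_lo (by linarith), rp_lo (by linarith),
      rp_lo (by linarith)]; ring
  right
  rw [rp_hi (x := x - 1 / 2) (by linarith)]
  rcases le_total x (9 / 2) with a3 | a3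
  · left; refine ⟨a2, a3, ?_⟩
    rw [rp_lo (by linarith), rp_lo (by linarith), rp_lo (by linarith)]; ring
  right
  rcases le_total x (11 / 2) with a4 | a4
  · left; refine ⟨a3, a4, ?_⟩
    rw [rp_mid (by linarith) (by linarith), rp_lo (by linarith), rp_lo (by linarith)]; ring
  right
  rw [rp_hi (x := x - 9 / 2) (by linarith)]
  rcases le_total x 22 with a5 | a5
  · left; refine ⟨a4, a5, ?_⟩
    rw [rp_lo (by linarith), rp_lo (by linarith)]; ring
  right
  rcases le_total x 23 with a6 | a6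
  · left; refine ⟨a5, a6, ?_⟩
    rw [rp_mid (by linarith) (by linarith), rp_lo (by linarith)]; ring
  right
  rw [rp_hi (x := x - 22) (by linarith)]
  rcases le_total x (u - 21) with a7 | a7
  · left; refine ⟨a6, by nlinarith, ?_⟩
    rw [rp_lo (by linarith)]; ring
  right
  rcases le_total x (u - 20) with a8 | a8
  · left; refine ⟨a6, x - (u - 21), by linarith, by linarith, ?_⟩
    rw [rp_mid (by linarith) (by linarith)]
    linear_combination (-1 / 2) * hω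
  right
  refine ⟨a6, ?_⟩
  rw [rp_hi (by linarith)]
  linear_combination (-1 / 2) * hω

theorem exists_leg {ω : ℝ} (h0 : 0 < ω) (h1 : ω ≤ 1 / 1000) :
    ∃ g g' s a R, Leg ω g g' s a R := by
  have hu : 44000 ≤ 44 / ω := by rw [le_div_iff₀ h0]; linarith
  have hω : ω * (44 / ω) = 44 := by field_simp
  refine ⟨gg ω, gg' ω, 2 - ω, 20 + 5 * ω, 44 / ω - 20, ?_, ?_, ?_, ?_, ?_, ?_, ?_, ?_, ?_,
    by linarith, by linarith, ?_, ?_, ?_, ?_⟩
  · intro x
    have := (((((hasDerivAt_id x).const_mul ω).add ((hasDerivAt_rp (1 / 2) x).const_mul (2 - ω))).sub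
      ((hasDerivAt_rp (9 / 2) x).const_mul (6 / 5))).sub
      ((hasDerivAt_rp 22 x).const_mul (4 / 5 - ω / 2))).add
      ((hasDerivAt_rp (44 / ω - 21) x).const_mul (ω / 2))
    exact hd_congr this (fun y => by simp [gg]) (by simp [gg'])
  · unfold gg'; have := cl_cont; fun_prop
  · intro x
    have c1 := cl_le_one (x - 1 / 2)
    have c2 : cl (x - 9 / 2) ≤ cl (x - 1 / 2) := cl_mono (by linarith)
    have c3 : cl (x - 22) ≤ cl (x - 1 / 2) := cl_mono (by linarith)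
    have c4 := cl_nonneg (x - (44 / ω - 21))
    unfold gg'
    nlinarith
  · intro x
    have c1 := cl_le_one (x - 1 / 2)
    have c2 := cl_nonneg (x - 9 / 2)
    have c3 : cl (x - (44 / ω - 21)) ≤ cl (x - 22) := cl_mono (by linarith)
    have c4 := cl_nonneg (x - (44 / ω - 21))
    unfold gg'
    nlinarith
  · intro x hx
    unfold gg
    rw [rp_lo (by linarith), rp_lo (by linarith), rp_lo (by linarith), rp_lo (by linarith)]; ring
  · intro x hx
    unfold gg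
    rw [rp_hi (by linarith), rp_hi (by linarith), rp_hi (by linarith), rp_hi (by linarith)]
    linear_combination (-1 / 2) * hω
  · intro x hx
    obtain ⟨a1, a2⟩ := abs_le.1 hx
    unfold gg
    rw [rp_hi (by linarith), rp_hi (by linarith), rp_lo (by linarith), rp_lo (by linarith)]
    ring
  · intro x hx
    rcases gg_cases h0 h1 x with ⟨a, e⟩ | ⟨a, b, e⟩ | ⟨a, b, e⟩ | ⟨a, b, e⟩ | ⟨a, b, e⟩ | ⟨a, b, e⟩ |
      ⟨a, b, e⟩ | ⟨a, t, b, c, e⟩ | ⟨a, e⟩ <;> rw [e] <;> nlinarith [sq_nonneg (x - 1 / 2)]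
  · intro x hx
    rcases gg_cases h0 h1 x with ⟨a, e⟩ | ⟨a, b, e⟩ | ⟨a, b, e⟩ | ⟨a, b, e⟩ | ⟨a, b, e⟩ | ⟨a, b, e⟩ |
      ⟨a, b, e⟩ | ⟨a, t, b, c, e⟩ | ⟨a, e⟩ <;> rw [e] <;> nlinarith [sq_nonneg (x - 22)]
  · unfold gg
    rw [rp_hi (by linarith), rp_lo (by linarith), rp_lo (by linarith), rp_lo (by linarith)]
    ring
  · intro x hx hx'
    rcases gg_cases h0 h1 x with ⟨a, e⟩ | ⟨a, b, e⟩ | ⟨a, b, e⟩ | ⟨a, b, e⟩ | ⟨a, b, e⟩ | ⟨a, b, e⟩ |
      ⟨a, b, e⟩ | ⟨a, t, b, c, e⟩ | ⟨a, e⟩ <;> rw [e] <;> nlinarith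
  · intro x hx hx'
    rcases gg_cases h0 h1 x with ⟨a, e⟩ | ⟨a, b, e⟩ | ⟨a, b, e⟩ | ⟨a, b, e⟩ | ⟨a, b, e⟩ | ⟨a, b, e⟩ |
      ⟨a, b, e⟩ | ⟨a, t, b, c, e⟩ | ⟨a, e⟩ <;> rw [e] <;> nlinarith
  · intro x hx
    rcases gg_cases h0 h1 x with ⟨a, e⟩ | ⟨a, b, e⟩ | ⟨a, b, e⟩ | ⟨a, b, e⟩ | ⟨a, b, e⟩ | ⟨a, b, e⟩ |
      ⟨a, b, e⟩ | ⟨a, t, b, c, e⟩ | ⟨a, e⟩ <;> rw [e] <;> nlinarith [sq_nonneg (x - 22)]

end Pool.Agent.Lib.MP_3fe454_an
end

-- part Pool.Agent.Lib.MP_3fe454_an.TriP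
section

/-! A decreasing `C^1` function `P` with `P (P x) = σ^2 x` for `x ≥ 0`. -/

namespace Pool.Agent.Lib.MP_3fe454_an

open Set Filter Topology Function

structure TriP (σ : ℝ) (g P P' : ℝ → ℝ) (a R : ℝ) : Prop where
  hd : ∀ x, HasDerivAt P (P' x) x
  hc : Continuous P'
  anti : StrictAnti P
  pos : ∀ x, 0 ≤ x → σ ^ 2 * P x = - g x
  PP : ∀ x, 0 ≤ x → P (P x) = σ ^ 2 * x
  lip : ∀ x y, x ≤ y → y ≤ 0 → P x - P y ≤ 2 * σ * (y - x)
  near : ∀ x, |x| ≤ σ / 2 → P x = -σ * x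
  far : ∀ x, R ≤ |x| → P x = -σ * x
  bound : ∀ x, |P' x + σ| ≤ 3 / σ ^ 2
  tip1 : ∀ t, |t| ≤ 1 → P (a + t) = P a + (-(4 / 5) / σ ^ 2) * t
  tip2 : ∀ t, |t| ≤ 1 / 2 → P (P a + t) = σ ^ 2 * a + (-(5 / 4) * σ ^ 4) * t

lemma Leg.strictMono {ω : ℝ} {g g' : ℝ → ℝ} {s a R : ℝ} (h0 : 0 < ω) (L : Leg ω g g' s a R) :
    StrictMono g :=
  strictMono_of_deriv_pos fun x => by
    rw [(L.hd x).deriv]; linarith [L.lo x]

lemma Leg.cont {ω : ℝ} {g g' : ℝ → ℝ} {s a R : ℝ} (L : Leg ω g g' s a R) : Continuous g :=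
  continuous_iff_continuousAt.2 fun x => (L.hd x).continuousAt

theorem exists_triP {σ : ℝ} (h0 : 0 < σ) (h1 : σ ≤ 1 / 10) {g g' : ℝ → ℝ} {s a R : ℝ}
    (L : Leg (σ ^ 3) g g' s a R) : ∃ P P' R', TriP σ g P P' a R' := by
  have hω : 0 < σ ^ 3 := by positivity
  have hβ : 0 < σ ^ 2 := by positivity
  have hm := L.strictMono hω
  have hsurj : Surjective g := by
    refine L.cont.surjective ?_ ?_
    · refine (tendsto_id.const_mul_atTop hω).congr' ?_
      filter_upwards [eventually_ge_atTop R] with x hx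
      simp [L.high x hx]
    · refine (tendsto_id.const_mul_atBot hω).congr' ?_
      filter_upwards [eventually_le_atBot (1 / 2)] with x hx
      simp [L.low x hx]
  let e := hm.orderIsoOfSurjective g hsurj
  let k : ℝ → ℝ := e.symm
  have hkg : ∀ x, k (g x) = x := fun x => e.symm_apply_apply x
  have hgk : ∀ y, g (k y) = y := fun y => e.apply_symm_apply y
  have hkc : Continuous k := e.symm.continuous
  have hkm : StrictMono k := e.symm.strictMono
  have hg'pos : ∀ x, 0 < g' x := fun x => by linarith [L.lo x]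
  have hkd : ∀ y, HasDerivAt k (g' (k y))⁻¹ y := fun y =>
    HasDerivAt.of_local_left_inverse hkc.continuousAt (L.hd _) (hg'pos _).ne'
      (Eventually.of_forall hgk)
  have hklow : ∀ y, y ≤ σ ^ 3 / 2 → k y = y / σ ^ 3 := by
    intro y hy
    have : g (y / σ ^ 3) = y := by
      rw [L.low _ (by rw [div_le_iff₀ hω]; linarith)]; field_simp
    rw [← this, hkg, this]
  have hkhigh : ∀ y, σ ^ 3 * R ≤ y → k y = y / σ ^ 3 := by
    intro y hy
    have : g (y / σ ^ 3) = y := by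
      rw [L.high _ (by rw [le_div_iff₀ hω]; linarith)]; field_simp
    rw [← this, hkg, this]
  let P : ℝ → ℝ := fun x => -g x / σ ^ 2 + σ ^ 2 * k (-σ ^ 2 * x) + σ * x
  let P' : ℝ → ℝ := fun x => -g' x / σ ^ 2 + σ ^ 2 * ((g' (k (-σ ^ 2 * x)))⁻¹ * (-σ ^ 2)) + σ
  have hPd : ∀ x, HasDerivAt P (P' x) x := by
    intro x
    have a1 := (L.hd x).neg.div_const (σ ^ 2)
    have a2 := ((hkd (-σ ^ 2 * x)).comp x ((hasDerivAt_id x).const_mul (-σ ^ 2))).const_mul (σ ^ 2)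
    have a3 := (hasDerivAt_id x).const_mul σ
    exact hd_congr ((a1.add a2).add a3) (fun y => by simp [P]) (by simp [P'])
  have hPpos : ∀ x, -σ / 2 ≤ x → P x = -g x / σ ^ 2 := by
    intro x hx
    simp only [P]
    rw [hklow _ (by nlinarith)]
    field_simp; ring
  have hPneg : ∀ x, x ≤ 1 / 2 → P x = σ ^ 2 * k (-σ ^ 2 * x) := by
    intro x hx
    simp only [P]
    rw [L.low x hx]
    field_simp; ring
  have hg0 : g 0 = 0 := by rw [L.low 0 (by norm_num)]; simp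
  have hgnn : ∀ x, 0 ≤ x → 0 ≤ g x := fun x hx => hg0 ▸ hm.monotone hx
  have hinv : ∀ x, 0 < (g' x)⁻¹ ∧ σ ^ 3 * (g' x)⁻¹ ≤ 2 := by
    intro x
    refine ⟨inv_pos.2 (hg'pos x), ?_⟩
    rw [← div_eq_mul_inv, div_le_iff₀ (hg'pos x)]
    linarith [L.lo x]
  have ha0 : 0 < a := L.s_pos.trans L.s_lt
  have hga : g a = a := by rw [L.tip a (by simp)]; simp
  have hPa : P a = -a / σ ^ 2 := by rw [hPpos a (by linarith), hga]
  refine ⟨P, P', max (max R (σ * R)) 0, hPd, ?_, ?_, ?_, ?_, ?_, ?_, ?_, ?_, ?_, ?_⟩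
  · have := L.hc
    have h2 : Continuous fun x => (g' (k (-σ ^ 2 * x)))⁻¹ :=
      Continuous.inv₀ (by fun_prop) fun x => (hg'pos _).ne'
    simp only [P']
    fun_prop
  · intro x y hxy
    rcases le_total y 0 with hy | hy
    · rw [hPneg x (by linarith), hPneg y (by linarith)]
      exact mul_lt_mul_of_pos_left (hkm (by nlinarith)) hβ
    rcases le_total 0 x with hx | hx
    · rw [hPpos x (by linarith), hPpos y (by linarith)]
      exact div_lt_div_of_pos_right (by linarith [hm hxy]) hβ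
    have e1 : P 0 = 0 := by rw [hPpos 0 (by linarith), hg0]; simp
    rcases hx.eq_or_lt with rfl | hx'
    · rw [e1, hPpos y (by linarith)]
      exact div_neg_of_neg_of_pos (by linarith [hm hxy]) hβ
    · have b1 : P 0 < P x := by
        rw [hPneg x (by linarith), hPneg 0 (by linarith)]
        exact mul_lt_mul_of_pos_left (hkm (by nlinarith)) hβ
      have b2 : P y ≤ 0 := by
        rw [hPpos y (by linarith)]
        exact div_nonpos_of_nonpos_of_nonneg (by linarith [hgnn y hy]) hβ.le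
      linarith
  · intro x hx
    rw [hPpos x (by linarith)]; field_simp
  · intro x hx
    have b2 : -g x / σ ^ 2 ≤ 0 := div_nonpos_of_nonpos_of_nonneg (by linarith [hgnn x hx]) hβ.le
    rw [hPpos x (by linarith), hPneg _ (by linarith)]
    have : -σ ^ 2 * (-g x / σ ^ 2) = g x := by field_simp
    rw [this, hkg]
  · intro x y hxy hy
    rw [hPneg x (by linarith), hPneg y (by linarith)]
    set u := k (-σ ^ 2 * x)
    set v := k (-σ ^ 2 * y)
    have huv : v ≤ u := hkm.monotone (by nlinarith)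
    have b1 : σ ^ 3 / 2 * (u - v) ≤ g u - g v := by
      have : Monotone fun z => g z - σ ^ 3 / 2 * z := by
        apply monotone_of_deriv_nonneg
        · exact fun z => ((L.hd z).sub ((hasDerivAt_id z).const_mul _)).differentiableAt
        · intro z
          have := (L.hd z).sub ((hasDerivAt_id z).const_mul (σ ^ 3 / 2))
          rw [(hd_congr this (fun y => by simp) rfl).deriv]
          linarith [L.lo z]
      have := this huv
      simp only at this
      linarith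
    rw [hgk, hgk] at b1
    have b2 : σ ^ 2 * (σ * (σ ^ 2 * u - σ ^ 2 * v)) ≤ σ ^ 2 * (σ * (2 * σ * (y - x))) := by
      nlinarith
    exact le_of_mul_le_mul_left (le_of_mul_le_mul_left b2 hβ) h0
  · intro x hx
    obtain ⟨a1, a2⟩ := abs_le.1 hx
    rw [hPpos x (by linarith), L.low x (by linarith)]
    field_simp
  · intro x hx
    have c1 : R ≤ |x| := le_trans (le_trans (le_max_left _ _) (le_max_left _ _)) hx
    have c2 : σ * R ≤ |x| := le_trans (le_trans (le_max_right _ _) (le_max_left _ _)) hx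
    rcases le_total 0 x with h | h
    · rw [abs_of_nonneg h] at c1
      rw [hPpos x (by linarith), L.high x c1]
      field_simp
    · rw [abs_of_nonpos h] at c2
      rw [hPneg x (by linarith), hkhigh _ (by nlinarith)]
      field_simp
  · intro x
    obtain ⟨c1, c2⟩ := hinv (k (-σ ^ 2 * x))
    have c3 := hg'pos x
    have c4 := L.hi x
    have e0 : P' x = -g' x / σ ^ 2 + σ ^ 2 * ((g' (k (-σ ^ 2 * x)))⁻¹ * (-σ ^ 2)) + σ := rfl
    generalize (g' (k (-σ ^ 2 * x)))⁻¹ = z at c1 c2 e0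
    have e1 : P' x + σ = (-g' x - σ ^ 3 * (σ ^ 3 * z) + 2 * σ ^ 3) / σ ^ 2 := by
      rw [e0]; field_simp; ring
    have hσ3 : σ ^ 3 ≤ 1 / 1000 := by
      calc σ ^ 3 ≤ (1 / 10) ^ 3 := by gcongr
        _ = 1 / 1000 := by norm_num
    rw [e1, abs_div, abs_of_pos hβ]
    apply div_le_div_of_nonneg_right _ hβ.le
    have c5 : 0 < σ ^ 3 * z := by positivity
    rw [abs_le]; constructor <;> nlinarith
  · intro t ht
    have ha1 : -1 ≤ t := (abs_le.1 ht).1
    have ha2 : 1 / 2 < a := by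
      by_contra hc
      have := L.low a (by linarith)
      rw [hga] at this
      have hσ3 : σ ^ 3 ≤ 1 / 1000 := by
        calc σ ^ 3 ≤ (1 / 10) ^ 3 := by gcongr
          _ = 1 / 1000 := by norm_num
      nlinarith
    by_cases hc : -σ / 2 ≤ a + t
    · rw [hPa, hPpos _ hc, L.tip _ (by simpa using ht)]
      field_simp; ring
    · exfalso
      have e1 := L.tip (a + t) (by simpa using ht)
      have e2 := L.low (a + t) (by linarith)
      have e3 := L.tip (a - 1) (by simp)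
      have e4 := L.low (a - 1) (by linarith)
      have e5 := L.tip (a - 1 / 2 + t / 2) (by rw [abs_le]; constructor <;> linarith [abs_le.1 ht])
      have e6 := L.tip 0 (by rw [abs_le]; constructor <;> linarith)
      have e7 := L.tip (1 / 4) (by rw [abs_le]; constructor <;> linarith)
      have e8 := L.low (1 / 4) (by norm_num)
      have hσ3 : σ ^ 3 ≤ 1 / 1000 := by
        calc σ ^ 3 ≤ (1 / 10) ^ 3 := by gcongr
          _ = 1 / 1000 := by norm_num
      rw [hg0] at e6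
      linarith
  · intro t ht
    obtain ⟨a1, a2⟩ := abs_le.1 ht
    have hσ2 : σ ^ 2 ≤ 1 / 100 := by
      calc σ ^ 2 ≤ (1 / 10) ^ 2 := by gcongr
        _ = 1 / 100 := by norm_num
    have b2 : -a / σ ^ 2 ≤ 0 := div_nonpos_of_nonpos_of_nonneg (by linarith) hβ.le
    rw [hPa, hPneg _ (by linarith)]
    have e1 : -σ ^ 2 * (-a / σ ^ 2 + t) = g (a - 5 / 4 * σ ^ 2 * t) := by
      rw [L.tip _ (by rw [abs_le]; constructor <;> nlinarith)]
      field_simp; ring
    rw [e1, hkg]; ring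

end Pool.Agent.Lib.MP_3fe454_an
end

-- part Pool.Agent.Lib.MP_3fe454_an.Rec
section

/-! Points with arbitrarily long returns (non-wandering points) and elementary tools. -/

namespace Pool.Agent.Lib.MP_3fe454_an

open Set Filter Topology Function

variable {X Y : Type*}

/-- Every neighbourhood of `x` returns to itself at arbitrarily large times. -/
def Rec [TopologicalSpace X] (f : X → X) (x : X) : Prop :=
  ∀ V ∈ 𝓝 x, ∀ N : ℕ, ∃ y ∈ V, ∃ t, N ≤ t ∧ f^[t] y ∈ V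

lemma cyc_iter {f : X → X} {O : ℕ → Set X} (hO : ∀ i, MapsTo f (O i) (O (i + 1)))
    {x : X} {i : ℕ} (hx : x ∈ O i) (t : ℕ) : f^[t] x ∈ O (i + t) := by
  induction t with
  | zero => simpa using hx
  | succ t ih => rw [iterate_succ_apply']; exact hO _ ih

lemma per_mul {α : Type*} {O : ℕ → α} {n : ℕ} (hper : ∀ i, O (i + n) = O i) (i k : ℕ) :
    O (i + k * n) = O i := by
  induction k with
  | zero => simp
  | succ k ih => rw [Nat.succ_mul, ← add_assoc, hper, ih]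

lemma per_mod {α : Type*} {O : ℕ → α} {n : ℕ} (hper : ∀ i, O (i + n) = O i) (i : ℕ) :
    O (i % n) = O i := by
  conv_rhs => rw [← Nat.mod_add_div' i n]
  rw [per_mul hper]

/-- A cyclic family: periodic, and members with different residues are disjoint. -/
structure Cyc (n : ℕ) (O : ℕ → Set X) : Prop where
  pos : 0 < n
  per : ∀ i, O (i + n) = O i
  disj : ∀ i j, i < n → j < n → i ≠ j → Disjoint (O i) (O j)

lemma Cyc.modeq {n : ℕ} {O : ℕ → Set X} (h : Cyc n O) {x : X} {i j : ℕ} (hi : x ∈ O i)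
    (hj : x ∈ O j) : i % n = j % n := by
  by_contra hne
  have := h.disj _ _ (Nat.mod_lt i h.pos) (Nat.mod_lt j h.pos) hne
  rw [per_mod h.per, per_mod h.per] at this
  exact Set.disjoint_left.1 this hi hj

lemma Cyc.eq_of_modeq {n : ℕ} {O : ℕ → Set X} (h : Cyc n O) {i j : ℕ} (hij : i % n = j % n) :
    O i = O j := by
  rw [← per_mod h.per i, hij, per_mod h.per]

lemma Cyc.dvd {n : ℕ} {O : ℕ → Set X} (h : Cyc n O) {f : X → X}
    (hO : ∀ i, MapsTo f (O i) (O (i + 1))) {x : X} {i t : ℕ} (hx : x ∈ O i)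
    (ht : f^[t] x ∈ O i) : n ∣ t := by
  have := h.modeq (cyc_iter hO hx t) ht
  have h2 : (i + t) ≡ i + 0 [MOD n] := this
  exact (Nat.modEq_zero_iff_dvd).1 (Nat.ModEq.add_left_cancel' i h2)

lemma iUnion_mapsTo {f : X → X} {O : ℕ → Set X} (hO : ∀ i, MapsTo f (O i) (O (i + 1))) :
    MapsTo f (⋃ i, O i) (⋃ i, O i) := by
  intro x hx
  obtain ⟨i, hi⟩ := mem_iUnion.1 hx
  exact mem_iUnion.2 ⟨i + 1, hO i hi⟩

/-- A periodic orbit outside a trap survives a modification inside the trap. -/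
lemma persist {f g : X → X} {T : Set X} (hT : MapsTo f T T) (hg : ∀ x, x ∉ T → g x = f x)
    {p : X} {m : ℕ} (hp : f^[m] p = p) (hm : 0 < m) (hpT : p ∉ T) : g^[m] p = p := by
  have h1 : ∀ s, f^[s] p ∉ T := by
    intro s hs
    apply hpT
    have h2 : f^[m * s] p = p := by
      rw [iterate_mul]; exact iterate_fixed hp s
    have h3 : s ≤ m * s := Nat.le_mul_of_pos_left s hm
    have : f^[m * s - s] (f^[s] p) ∈ T := hT.iterate _ hs
    rwa [← iterate_add_apply, Nat.sub_add_cancel h3, h2] at this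
  have h2 : ∀ s, g^[s] p = f^[s] p := by
    intro s
    induction s with
    | zero => rfl
    | succ s ih => rw [iterate_succ_apply', iterate_succ_apply', ih, hg _ (h1 s)]
  rw [h2, hp]

variable [TopologicalSpace X] [TopologicalSpace Y]

lemma Rec.map {f : X → X} {x : X} (hf : ContinuousAt f x) (h : Rec f x) : Rec f (f x) := by
  intro V hV N
  obtain ⟨y, hy, t, ht, hy'⟩ := h _ (hf hV) N
  refine ⟨f y, hy, t, ht, ?_⟩
  rw [← iterate_succ_apply, iterate_succ_apply']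
  exact hy'

lemma Rec.iterate {f : X → X} {x : X} (hf : Continuous f) (h : Rec f x) (k : ℕ) :
    Rec f (f^[k] x) := by
  induction k with
  | zero => exact h
  | succ k ih => rw [iterate_succ_apply']; exact ih.map hf.continuousAt

lemma rec_of_periodic {f : X → X} {x : X} {m : ℕ} (hm : 0 < m) (hx : f^[m] x = x) : Rec f x := by
  intro V hV N
  refine ⟨x, mem_of_mem_nhds hV, m * N, Nat.le_mul_of_pos_left N hm, ?_⟩
  rw [iterate_mul, iterate_fixed hx]
  exact mem_of_mem_nhds hV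

lemma Rec.transfer (h : Y ≃ₜ X) {f : X → X} {G : Y → Y} {A : Set Y} {w : Y} (hA : A ∈ 𝓝 w)
    (hG : MapsTo G A A) (hc : ∀ u ∈ A, f (h u) = h (G u)) (H : Rec f (h w)) : Rec G w := by
  intro V hV N
  have h1 : h.symm ⁻¹' (V ∩ A) ∈ 𝓝 (h w) := by
    apply h.symm.continuous.continuousAt
    simpa using inter_mem hV hA
  obtain ⟨y, hy, t, ht, hy'⟩ := H _ h1 N
  have h2 : ∀ s, f^[s] y = h (G^[s] (h.symm y)) := by
    intro s
    induction s with
    | zero => simp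
    | succ s ih =>
      rw [iterate_succ_apply', iterate_succ_apply', ih, hc _ (hG.iterate s hy.2)]
  refine ⟨h.symm y, hy.1, t, ht, ?_⟩
  rw [h2] at hy'
  simpa using hy'.1

lemma Rec.cyc {f : X → X} {O : ℕ → Set X} {n : ℕ} (hC : Cyc n O)
    (hO : ∀ i, MapsTo f (O i) (O (i + 1))) {x : X} (hx : O 0 ∈ 𝓝 x) (H : Rec f x) :
    Rec f^[n] x := by
  intro V hV N
  obtain ⟨y, hy, t, ht, hy'⟩ := H _ (inter_mem hV hx) (n * N)
  obtain ⟨k, rfl⟩ := hC.dvd hO hy.2 hy'.2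
  refine ⟨y, hy.1, k, Nat.le_of_mul_le_mul_left ht hC.pos, ?_⟩
  rw [← iterate_mul]
  exact hy'.1

lemma Rec.lyap {f : X → X} {x : X} {A : Set X} (hA : A ∈ 𝓝 x) (hf : MapsTo f A A)
    {φ : X → ℝ} (hφ : ContinuousAt φ x) {θ C : ℝ} (h0 : 0 ≤ θ) (h1 : θ < 1)
    (hd : ∀ y ∈ A, φ (f y) - C ≤ θ * (φ y - C)) (H : Rec f x) : φ x ≤ C := by
  by_contra hlt
  push Not at hlt
  set d := φ x - C with hd'
  have hdpos : 0 < d := by linarith
  have hV : φ ⁻¹' (Ioo (φ x - d / 2) (φ x + d / 2)) ∈ 𝓝 x :=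
    hφ (Ioo_mem_nhds (by linarith) (by linarith))
  obtain ⟨N, hN⟩ : ∃ N : ℕ, θ ^ N < 1 / 3 := exists_pow_lt_of_lt_one (by norm_num) h1
  obtain ⟨y, hy, t, ht, hy'⟩ := H _ (inter_mem hV hA) N
  have h2 : ∀ s, φ (f^[s] y) - C ≤ θ ^ s * (φ y - C) := by
    intro s
    induction s with
    | zero => simp
    | succ s ih =>
      rw [iterate_succ_apply', pow_succ']
      calc _ ≤ θ * (φ (f^[s] y) - C) := hd _ (hf.iterate s hy.2)
        _ ≤ θ * (θ ^ s * (φ y - C)) := by gcongr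
        _ = _ := by ring
  have h3 : θ ^ t ≤ θ ^ N := pow_le_pow_of_le_one h0 h1.le ht
  have h4 := h2 t
  have h5 := hy.1.1
  have h6 := hy.1.2
  have h7 := hy'.1.1
  have h8 : 0 ≤ θ ^ t := pow_nonneg h0 t
  have h9 : θ ^ t * (φ y - C) ≤ θ ^ t * (3 * d / 2) := by
    apply mul_le_mul_of_nonneg_left _ h8; linarith
  nlinarith

lemma Rec.modify {f g : X → X} {T : Set X} (hT : MapsTo g T T) (hg : ∀ x, x ∉ T → g x = f x)
    {x : X} (hx : x ∉ closure T) (H : Rec g x) : Rec f x := by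
  intro V hV N
  obtain ⟨y, hy, t, ht, hy'⟩ :=
    H _ (inter_mem hV (isClosed_closure.isOpen_compl.mem_nhds hx)) N
  have h1 : ∀ s ≤ t, g^[s] y ∉ T := by
    intro s hs hT'
    have : g^[t - s] (g^[s] y) ∈ T := hT.iterate _ hT'
    rw [← iterate_add_apply, Nat.sub_add_cancel hs] at this
    exact hy'.2 (subset_closure this)
  have h2 : ∀ s ≤ t, g^[s] y = f^[s] y := by
    intro s hs
    induction s with
    | zero => rfl
    | succ s ih =>
      rw [iterate_succ_apply', iterate_succ_apply', ← ih (by omega), hg _ (h1 s (by omega))]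
  exact ⟨y, hy.1, t, ht, h2 t le_rfl ▸ hy'.1⟩

/-- A point attracted by an attracting periodic orbit, but not on it, is wandering. -/
lemma not_rec_of_attract [T2Space X] {f : X → X} (hf : Continuous f) {q x : X} {k : ℕ}
    (hk : 0 < k)
    (hatt : ∀ W ∈ 𝓝 q, ∃ A, IsOpen A ∧ q ∈ A ∧ A ⊆ W ∧ MapsTo f^[k] A A)
    (hx : ∀ W ∈ 𝓝 q, ∃ s, f^[s] x ∈ W) (hne : ∀ i < k, f^[i] q ≠ x) : ¬ Rec f x := by
  intro H
  have h1 : ∀ i < k, ∃ V ∈ 𝓝 x, ∃ W ∈ 𝓝 q, ∀ y ∈ W, f^[i] y ∉ V := by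
    intro i hi
    obtain ⟨U, V, hU, hV, hqU, hxV, hUV⟩ := t2_separation (hne i hi)
    exact ⟨V, hV.mem_nhds hxV, f^[i] ⁻¹' U, (hf.iterate i).continuousAt (hU.mem_nhds hqU),
      fun y hy hyV => Set.disjoint_left.1 hUV hy hyV⟩
  choose! V hV W hW hVW using h1
  have hV' : (⋂ i ∈ Finset.range k, V i) ∈ 𝓝 x :=
    (biInter_finset_mem _).2 fun i hi => hV i (Finset.mem_range.1 hi)
  have hW' : (⋂ i ∈ Finset.range k, W i) ∈ 𝓝 q :=
    (biInter_finset_mem _).2 fun i hi => hW i (Finset.mem_range.1 hi)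
  obtain ⟨A, hAo, hqA, hAW, hA⟩ := hatt _ hW'
  obtain ⟨s, hs⟩ := hx A (hAo.mem_nhds hqA)
  have hA' : f^[s] ⁻¹' A ∈ 𝓝 x := (hf.iterate s).continuousAt (hAo.mem_nhds hs)
  obtain ⟨y, hy, t, ht, hy'⟩ := H _ (inter_mem hV' hA') s
  have h2 : (f^[k])^[(t - s) / k] (f^[s] y) ∈ A := hA.iterate _ hy.2
  have h3 : (t - s) % k < k := Nat.mod_lt _ hk
  have h4 := mem_iInter₂.1 (hAW h2) _ (Finset.mem_range.2 h3)
  apply hVW _ h3 _ h4
  rw [← iterate_mul, ← iterate_add_apply, ← iterate_add_apply, Nat.mod_add_div,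
    Nat.sub_add_cancel ht]
  exact mem_iInter₂.1 hy'.1 _ (Finset.mem_range.2 h3)

end Pool.Agent.Lib.MP_3fe454_an
end

-- part Pool.Agent.Lib.MP_3fe454_an.Tripod
section

/-! The generalized Henon map with an invariant tripod has finitely many nonwandering points. -/

namespace Pool.Agent.Lib.MP_3fe454_an

open Set Filter Topology Function

/-- The generalized Henon map. -/
def hG (β : ℝ) (P : ℝ → ℝ) (w : ℝ × ℝ) : ℝ × ℝ := (P w.1 - β * w.2, w.1)

/-- Finitely many nonwandering points, all fixed by the `m`-th iterate. -/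
def Tame {X : Type*} [TopologicalSpace X] (f : X → X) (m : ℕ) : Prop :=
  {x | Rec f x}.Finite ∧ ∀ x, Rec f x → f^[m] x = x

lemma hG_cont {β : ℝ} {P : ℝ → ℝ} (hP : Continuous P) : Continuous (hG β P) := by
  unfold hG; fun_prop

lemma hG_inj {β : ℝ} (hβ : β ≠ 0) (P : ℝ → ℝ) : Injective (hG β P) := by
  rintro ⟨x, y⟩ ⟨x', y'⟩ h
  simp only [hG, Prod.mk.injEq] at h
  obtain ⟨h1, rfl⟩ := h
  have : β * y = β * y' := by linarith
  rw [mul_left_cancel₀ hβ this]

lemma tendsto_down {g : ℝ → ℝ} (hc : Continuous g) (hm : Monotone g) {L x : ℝ} (hL : g L = L)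
    (hx : L ≤ x) (hlt : ∀ y, L < y → y ≤ x → g y < y) :
    Tendsto (fun k => g^[k] x) atTop (𝓝 L) := by
  have h0 : g x ≤ x := by
    rcases hx.eq_or_lt with rfl | h
    · exact hL.le
    · exact (hlt x h le_rfl).le
  have h1 : Antitone fun k => g^[k] x := hm.antitone_iterate_of_map_le h0
  have h2 : ∀ k, L ≤ g^[k] x := fun k => by
    have := hm.iterate k hx; rwa [iterate_fixed hL] at this
  have h3 := tendsto_atTop_ciInf h1 ⟨L, by rintro _ ⟨k, rfl⟩; exact h2 k⟩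
  have h4 := isFixedPt_of_tendsto_iterate h3 hc.continuousAt
  have h5 : L ≤ ⨅ k, g^[k] x := le_ciInf h2
  have h6 : ⨅ k, g^[k] x ≤ x := ciInf_le (f := fun k => g^[k] x)
    ⟨L, by rintro _ ⟨k, rfl⟩; exact h2 k⟩ 0
  rcases h5.eq_or_lt with h | h
  · rwa [h]
  · exact absurd h4 (hlt _ h h6).ne

lemma tendsto_up {g : ℝ → ℝ} (hc : Continuous g) (hm : Monotone g) {L x : ℝ} (hL : g L = L)
    (hx : x ≤ L) (hlt : ∀ y, y < L → x ≤ y → y < g y) :
    Tendsto (fun k => g^[k] x) atTop (𝓝 L) := by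
  have h0 : x ≤ g x := by
    rcases hx.eq_or_lt with rfl | h
    · exact hL.ge
    · exact (hlt x h le_rfl).le
  have h1 : Monotone fun k => g^[k] x := hm.monotone_iterate_of_le_map h0
  have h2 : ∀ k, g^[k] x ≤ L := fun k => by
    have := hm.iterate k hx; rwa [iterate_fixed hL] at this
  have h3 := tendsto_atTop_ciSup h1 ⟨L, by rintro _ ⟨k, rfl⟩; exact h2 k⟩
  have h4 := isFixedPt_of_tendsto_iterate h3 hc.continuousAt
  have h5 : ⨆ k, g^[k] x ≤ L := ciSup_le h2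
  have h6 : x ≤ ⨆ k, g^[k] x := le_ciSup (f := fun k => g^[k] x)
    ⟨L, by rintro _ ⟨k, rfl⟩; exact h2 k⟩ 0
  rcases h5.eq_or_lt with h | h
  · rwa [← h]
  · exact absurd h4 (hlt _ h h6).ne'

section

variable {σ : ℝ} {g g' P P' : ℝ → ℝ} {s a R R' : ℝ}

lemma TriP.zero (h0 : 0 < σ) (T : TriP σ g P P' a R') : P 0 = 0 := by
  rw [T.near 0 (by simp; linarith)]; simp

lemma TriP.cont (T : TriP σ g P P' a R') : Continuous P :=
  continuous_iff_continuousAt.2 fun x => (T.hd x).continuousAt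

lemma TriP.leg3 (h0 : 0 < σ) (T : TriP σ g P P' a R') {x : ℝ} (hx : 0 ≤ x) :
    (hG (σ ^ 2) P)^[3] (x, 0) = (g x, 0) := by
  simp [hG, T.PP x hx, T.zero h0, T.pos x hx]

lemma sq_small (h0 : 0 < σ) (h1 : σ ≤ 1 / 10) : σ ^ 2 ≤ 1 / 100 ∧ σ ^ 3 ≤ 1 / 1000 := by
  constructor
  · calc σ ^ 2 ≤ (1 / 10) ^ 2 := by gcongr
      _ = 1 / 100 := by norm_num
  · calc σ ^ 3 ≤ (1 / 10) ^ 3 := by gcongr
      _ = 1 / 1000 := by norm_num

/-- No nonwandering point in the open fourth quadrant. -/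
lemma not_rec_quadrant (h0 : 0 < σ) (h1 : σ ≤ 1 / 10) (L : Leg (σ ^ 3) g g' s a R)
    (T : TriP σ g P P' a R') {w : ℝ × ℝ} (hw1 : 0 < w.1) (hw2 : w.2 < 0) :
    ¬ Rec (hG (σ ^ 2) P) w := by
  intro H
  obtain ⟨s2, s3⟩ := sq_small h0 h1
  have hβ : 0 < σ ^ 2 := by positivity
  have hω : 0 < σ ^ 3 := by positivity
  have hP0 := T.zero h0
  have hneg : ∀ x, 0 < x → P x < 0 := fun x hx => hP0 ▸ T.anti hx
  have hpos : ∀ x, x < 0 → 0 < P x := fun x hx => hP0 ▸ T.anti hx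
  let S0 : Set (ℝ × ℝ) := {w | 0 < w.1 ∧ w.2 < 0}
  let S1 : Set (ℝ × ℝ) := {w | 0 < w.2 ∧ P w.2 < w.1}
  let S2 : Set (ℝ × ℝ) := {w | w.1 < 0 ∧ σ ^ 2 * w.2 < P w.1}
  have m0 : MapsTo (hG (σ ^ 2) P) S0 S1 := by
    rintro ⟨x, y⟩ ⟨a1, a2⟩
    refine ⟨a1, ?_⟩
    simp only [hG] at *
    nlinarith
  have m1 : MapsTo (hG (σ ^ 2) P) S1 S2 := by
    rintro ⟨x, y⟩ ⟨a1, a2⟩
    simp only at a1 a2
    have b1 : P x < σ ^ 2 * y := T.PP y a1.le ▸ T.anti a2
    refine ⟨by simp only [hG]; linarith, ?_⟩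
    simp only [hG]
    rcases le_or_gt x 0 with h | h
    · have := hpos (P x - σ ^ 2 * y) (by linarith); nlinarith
    · rw [← T.PP x h.le]; exact T.anti (by nlinarith)
  have m2 : MapsTo (hG (σ ^ 2) P) S2 S0 := by
    rintro ⟨x, y⟩ ⟨a1, a2⟩
    exact ⟨by simp only [hG] at *; linarith, a1⟩
  let O : ℕ → Set (ℝ × ℝ) := fun i => if i % 3 = 0 then S0 else if i % 3 = 1 then S1 else S2
  have d01 : Disjoint S0 S1 := Set.disjoint_left.2 fun w h h' => by linarith [h.2, h'.1]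
  have d02 : Disjoint S0 S2 := Set.disjoint_left.2 fun w h h' => by linarith [h.1, h'.1]
  have d12 : Disjoint S1 S2 := Set.disjoint_left.2 fun w h h' => by
    have b1 : P w.1 < σ ^ 2 * w.2 := T.PP w.2 h.1.le ▸ T.anti h.2
    linarith [h'.2]
  have hC : Cyc 3 O := by
    refine ⟨by norm_num, fun i => by simp [O], fun i j hi hj hij => ?_⟩
    interval_cases i <;> interval_cases j <;>
      first | exact (hij rfl).elim | simpa [O] using d01 | simpa [O] using d01.symm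
            | simpa [O] using d02 | simpa [O] using d02.symm | simpa [O] using d12
            | simpa [O] using d12.symm
  have hO : ∀ i, MapsTo (hG (σ ^ 2) P) (O i) (O (i + 1)) := by
    intro i
    have : i % 3 = 0 ∨ i % 3 = 1 ∨ i % 3 = 2 := by omega
    rcases this with h | h | h
    · have h' : (i + 1) % 3 = 1 := by omega
      simpa [O, h, h'] using m0
    · have h' : (i + 1) % 3 = 2 := by omega
      simpa [O, h, h'] using m1
    · have h' : (i + 1) % 3 = 0 := by omega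
      simpa [O, h, h'] using m2
  have hS0 : IsOpen S0 := (isOpen_lt continuous_const continuous_fst).inter
    (isOpen_lt continuous_snd continuous_const)
  have hwS : S0 ∈ 𝓝 w := hS0.mem_nhds ⟨hw1, hw2⟩
  have H3 : Rec (hG (σ ^ 2) P)^[3] w := H.cyc hC hO (by simpa [O] using hwS)
  have m3 : MapsTo (hG (σ ^ 2) P)^[3] S0 S0 := fun w hw => m2 (m1 (m0 hw))
  -- the basic estimates
  have key : ∀ x y, 0 < x → y < 0 → ∃ x' y', (hG (σ ^ 2) P)^[3] (x, y) = (x', y') ∧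
      ((-σ ^ 2 * y ≤ g x / σ ^ 2 ∧ -σ ^ 2 * y' ≤ 2 * σ ^ 3 * (-σ ^ 2 * y) ∧ x' ≤ 4 * g x) ∨
      (g x / σ ^ 2 ≤ -σ ^ 2 * y ∧ x' ≤ 2 * σ ^ 3 * x ∧
        -σ ^ 2 * y' ≤ 23 + σ ^ 3 * (-σ ^ 2 * y) + σ ^ 2 * σ ^ 2 * x)) := by
    intro x y hx hy
    refine ⟨P (P (P x - σ ^ 2 * y) - σ ^ 2 * x) - σ ^ 2 * (P x - σ ^ 2 * y),
      P (P x - σ ^ 2 * y) - σ ^ 2 * x, rfl, ?_⟩
    have e1 : g x / σ ^ 2 = -P x := by rw [div_eq_iff hβ.ne']; linarith [T.pos x hx.le]
    have hγ : 0 < -σ ^ 2 * y := by nlinarith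
    rw [e1]
    set b := P x - σ ^ 2 * y with hb
    have e2 := T.PP x hx.le
    have e3 := T.pos x hx.le
    rcases le_total b 0 with h | h
    · left
      have c1 := T.lip (P x) b (by linarith) h
      have c2 : P b ≤ P (P x) := T.anti.antitone (by linarith)
      have c3 := T.lip (P b - σ ^ 2 * x) 0 (by linarith) le_rfl
      have c4 : σ ^ 2 * x - P b ≤ 2 * σ * (-σ ^ 2 * y) := by linarith
      refine ⟨by linarith, by nlinarith, ?_⟩
      have c5 : 2 * σ * (σ ^ 2 * x - P b) ≤ 2 * σ * (2 * σ * (-σ ^ 2 * y)) := by gcongr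
      have c6 : σ ^ 2 * (-σ ^ 2 * y) ≤ σ ^ 2 * (-P x) := by gcongr; linarith
      nlinarith
    · right
      have c0 : P b ≤ 0 := hP0 ▸ T.anti.antitone h
      have c1 := T.lip (P b - σ ^ 2 * x) (P b) (by nlinarith) c0
      have c2 := T.PP b h
      have c3 := T.pos b h
      have c4 := L.ub b h
      have c5 : σ ^ 3 * b ≤ σ ^ 3 * (-σ ^ 2 * y) := by gcongr; linarith [hneg x hx]
      exact ⟨by linarith, by nlinarith, by nlinarith⟩
  let φ : ℝ × ℝ → ℝ := fun w => max w.1 (-σ ^ 2 * w.2)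
  have hφ : Continuous φ := by fun_prop
  have k1 : ∀ y ∈ S0, φ ((hG (σ ^ 2) P)^[3] y) - 184 ≤ 1 / 2 * (φ y - 184) := by
    rintro ⟨x, y⟩ ⟨hx, hy⟩
    obtain ⟨x', y', e, h⟩ := key x y hx hy
    rw [e]
    have d1 : x ≤ φ (x, y) := le_max_left _ _
    have d2 : -σ ^ 2 * y ≤ φ (x, y) := le_max_right _ _
    have hx' : (0 : ℝ) < x := hx
    have hγ : 0 < -σ ^ 2 * y := by have : y < 0 := hy; nlinarith
    have d3 := L.ub x hx'.le
    have d4 : σ ^ 3 * x ≤ 1 / 1000 * x := by gcongr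
    have d5 : σ ^ 3 * (-σ ^ 2 * y) ≤ 1 / 1000 * (-σ ^ 2 * y) := by gcongr
    have d6 : σ ^ 2 * σ ^ 2 * x ≤ 1 / 100 * (1 / 100) * x := by gcongr
    have : φ (x', y') ≤ 92 + φ (x, y) / 2 := by
      refine max_le ?_ ?_ <;> rcases h with ⟨-, h2, h3⟩ | ⟨-, h2, h3⟩ <;> simp only <;> linarith
    linarith
  have b1 : φ w ≤ 184 := H3.lyap hwS m3 hφ.continuousAt (by norm_num) (by norm_num) k1
  let A : Set (ℝ × ℝ) := S0 ∩ {w | φ w < 200}
  have hA : A ∈ 𝓝 w :=
    (hS0.inter (isOpen_lt hφ continuous_const)).mem_nhds ⟨⟨hw1, hw2⟩, by simp only [mem_ofPred_eq]; linarith⟩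
  have mA : MapsTo (hG (σ ^ 2) P)^[3] A A := fun y hy => ⟨m3 hy.1, by
    have := k1 y hy.1
    have h2 : φ y < 200 := hy.2
    simp only [mem_ofPred_eq]; linarith⟩
  let μ : ℝ × ℝ → ℝ := fun w => min (-σ ^ 2 * w.2) (g w.1 / σ ^ 2)
  have hμ : Continuous μ := by have := L.cont; fun_prop
  have k2 : ∀ y ∈ A, μ ((hG (σ ^ 2) P)^[3] y) - 0 ≤ 1 / 2 * (μ y - 0) := by
    rintro ⟨x, y⟩ ⟨⟨hx, hy⟩, hφ'⟩
    obtain ⟨x', y', e, h⟩ := key x y hx hy
    rw [e]
    have hx' : (0 : ℝ) < x := hx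
    have hγ : 0 < -σ ^ 2 * y := by have : y < 0 := hy; nlinarith
    have d1 : x < 200 := lt_of_le_of_lt (le_max_left _ _) hφ'
    simp only [sub_zero, μ]
    rcases h with ⟨h1, h2, -⟩ | ⟨h1, h2, -⟩
    · rw [min_eq_left h1]
      exact (min_le_left _ _).trans (by nlinarith)
    · rw [min_eq_right h1]
      refine (min_le_right _ _).trans ?_
      rw [L.low x' (by nlinarith), ← mul_div_assoc]
      apply div_le_div_of_nonneg_right _ hβ.le
      have := L.lb x hx'.le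
      have d2 : σ ^ 3 * x' ≤ σ ^ 3 * (2 * σ ^ 3 * x) := by gcongr
      have d3 : 0 < σ ^ 3 * x := by positivity
      nlinarith
  have b2 : μ w ≤ 0 := H3.lyap hA mA hμ.continuousAt (by norm_num) (by norm_num) k2
  have b3 : 0 < μ w := by
    refine lt_min (by nlinarith) (div_pos ?_ hβ)
    have := L.lb w.1 hw1.le
    have d3 : 0 < σ ^ 3 * w.1 := by positivity
    linarith
  linarith

lemma rec_leg (h0 : 0 < σ) (h1 : σ ≤ 1 / 10) (L : Leg (σ ^ 3) g g' s a R)
    (T : TriP σ g P P' a R') {x : ℝ} (hx : 0 ≤ x) (H : Rec (hG (σ ^ 2) P) (x, 0)) :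
    x = 0 ∨ x = s ∨ x = a := by
  obtain ⟨s2, s3⟩ := sq_small h0 h1
  have hβ : 0 < σ ^ 2 := by positivity
  have hω : 0 < σ ^ 3 := by positivity
  have hm := L.strictMono hω
  have hg0 : g 0 = 0 := by rw [L.low 0 (by norm_num)]; simp
  have ha0 : 0 < a := L.s_pos.trans L.s_lt
  have hga : g a = a := by rw [L.tip a (by simp)]; simp
  have hc := hG_cont (β := σ ^ 2) T.cont
  have hit : ∀ k, (hG (σ ^ 2) P)^[3 * k] (x, 0) = (g^[k] x, 0) ∧ 0 ≤ g^[k] x := by
    intro k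
    induction k with
    | zero => exact ⟨rfl, hx⟩
    | succ k ih =>
      rw [Nat.mul_succ, add_comm, iterate_add_apply, ih.1, T.leg3 h0 ih.2, iterate_succ_apply']
      exact ⟨rfl, hg0 ▸ hm.monotone ih.2⟩
  have hconv : ∀ q, Tendsto (fun k => g^[k] x) atTop (𝓝 q) →
      ∀ W ∈ 𝓝 ((q, 0) : ℝ × ℝ), ∃ t, (hG (σ ^ 2) P)^[t] (x, 0) ∈ W := by
    intro q hq W hW
    obtain ⟨k, hk⟩ := ((hq.prodMk_nhds tendsto_const_nhds).eventually hW).exists
    exact ⟨3 * k, by rw [(hit k).1]; exact hk⟩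
  by_contra hne
  push Not at hne
  obtain ⟨n0, ns, na⟩ := hne
  rcases lt_or_gt_of_ne ns with hs | hs
  · refine not_rec_of_attract hc (q := (0, 0)) (k := 1) one_pos ?_
      (hconv 0 (tendsto_down L.cont hm.monotone hg0 hx fun y h h' => L.lt1 y h (by linarith)))
      ?_ H
    · intro W hW
      obtain ⟨ε, hε, hεW⟩ := Metric.mem_nhds_iff.1 hW
      refine ⟨Metric.ball (0, 0) (min ε (σ / 2)), Metric.isOpen_ball,
        Metric.mem_ball_self (lt_min hε (by linarith)),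
        (Metric.ball_subset_ball (min_le_left _ _)).trans hεW, ?_⟩
      rintro ⟨u, v⟩ huv
      simp only [Metric.mem_ball, Prod.dist_eq, Real.dist_eq, sub_zero, max_lt_iff, iterate_one,
        hG] at huv ⊢
      obtain ⟨c1, c2⟩ := huv
      refine ⟨?_, c1⟩
      rw [T.near u (c1.le.trans (min_le_right _ _))]
      obtain ⟨c3, c4⟩ := abs_lt.1 c1
      obtain ⟨c5, c6⟩ := abs_lt.1 c2
      rw [abs_lt]; constructor <;> nlinarith
    · intro i hi h
      obtain rfl : i = 0 := by omega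
      exact n0 (congrArg Prod.fst h).symm
  · have hq : Tendsto (fun k => g^[k] x) atTop (𝓝 a) := by
      rcases le_total x a with h | h
      · exact tendsto_up L.cont hm.monotone hga h fun y h h' => L.gt1 y (by linarith) h
      · exact tendsto_down L.cont hm.monotone hga h fun y h _ => L.lt2 y h
    have hPa : P a < 0 := T.zero h0 ▸ T.anti ha0
    refine not_rec_of_attract hc (q := (a, 0)) (k := 3) (by norm_num) ?_ (hconv a hq) ?_ H
    · intro W hW
      obtain ⟨ε, hε, hεW⟩ := Metric.mem_nhds_iff.1 hW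
      refine ⟨Metric.ball (a, 0) (min ε (σ ^ 2 / 2)), Metric.isOpen_ball,
        Metric.mem_ball_self (lt_min hε (by linarith)),
        (Metric.ball_subset_ball (min_le_left _ _)).trans hεW, ?_⟩
      rintro ⟨u, v⟩ huv
      obtain ⟨ξ, rfl⟩ : ∃ ξ, u = a + ξ := ⟨u - a, by ring⟩
      simp only [Metric.mem_ball, Prod.dist_eq, Real.dist_eq, sub_zero, max_lt_iff,
        add_sub_cancel_left] at huv ⊢
      obtain ⟨c1, c2⟩ := huv
      set δ := min ε (σ ^ 2 / 2) with hδ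
      have hδ' : δ ≤ σ ^ 2 / 2 := min_le_right _ _
      obtain ⟨c3, c4⟩ := abs_lt.1 c1
      obtain ⟨c5, c6⟩ := abs_lt.1 c2
      have e1 : P (a + ξ) - σ ^ 2 * v = P a + ((-(4 / 5) / σ ^ 2) * ξ - σ ^ 2 * v) := by
        rw [T.tip1 ξ (by linarith)]; ring
      have e2 : |(-(4 / 5) / σ ^ 2) * ξ - σ ^ 2 * v| ≤ 1 / 2 := by
        have f1 : |(-(4 / 5) / σ ^ 2) * ξ| ≤ 2 / 5 := by
          rw [div_mul_eq_mul_div, abs_div, abs_of_pos hβ, div_le_iff₀ hβ, abs_le]
          constructor <;> linarith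
        obtain ⟨f2, f3⟩ := abs_le.1 f1
        rw [abs_le]; constructor <;> nlinarith
      have e3 : P (P (a + ξ) - σ ^ 2 * v) - σ ^ 2 * (a + ξ) = 5 / 4 * σ ^ 6 * v := by
        rw [e1, T.tip2 _ e2]; field_simp; ring
      have s6 : σ ^ 6 ≤ 1 / 1000 * σ ^ 3 := by nlinarith
      have s6' : 0 < σ ^ 6 := by positivity
      have e4 : |5 / 4 * σ ^ 6 * v| ≤ δ / 100 := by
        rw [abs_le]; constructor <;> nlinarith
      have e5 : (hG (σ ^ 2) P)^[3] (a + ξ, v) =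
          (a + (4 / 5 * ξ + σ ^ 2 * σ ^ 2 * v - σ * (5 / 4 * σ ^ 6 * v)), 5 / 4 * σ ^ 6 * v) := by
        have : (hG (σ ^ 2) P)^[3] (a + ξ, v) =
          (P (P (P (a + ξ) - σ ^ 2 * v) - σ ^ 2 * (a + ξ)) - σ ^ 2 * (P (a + ξ) - σ ^ 2 * v),
            P (P (a + ξ) - σ ^ 2 * v) - σ ^ 2 * (a + ξ)) := rfl
        rw [this, e3, T.near _ (by nlinarith), e1]
        have f1 := T.pos a ha0.le
        rw [hga] at f1
        congr 1
        field_simp
        nlinarith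
      rw [e5]
      obtain ⟨c7, c8⟩ := abs_le.1 e4
      have s4 : σ ^ 2 * σ ^ 2 ≤ 1 / 100 := by nlinarith
      have s4' : 0 < σ ^ 2 * σ ^ 2 := by positivity
      simp only [add_sub_cancel_left]
      constructor
      · rw [abs_lt]; constructor <;> nlinarith
      · linarith
    · intro i hi h
      interval_cases i
      · exact na (congrArg Prod.fst h).symm
      · have := congrArg Prod.snd h
        simp [hG] at this; linarith
      · have := congrArg Prod.snd h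
        simp [hG] at this; linarith

theorem tripod_tame (h0 : 0 < σ) (h1 : σ ≤ 1 / 10) (L : Leg (σ ^ 3) g g' s a R)
    (T : TriP σ g P P' a R') : Tame (hG (σ ^ 2) P) 3 := by
  have hβ : 0 < σ ^ 2 := by positivity
  have hc := hG_cont (β := σ ^ 2) T.cont
  have hi := hG_inj hβ.ne' P
  have hP0 := T.zero h0
  have hpos : ∀ x, x < 0 → 0 < P x := fun x hx => hP0 ▸ T.anti hx
  have hneg : ∀ x, 0 ≤ x → P x ≤ 0 := fun x hx => hP0 ▸ T.anti.antitone hx
  have hfix : ∀ x, x = 0 ∨ x = s ∨ x = a → (hG (σ ^ 2) P)^[3] (x, 0) = (x, 0) := by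
    rintro x (rfl | rfl | rfl)
    · rw [T.leg3 h0 le_rfl, L.low 0 (by norm_num)]; simp
    · rw [T.leg3 h0 L.s_pos.le, L.fix_s]
    · rw [T.leg3 h0 (L.s_pos.trans L.s_lt).le, L.tip x (by simp)]; simp
  have q1 : ∀ w : ℝ × ℝ, w.1 ≤ 0 → σ ^ 2 * w.2 ≤ P w.1 →
      0 ≤ (hG (σ ^ 2) P w).1 ∧ (hG (σ ^ 2) P w).2 ≤ 0 := fun w a1 a2 =>
    ⟨by simp only [hG]; linarith, a1⟩
  have q2 : ∀ w : ℝ × ℝ, ∃ i ≤ 2, 0 ≤ ((hG (σ ^ 2) P)^[i] w).1 ∧ ((hG (σ ^ 2) P)^[i] w).2 ≤ 0 := by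
    rintro ⟨x, y⟩
    by_cases a1 : 0 ≤ x ∧ y ≤ 0
    · exact ⟨0, by norm_num, a1⟩
    by_cases a2 : x ≤ 0 ∧ σ ^ 2 * y ≤ P x
    · exact ⟨1, by norm_num, q1 _ a2.1 a2.2⟩
    refine ⟨2, le_rfl, q1 (hG (σ ^ 2) P (x, y)) ?_ ?_⟩
    · simp only [hG]
      rcases le_or_gt x 0 with h | h
      · push Not at a2; linarith [a2 h]
      · push Not at a1; have := a1 h.le; have := hneg x h.le; nlinarith
    · simp only [hG]
      rcases le_or_gt x 0 with h | h
      · push Not at a2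
        have := hpos (P x - σ ^ 2 * y) (by linarith [a2 h]); nlinarith
      · push Not at a1
        have := a1 h.le
        rw [← T.PP x h.le]; exact T.anti.antitone (by nlinarith)
  have q3 : ∀ w, Rec (hG (σ ^ 2) P) w → ∃ i ≤ 3, ∃ x, (x = 0 ∨ x = s ∨ x = a) ∧
      w = (hG (σ ^ 2) P)^[i] (x, 0) := by
    intro w H
    have : ∃ i ≤ 3, ∃ x, 0 ≤ x ∧ (hG (σ ^ 2) P)^[i] w = (x, 0) := by
      obtain ⟨i, hi2, a1, a2⟩ := q2 w
      rcases a2.eq_or_lt with h | h
      · exact ⟨i, by omega, _, a1, Prod.ext rfl h⟩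
      rcases a1.eq_or_lt with h' | h'
      · refine ⟨i + 1, by omega, -σ ^ 2 * ((hG (σ ^ 2) P)^[i] w).2, by nlinarith, ?_⟩
        rw [iterate_succ_apply']
        generalize (hG (σ ^ 2) P)^[i] w = u at *
        simp [hG, ← h', hP0]
      · exact (not_rec_quadrant h0 h1 L T h' h (H.iterate hc i)).elim
    obtain ⟨i, hi3, x, hx, e⟩ := this
    have hx' := rec_leg h0 h1 L T hx (e ▸ H.iterate hc i)
    refine ⟨3 - i, by omega, x, hx', hi.iterate i ?_⟩
    rw [← iterate_add_apply, e, show i + (3 - i) = 3 by omega, hfix x hx']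
  constructor
  · refine Set.Finite.subset (Set.Finite.image2 (fun i x => (hG (σ ^ 2) P)^[i] (x, 0))
      (Set.finite_le_nat 3) (Set.toFinite {0, s, a})) fun w H => ?_
    obtain ⟨i, hi3, x, hx, e⟩ := q3 w H
    exact ⟨i, hi3, x, hx, e.symm⟩
  · intro w H
    obtain ⟨i, -, x, hx, rfl⟩ := q3 w H
    rw [← iterate_add_apply, add_comm, iterate_add_apply, hfix x hx]

end

end Pool.Agent.Lib.MP_3fe454_an
end

-- part Pool.Agent.Lib.MP_3fe454_an.Simple
section

/-! Contracting Henon maps, Henon horseshoes, and the auxiliary bump functions. -/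

namespace Pool.Agent.Lib.MP_3fe454_an

open Set Filter Topology Function

/-- The adapted norm. -/
noncomputable def nN (w : ℝ × ℝ) : ℝ := max |w.1| (|w.2| / 2)

lemma nN_cont : Continuous nN := by unfold nN; fun_prop

lemma nN_nonneg (w : ℝ × ℝ) : 0 ≤ nN w := le_max_of_le_left (abs_nonneg _)

lemma nN_fst (w : ℝ × ℝ) : |w.1| ≤ nN w := le_max_left _ _

lemma nN_snd (w : ℝ × ℝ) : |w.2| ≤ 2 * nN w := by
  have : |w.2| / 2 ≤ nN w := le_max_right _ _
  linarith

lemma nN_le_norm (w : ℝ × ℝ) : nN w ≤ ‖w‖ := by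
  refine max_le (norm_fst_le w) ?_
  have h1 : |w.2| ≤ ‖w‖ := norm_snd_le w
  linarith [abs_nonneg w.2]

lemma norm_le_nN (w : ℝ × ℝ) : ‖w‖ ≤ 2 * nN w := by
  rw [Prod.norm_def]
  exact max_le (by rw [Real.norm_eq_abs]; linarith [nN_fst w, nN_nonneg w]) (nN_snd w)

lemma nN_step {β u Ψ : ℝ} {w : ℝ × ℝ} (h0 : 0 < β) (h1 : β ≤ 1 / 100) (hΨ : 0 ≤ Ψ)
    (hu : |u| ≤ 9 / 10 * |w.1| + Ψ) : nN (u - β * w.2, w.1) ≤ 23 / 25 * nN w + Ψ := by
  have a1 := nN_fst w
  have a2 := nN_snd w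
  have a3 := nN_nonneg w
  refine max_le ?_ ?_
  · calc |u - β * w.2| ≤ |u| + |β * w.2| := abs_sub _ _
      _ = |u| + β * |w.2| := by rw [abs_mul, abs_of_pos h0]
      _ ≤ |u| + 1 / 100 * (2 * nN w) := by gcongr
      _ ≤ _ := by linarith
  · simp only; linarith

theorem move_tame {β : ℝ} {P : ℝ → ℝ} (h0 : 0 < β) (h1 : β ≤ 1 / 100)
    (hP : ∀ x, |P x| ≤ 9 / 10 * |x|) : Tame (hG β P) 1 := by
  have key : ∀ w, Rec (hG β P) w → w = 0 := by
    intro w H
    have h := H.lyap (A := univ) univ_mem (mapsTo_univ _ _) nN_cont.continuousAt (θ := 23 / 25)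
      (C := 0) (by norm_num) (by norm_num) fun y _ => by
        have := nN_step (w := y) (u := P y.1) h0 h1 le_rfl (by simpa using hP y.1)
        simpa [hG] using this
    have := norm_le_nN w
    exact norm_le_zero_iff.1 (by linarith)
  refine ⟨(Set.finite_singleton 0).subset key, fun w H => ?_⟩
  rw [key w H]
  have : P 0 = 0 := by simpa using hP 0
  simp [hG, this]

theorem henon_horseshoe {β : ℝ} {P : ℝ → ℝ} (h0 : 0 < β) (h1 : β ≤ 1 / 100) (c : ℕ → ℝ)
    (hc : ∀ i, |c i| = 1) (hP : ∀ i x, |x - c i| ≤ 2 / 5 → P x = 4 * (x - c i)) (k : ℕ) :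
    ∃ x : ℝ, (∀ i ≤ k, ‖(hG β P)^[i] (x, 0)‖ ≤ 2) ∧
      ∀ i < k, |((hG β P)^[i] (x, 0)).1 - c i| ≤ 2 / 5 := by
  let u : ℝ → ℕ → ℝ × ℝ := fun x i =>
    Nat.rec (x, 0) (fun i v => (4 * (v.1 - c i) - β * v.2, v.1)) i
  have u0 : ∀ x, u x 0 = (x, 0) := fun x => rfl
  have us : ∀ x i, u x (i + 1) = (4 * ((u x i).1 - c i) - β * (u x i).2, (u x i).1) :=
    fun x i => rfl
  have hd : ∀ i, ∃ d e : ℝ, 0 ≤ e ∧ e ≤ d ∧ 1 ≤ d ∧
      ∀ x, (u x i).1 = (u 0 i).1 + d * x ∧ (u x i).2 = (u 0 i).2 + e * x := by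
    intro i
    induction i with
    | zero => exact ⟨1, 0, le_rfl, by norm_num, le_rfl, fun x => by simp [u0]⟩
    | succ i ih =>
      obtain ⟨d, e, a1, a2, a3, a4⟩ := ih
      refine ⟨4 * d - β * e, d, by linarith, by nlinarith, by nlinarith, fun x => ?_⟩
      rw [us, us, (a4 x).1, (a4 x).2]
      constructor
      · ring
      · rfl
  obtain ⟨d, e, -, -, a3, a4⟩ := hd k
  let x := -(u 0 k).1 / d
  have hk : (u x k).1 = 0 := by
    rw [(a4 x).1]; simp only [x]; field_simp; ring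
  obtain ⟨j, hj, hM⟩ := (Finset.range (k + 1)).exists_max_image (fun i => |(u x i).1|)
    ⟨0, by simp⟩
  set M := |(u x j).1| with hM'
  have b1 : ∀ i ≤ k, |(u x i).1| ≤ M := fun i hi => hM i (Finset.mem_range.2 (by omega))
  have b2 : ∀ i ≤ k, |(u x i).2| ≤ M := by
    intro i hi
    cases i with
    | zero => simp [u0, hM']
    | succ i => rw [us]; exact b1 i (by omega)
  have b3 : ∀ i < k, |(u x i).1 - c i| ≤ 101 / 400 * M := by
    intro i hi
    have c1 := abs_le.1 (b1 (i + 1) hi)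
    have c2 := abs_le.1 (b2 i hi.le)
    rw [us] at c1
    simp only at c1
    have c3 : 0 ≤ M := abs_nonneg _
    rw [abs_le]; constructor <;> nlinarith
  have b4 : M ≤ 3 / 2 := by
    have hjk : j ≤ k := by have := Finset.mem_range.1 hj; omega
    rcases hjk.eq_or_lt with rfl | h
    · rw [hM', hk]; norm_num
    · have c1 := b3 j h
      have c2 : |(u x j).1| ≤ |(u x j).1 - c j| + |c j| := by
        simpa using abs_add_le ((u x j).1 - c j) (c j)
      rw [hc] at c2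
      linarith
  have b5 : ∀ i ≤ k, (hG β P)^[i] (x, 0) = u x i := by
    intro i hi
    induction i with
    | zero => rfl
    | succ i ih =>
      rw [iterate_succ_apply', ih (by omega), us, hG, hP i _ ((b3 i hi).trans (by linarith))]
  refine ⟨x, fun i hi => ?_, fun i hi => ?_⟩
  · rw [b5 i hi, Prod.norm_def]
    exact max_le ((b1 i hi).trans (by linarith)) ((b2 i hi).trans (by linarith))
  · rw [b5 i hi.le]; exact (b3 i hi).trans (by linarith)

/-- A `C^1` function with compact support has bounded derivative. -/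
lemma exists_deriv_bound {φ : ℝ → ℝ} (h : ContDiff ℝ 1 φ) (hs : HasCompactSupport φ) :
    ∃ C, 0 ≤ C ∧ ∀ x, |deriv φ x| ≤ C := by
  obtain ⟨C, hC⟩ := (h.continuous_deriv le_rfl).bounded_above_of_compact_support hs.deriv
  exact ⟨C, (norm_nonneg _).trans (hC 0), hC⟩

/-- A bump function with bounded derivative. -/
structure Bump (χ : ℝ → ℝ) (C : ℝ) : Prop where
  cd : ContDiff ℝ 1 χ
  nn : ∀ x, 0 ≤ χ x
  le : ∀ x, χ x ≤ 1
  one : ∀ x, |x| ≤ 1 → χ x = 1
  zero : ∀ x, 5 / 4 ≤ |x| → χ x = 0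
  one_le : 1 ≤ C
  bd : ∀ x, |deriv χ x| ≤ C

theorem exists_bump : ∃ χ C, Bump χ C := by
  let b : ContDiffBump (0 : ℝ) := ⟨1, 5 / 4, one_pos, by norm_num⟩
  obtain ⟨C, hC, hC'⟩ := exists_deriv_bound (φ := b) b.contDiff b.hasCompactSupport
  refine ⟨b, max C 1, b.contDiff, fun x => b.nonneg, fun x => b.le_one, fun x hx => ?_,
    fun x hx => ?_, le_max_right _ _, fun x => (hC' x).trans (le_max_left _ _)⟩
  · exact b.one_of_mem_closedBall (by simpa using hx)
  · exact b.zero_of_le_dist (by simpa using hx)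

/-- A `C^1` function which is linear of slope `τ` at infinity, with slope within `Λ` of `τ`. -/
structure Prof (τ Λ : ℝ) (P : ℝ → ℝ) : Prop where
  ex : ∃ P' : ℝ → ℝ, Continuous P' ∧ (∀ x, HasDerivAt P (P' x) x) ∧ ∀ x, |P' x - τ| ≤ Λ
  far : ∃ R, ∀ x, R ≤ |x| → P x = τ * x

lemma Bump.hd {χ : ℝ → ℝ} {C : ℝ} (B : Bump χ C) (x : ℝ) : HasDerivAt χ (deriv χ x) x :=
  ((B.cd.differentiable one_ne_zero) x).hasDerivAt

lemma Bump.dz {χ : ℝ → ℝ} {C : ℝ} (B : Bump χ C) {x : ℝ} (hx : 2 ≤ |x|) : deriv χ x = 0 := by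
  have : χ =ᶠ[𝓝 x] fun _ => 0 := by
    have h : ∀ᶠ y in 𝓝 x, 5 / 4 < |y| :=
      continuous_abs.continuousAt.eventually (lt_mem_nhds (by linarith))
    filter_upwards [h] with y hy using B.zero y hy.le
  rw [this.deriv_eq]; simp

/-- Derivative bound for `x ↦ (u + v x) χ x`. -/
lemma Bump.affine_mul {χ : ℝ → ℝ} {C : ℝ} (B : Bump χ C) (u v x : ℝ) :
    |v * χ x + (u + v * x) * deriv χ x| ≤ (|u| + 3 * |v|) * C := by
  have a1 : |v * χ x| ≤ |v| * C := by
    rw [abs_mul, abs_of_nonneg (B.nn x)]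
    exact mul_le_mul_of_nonneg_left ((B.le x).trans B.one_le) (abs_nonneg _)
  have a2 : |(u + v * x) * deriv χ x| ≤ (|u| + 2 * |v|) * C := by
    rcases le_total 2 |x| with h | h
    · rw [B.dz h, mul_zero, abs_zero]
      have := B.one_le
      positivity
    · rw [abs_mul]
      refine mul_le_mul ?_ (B.bd x) (abs_nonneg _) (by positivity)
      calc |u + v * x| ≤ |u| + |v * x| := abs_add_le _ _
        _ = |u| + |v| * |x| := by rw [abs_mul]
        _ ≤ |u| + |v| * 2 := by gcongr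
        _ = _ := by ring
  calc _ ≤ |v * χ x| + |(u + v * x) * deriv χ x| := abs_add_le _ _
    _ ≤ _ := by linarith

theorem exists_move {χ : ℝ → ℝ} {C : ℝ} (B : Bump χ C) {τ τ' : ℝ} (h : |τ| ≤ 9 / 10)
    (h' : |τ'| ≤ 9 / 10) : ∃ P, Prof τ (3 * C * |τ' - τ|) P ∧ (∀ x, |P x| ≤ 9 / 10 * |x|) ∧
      ∀ x, |x| ≤ 1 → P x = τ' * x := by
  refine ⟨fun x => τ * x + (0 + (τ' - τ) * x) * χ x, ⟨⟨fun x => τ + ((τ' - τ) * χ x +
    (0 + (τ' - τ) * x) * deriv χ x), ?_, fun x => ?_, fun x => ?_⟩, 2, fun x hx => ?_⟩,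
    fun x => ?_, fun x hx => ?_⟩
  · have := B.cd.continuous
    have := B.cd.continuous_deriv le_rfl
    fun_prop
  · exact hd_congr (((hasDerivAt_id x).const_mul τ).add
      ((((hasDerivAt_id x).const_mul (τ' - τ)).const_add 0).mul (B.hd x)))
      (fun y => by simp) (by simp)
  · have := B.affine_mul 0 (τ' - τ) x
    rw [add_sub_cancel_left]
    refine this.trans (le_of_eq ?_)
    simp; ring
  · simp [B.zero x (by linarith)]
  · have e : τ * x + (0 + (τ' - τ) * x) * χ x = ((1 - χ x) * τ + χ x * τ') * x := by ring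
    simp only
    rw [e, abs_mul]
    apply mul_le_mul_of_nonneg_right _ (abs_nonneg _)
    obtain ⟨a1, a2⟩ := abs_le.1 h
    obtain ⟨a3, a4⟩ := abs_le.1 h'
    have := B.nn x
    have := B.le x
    rw [abs_le]; constructor <;> nlinarith
  · simp only [B.one x hx]; ring

theorem exists_shoe {χ : ℝ → ℝ} {C : ℝ} (B : Bump χ C) {τ : ℝ} (h : |τ| ≤ 9 / 10) :
    ∃ P, Prof τ (40 * C) P ∧ ∀ c x : ℝ, |c| = 1 → |x - c| ≤ 2 / 5 → P x = 4 * (x - c) := by
  let q : ℝ → ℝ → ℝ := fun c x =>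
    (-τ * c + (4 - τ) * (2 / 5) * (5 / 2 * (x - c))) * χ (5 / 2 * (x - c))
  let q' : ℝ → ℝ → ℝ := fun c x =>
    ((4 - τ) * (2 / 5) * χ (5 / 2 * (x - c)) +
      (-τ * c + (4 - τ) * (2 / 5) * (5 / 2 * (x - c))) * deriv χ (5 / 2 * (x - c))) * (5 / 2)
  have hq : ∀ c x, HasDerivAt (q c) (q' c x) x := by
    intro c x
    have a1 := (((hasDerivAt_id (5 / 2 * (x - c))).const_mul ((4 - τ) * (2 / 5))).const_add
      (-τ * c)).mul (B.hd (5 / 2 * (x - c)))
    have a2 : HasDerivAt (fun y => 5 / 2 * (y - c)) (5 / 2) x :=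
      hd_congr (((hasDerivAt_id x).sub_const c).const_mul (5 / 2)) (fun y => by simp) (by simp)
    exact hd_congr (HasDerivAt.comp x a1 a2) (fun y => by simp [q]) (by simp [q'])
  have hq' : ∀ c x, |c| = 1 → |q' c x| ≤ 20 * C := by
    intro c x hc
    have a1 := B.affine_mul (-τ * c) ((4 - τ) * (2 / 5)) (5 / 2 * (x - c))
    have a2 : |-τ * c| ≤ 9 / 10 := by rw [abs_mul, hc, abs_neg]; linarith
    have a3 : |(4 - τ) * (2 / 5)| ≤ 2 := by
      obtain ⟨a, b⟩ := abs_le.1 h; rw [abs_le]; constructor <;> linarith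
    have a4 := B.one_le
    simp only [q']
    rw [abs_mul, abs_of_pos (by norm_num : (0 : ℝ) < 5 / 2)]
    nlinarith
  have hz : ∀ c x, 1 / 2 ≤ |x - c| → q c x = 0 := by
    intro c x hx
    simp only [q]
    rw [B.zero _ (by rw [abs_mul, abs_of_pos (by norm_num : (0 : ℝ) < 5 / 2)]; linarith), mul_zero]
  have ho : ∀ c x, |x - c| ≤ 2 / 5 → q c x = 4 * (x - c) - τ * x := by
    intro c x hx
    simp only [q]
    rw [B.one _ (by rw [abs_mul, abs_of_pos (by norm_num : (0 : ℝ) < 5 / 2)]; linarith)]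
    ring
  refine ⟨fun x => τ * x + (q 1 x + q (-1) x), ⟨⟨fun x => τ + (q' 1 x + q' (-1) x), ?_,
    fun x => ?_, fun x => ?_⟩, 2, fun x hx => ?_⟩, fun c x hc hx => ?_⟩
  · have := B.cd.continuous
    have := B.cd.continuous_deriv le_rfl
    simp only [q']
    fun_prop
  · exact hd_congr (((hasDerivAt_id x).const_mul τ).add ((hq 1 x).add (hq (-1) x)))
      (fun y => by simp) (by simp)
  · rw [add_sub_cancel_left]
    have := abs_add_le (q' 1 x) (q' (-1) x)
    linarith [hq' 1 x (by simp), hq' (-1) x (by simp)]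
  · have a1 : |x| ≤ |x - 1| + |(1 : ℝ)| := by simpa using abs_add_le (x - 1) 1
    have a2 : |x| ≤ |x - -1| + |(-1 : ℝ)| := by simpa using abs_add_le (x - -1) (-1)
    simp only [abs_one, abs_neg] at a1 a2
    rw [hz 1 x (by linarith), hz (-1) x (by linarith)]; ring
  · obtain ⟨a, b⟩ := abs_le.1 hx
    simp only
    rcases abs_eq (by norm_num : (0 : ℝ) ≤ 1) |>.1 hc with rfl | rfl
    · rw [ho 1 x hx, hz (-1) x (le_abs.2 (Or.inl (by linarith)))]; ring
    · rw [ho (-1) x hx, hz 1 x (le_abs.2 (Or.inr (by linarith)))]; ring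

end Pool.Agent.Lib.MP_3fe454_an
end
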