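import Mathlib.Dynamics.TopologicalEntropy.NetEntropy
import Mathlib.Analysis.SpecialFunctions.Pow.Asymptotics
import Mathlib.Data.Nat.Choose.Bounds
import Pool.Agent.Lib.MP_3fe454_an.Simple

/-! Criteria for zero and for positive topological entropy. -/

namespace Pool.Agent.Lib.MP_3fe454_an

open Set Filter Topology Function Dynamics

lemma card_small_subsets {α : Type*} [DecidableEq α] (A : Finset α) (M : ℕ) :
    (A.powerset.filter (fun B => B.card ≤ M)).card ≤ (M + 1) * (A.card + 1) ^ M := by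
  have h1 : A.powerset.filter (fun B => B.card ≤ M) ⊆
      (Finset.range (M + 1)).biUnion (fun k => A.powersetCard k) := by
    intro B hB
    rw [Finset.mem_filter, Finset.mem_powerset] at hB
    exact Finset.mem_biUnion.2 ⟨B.card, Finset.mem_range.2 (by omega),
      Finset.mem_powersetCard.2 ⟨hB.1, rfl⟩⟩
  refine (Finset.card_le_card h1).trans (Finset.card_biUnion_le.trans ?_)
  calc ∑ k ∈ Finset.range (M + 1), (A.powersetCard k).card
      ≤ ∑ _k ∈ Finset.range (M + 1), (A.card + 1) ^ M := by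
        apply Finset.sum_le_sum
        intro k hk
        rw [Finset.card_powersetCard]
        have hk' : k ≤ M := by have := Finset.mem_range.1 hk; omega
        calc A.card.choose k ≤ A.card ^ k := Nat.choose_le_pow _ _
          _ ≤ (A.card + 1) ^ k := Nat.pow_le_pow_left (by omega) _
          _ ≤ (A.card + 1) ^ M := Nat.pow_le_pow_right (by omega) hk'
    _ = _ := by simp

lemma card_le_of_window (A : Finset ℕ) (N : ℕ) (h : ∀ s ∈ A, ∀ t ∈ A, s ≤ t → t - s < N) :
    A.card ≤ N := by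
  rcases A.eq_empty_or_nonempty with rfl | hne
  · simp
  have : A ⊆ Finset.Ico (A.min' hne) (A.min' hne + N) := by
    intro t ht
    have h1 := A.min'_le t ht
    have h2 := h _ (A.min'_mem hne) t ht h1
    rw [Finset.mem_Ico]; omega
  simpa using Finset.card_le_card this

lemma expGrowthSup_poly {u : ℕ → ENNReal} {C L M : ℕ}
    (h : ∀ m, u m ≤ ((C * (m * L + 1) ^ M : ℕ) : ENNReal)) : ExpGrowth.expGrowthSup u ≤ 0 := by
  rw [ExpGrowth.expGrowthSup_le_iff]
  intro b hb
  obtain ⟨c, hc0, hcb⟩ := EReal.lt_iff_exists_real_btwn.1 hb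
  have hc : 0 < c := by exact_mod_cast hc0
  have h1 := (isLittleO_pow_exp_pos_mul_atTop M hc).comp_tendsto tendsto_natCast_atTop_atTop
  have hK : (0 : ℝ) < 1 / ((C + 1) * (L + 1) ^ M) := by positivity
  filter_upwards [h1.def hK, eventually_ge_atTop 1] with m hm hm1
  refine (h m).trans ?_
  have h2 : ((C * (m * L + 1) ^ M : ℕ) : ℝ) ≤ Real.exp (c * m) := by
    simp only [comp_apply, norm_pow, Real.norm_eq_abs, Real.abs_exp, Nat.abs_cast] at hm
    have hm1' : (1 : ℝ) ≤ m := by exact_mod_cast hm1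
    have h3 : ((m : ℝ) * L + 1) ^ M ≤ ((L + 1) * m) ^ M := by
      apply pow_le_pow_left₀ (by positivity); nlinarith
    rw [div_mul_eq_mul_div, one_mul, le_div_iff₀ (by positivity)] at hm
    push_cast
    calc (C : ℝ) * (m * L + 1) ^ M ≤ (C + 1) * ((L + 1) * m) ^ M := by gcongr; linarith
      _ = (m : ℝ) ^ M * ((C + 1) * (L + 1) ^ M) := by rw [mul_pow]; ring
      _ ≤ _ := hm
  calc ((C * (m * L + 1) ^ M : ℕ) : ENNReal)
      = ENNReal.ofReal ((C * (m * L + 1) ^ M : ℕ) : ℝ) := (ENNReal.ofReal_natCast _).symm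
    _ ≤ ENNReal.ofReal (Real.exp (c * m)) := ENNReal.ofReal_le_ofReal h2
    _ = EReal.exp ((c * m : ℝ) : EReal) := rfl
    _ ≤ _ := by
      apply EReal.exp_monotone
      rw [EReal.coe_mul]
      exact mul_le_mul_of_nonneg_right hcb.le (by exact_mod_cast Nat.zero_le m)

/-- Counting itineraries with boundedly many breaks. -/
lemma cover_of_labels {X Λ : Type*} [DecidableEq Λ] {f : X → X} {K : Set X}
    (hKf : MapsTo f K K) {U : SetRel X X} (A : Finset Λ) (lab : X → Λ) (σ : Λ → Λ) (M : ℕ)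
    (hA : ∀ x ∈ K, lab x ∈ A) (hU : ∀ x ∈ K, ∀ y ∈ K, lab x = lab y → (x, y) ∈ U)
    (hM : ∀ y ∈ K, ∀ m, ((Finset.range m).filter
      (fun t => lab (f^[t + 1] y) ≠ σ (lab (f^[t] y)))).card ≤ M) (m : ℕ) :
    coverMincard f K U m ≤ ((A.card * (M + 1)) * (m * A.card + 1) ^ M : ℕ) := by
  classical
  let B : X → Finset ℕ := fun y => (Finset.range m).filter
      (fun t => lab (f^[t + 1] y) ≠ σ (lab (f^[t] y)))
  let code : X → Λ × Finset (ℕ × Λ) := fun y =>
    (lab y, (B y).image fun t => (t, lab (f^[t + 1] y)))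
  let Codes : Finset (Λ × Finset (ℕ × Λ)) :=
    A ×ˢ ((Finset.range m ×ˢ A).powerset.filter fun S => S.card ≤ M)
  have hcode : ∀ y ∈ K, code y ∈ Codes := by
    intro y hy
    refine Finset.mem_product.2 ⟨hA y hy, Finset.mem_filter.2 ⟨Finset.mem_powerset.2 ?_, ?_⟩⟩
    · intro z hz
      obtain ⟨t, ht, rfl⟩ := Finset.mem_image.1 hz
      exact Finset.mem_product.2 ⟨(Finset.mem_filter.1 ht).1, hA _ (hKf.iterate _ hy)⟩
    · exact Finset.card_image_le.trans (hM y hy m)
  have hdet : ∀ y z, code y = code z → ∀ t ≤ m, lab (f^[t] y) = lab (f^[t] z) := by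
    intro y z hyz t ht
    have h1 : lab y = lab z := congrArg Prod.fst hyz
    have h2 : (B y).image (fun t => (t, lab (f^[t + 1] y))) =
      (B z).image (fun t => (t, lab (f^[t + 1] z))) := congrArg Prod.snd hyz
    induction t with
    | zero => exact h1
    | succ t ih =>
      by_cases hy : t ∈ B y
      · have : (t, lab (f^[t + 1] y)) ∈ (B z).image (fun t => (t, lab (f^[t + 1] z))) :=
          h2 ▸ Finset.mem_image_of_mem _ hy
        obtain ⟨s, -, hs⟩ := Finset.mem_image.1 this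
        obtain ⟨rfl, hs2⟩ := Prod.mk.inj hs
        exact hs2.symm
      by_cases hz : t ∈ B z
      · have : (t, lab (f^[t + 1] z)) ∈ (B y).image (fun t => (t, lab (f^[t + 1] y))) :=
          h2 ▸ Finset.mem_image_of_mem _ hz
        obtain ⟨s, -, hs⟩ := Finset.mem_image.1 this
        obtain ⟨rfl, hs2⟩ := Prod.mk.inj hs
        exact hs2
      have hmem : t ∈ Finset.range m := Finset.mem_range.2 (by omega)
      have hy' : lab (f^[t + 1] y) = σ (lab (f^[t] y)) := by
        by_contra hc; exact hy (Finset.mem_filter.2 ⟨hmem, hc⟩)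
      have hz' : lab (f^[t + 1] z) = σ (lab (f^[t] z)) := by
        by_contra hc; exact hz (Finset.mem_filter.2 ⟨hmem, hc⟩)
      rw [hy', hz', ih (by omega)]
  rcases K.eq_empty_or_nonempty with rfl | ⟨x0, hx0⟩
  · simp [coverMincard_empty]
  have hrep : ∀ c : Λ × Finset (ℕ × Λ), ∃ z ∈ K, (∃ y ∈ K, code y = c) → code z = c := by
    intro c
    by_cases hc : ∃ y ∈ K, code y = c
    · obtain ⟨y, hy, hyc⟩ := hc
      exact ⟨y, hy, fun _ => hyc⟩
    · exact ⟨x0, hx0, fun h => (hc h).elim⟩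
  choose rep hrepK hrep using hrep
  have hcov : IsDynCoverOf f K U m (Codes.image rep : Finset X) := by
    intro y hy
    refine ⟨rep (code y), ?_, ?_⟩
    · exact Finset.mem_coe.2 (Finset.mem_image_of_mem _ (hcode y hy))
    · refine mem_dynEntourage.2 fun k hk => hU _ (hKf.iterate _ hy) _ (hKf.iterate _ (hrepK _)) ?_
      exact hdet _ _ (hrep _ ⟨y, hy, rfl⟩).symm k hk.le
  refine hcov.coverMincard_le_card.trans ?_
  have : (Codes.image rep).card ≤ (A.card * (M + 1)) * (m * A.card + 1) ^ M := by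
    refine Finset.card_image_le.trans ?_
    rw [Finset.card_product, mul_assoc]
    apply Nat.mul_le_mul_left
    simpa using card_small_subsets (Finset.range m ×ˢ A) M
  exact_mod_cast this

theorem entropy_zero {X : Type*} [MetricSpace X] {f : X → X} (hf : Continuous f) {K : Set X}
    (hK : IsCompact K) (hKf : MapsTo f K K) (hne : K.Nonempty)
    (h : ∀ ε > 0, ∃ (n : ℕ) (O : ℕ → Set X) (P : Finset X), Cyc n O ∧ (∀ i, IsOpen (O i)) ∧
      (∀ i, MapsTo f (O i) (O (i + 1))) ∧ (∀ i, ∀ x ∈ O i, ∀ y ∈ O i, dist x y < ε) ∧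
      ∀ x, Rec f x → x ∈ ⋃ i, O i ∨ x ∈ P) :
    coverEntropy f K = 0 := by
  classical
  refine le_antisymm ?_ (coverEntropy_nonneg f hne)
  rw [coverEntropy_eq_iSup_basis Metric.uniformity_basis_dist]
  refine iSup₂_le fun ε hε => ?_
  obtain ⟨n, O, P, hC, hOo, hO, hOd, hrec⟩ := h ε hε
  -- a radius for the finitely many exceptional points
  have hr : ∀ᶠ r in 𝓝[>] (0 : ℝ), r < ε / 2 ∧ ∀ p ∈ P, ∀ q ∈ P, q ≠ f p →
      ∀ x ∈ Metric.ball p r, f x ∉ Metric.ball q r := by
    have h0 : ∀ᶠ r in 𝓝[>] (0 : ℝ), r < ε / 2 :=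
      nhdsWithin_le_nhds (Iio_mem_nhds (by linarith))
    refine h0.and ?_
    rw [Finset.eventually_all]; intro p _
    rw [Finset.eventually_all]; intro q _
    by_cases hq : q = f p
    · exact Eventually.of_forall fun r h => (h hq).elim
    have hd : 0 < dist q (f p) / 2 := by have := dist_pos.2 hq; linarith
    obtain ⟨δ, hδ, hδ'⟩ := Metric.continuous_iff.1 hf p _ hd
    filter_upwards [nhdsWithin_le_nhds (Iio_mem_nhds hδ), nhdsWithin_le_nhds (Iio_mem_nhds hd)]
      with r h1 h2 _ x hx hfx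
    have h3 := hδ' x (lt_trans hx h1)
    have h4 : dist (f x) q < dist q (f p) / 2 := lt_trans hfx h2
    have := dist_triangle_left q (f p) (f x)
    linarith
  obtain ⟨r, ⟨hrε, hr⟩, hr0⟩ := (hr.and self_mem_nhdsWithin).exists
  have hr0 : 0 < r := hr0
  set Uo : Set X := ⋃ i, O i with hUo
  set Ub : Set X := ⋃ p ∈ P, Metric.ball p r with hUb
  have hUoo : IsOpen Uo := isOpen_iUnion hOo
  have hUbo : IsOpen Ub := isOpen_biUnion fun p _ => Metric.isOpen_ball
  set K' := K \ (Uo ∪ Ub) with hK'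
  have hK'c : IsCompact K' := hK.diff (hUoo.union hUbo)
  have hw : ∀ x ∈ K', ∃ V ∈ 𝓝 x, V ⊆ Metric.ball x (ε / 2) ∧
      ∃ N : ℕ, ∀ y ∈ V, ∀ t, N ≤ t → f^[t] y ∉ V := by
    intro x hx
    have : ¬ Rec f x := by
      intro H
      rcases hrec x H with h1 | h1
      · exact hx.2 (Or.inl h1)
      · exact hx.2 (Or.inr (mem_iUnion₂.2 ⟨x, h1, Metric.mem_ball_self hr0⟩))
    unfold Rec at this
    push Not at this
    obtain ⟨V, hV, N, hN⟩ := this
    exact ⟨V ∩ Metric.ball x (ε / 2), inter_mem hV (Metric.ball_mem_nhds x (by linarith)),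
      inter_subset_right, N, fun y hy t ht hc => hN y hy.1 t ht hc.1⟩
  choose! V hV hVb N hN using hw
  obtain ⟨T, hTK, hT⟩ := hK'c.elim_nhds_subcover V hV
  -- exceptional times
  have hE : ∀ y m, ((Finset.range m).filter (fun t => f^[t] y ∈ K')).card ≤ ∑ x ∈ T, N x := by
    intro y m
    have h1 : (Finset.range m).filter (fun t => f^[t] y ∈ K') ⊆
        T.biUnion fun x => (Finset.range m).filter (fun t => f^[t] y ∈ V x) := by
      intro t ht
      obtain ⟨ht1, ht2⟩ := Finset.mem_filter.1 ht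
      obtain ⟨x, hx, hx'⟩ := mem_iUnion₂.1 (hT ht2)
      exact Finset.mem_biUnion.2 ⟨x, hx, Finset.mem_filter.2 ⟨ht1, hx'⟩⟩
    refine (Finset.card_le_card h1).trans (Finset.card_biUnion_le.trans ?_)
    refine Finset.sum_le_sum fun x hx => card_le_of_window _ _ fun s hs t ht hst => ?_
    by_contra hc
    apply hN x (hTK x hx) _ (Finset.mem_filter.1 hs).2 (t - s) (by omega)
    rw [← iterate_add_apply, Nat.sub_add_cancel hst]
    exact (Finset.mem_filter.1 ht).2
  -- labels
  let S : ℕ ⊕ X ⊕ X → Set X := Sum.elim O (Sum.elim (fun p => Metric.ball p r) V)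
  let A : Finset (ℕ ⊕ X ⊕ X) := (Finset.range n).disjSum (P.disjSum T)
  have hlab : ∀ x, ∃ l : ℕ ⊕ X ⊕ X, x ∈ K → l ∈ A ∧ x ∈ S l ∧ (x ∈ Uo → ∃ i, l = .inl i) ∧
      (x ∉ Uo → x ∈ Ub → ∃ p, l = .inr (.inl p)) := by
    intro x
    by_cases h1 : x ∈ Uo
    · obtain ⟨i, hi⟩ := mem_iUnion.1 h1
      refine ⟨.inl (i % n), fun _ => ⟨?_, ?_, fun _ => ⟨_, rfl⟩, fun h => (h h1).elim⟩⟩
      · simp [A, Nat.mod_lt i hC.pos]
      · simp only [S, Sum.elim_inl]; rwa [per_mod hC.per]
    by_cases h2 : x ∈ Ub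
    · obtain ⟨p, hp, hxp⟩ := mem_iUnion₂.1 h2
      refine ⟨.inr (.inl p), fun _ => ⟨?_, hxp, fun h => (h1 h).elim, fun _ _ => ⟨_, rfl⟩⟩⟩
      simpa [A] using hp
    by_cases h3 : x ∈ K
    · obtain ⟨z, hz, hxz⟩ := mem_iUnion₂.1 (hT ⟨h3, fun h => h.elim h1 h2⟩)
      refine ⟨.inr (.inr z), fun _ => ⟨?_, hxz, fun h => (h1 h).elim, fun _ h => (h2 h).elim⟩⟩
      simpa [A] using hz
    · exact ⟨.inl 0, fun h => (h3 h).elim⟩
  choose lab hlab using hlab
  let σ : ℕ ⊕ X ⊕ X → ℕ ⊕ X ⊕ X :=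
    Sum.elim (fun i => .inl ((i + 1) % n)) (Sum.elim (fun p => .inr (.inl (f p))) fun z => .inr (.inr z))
  have hbreak : ∀ x ∈ K, lab (f x) ≠ σ (lab x) → x ∈ K' ∨ f x ∈ K' ∨ (x ∉ Uo ∧ f x ∈ Uo) := by
    intro x hx hne
    obtain ⟨a1, a2, a3, a4⟩ := hlab x hx
    obtain ⟨b1, b2, b3, b4⟩ := hlab (f x) (hKf hx)
    by_cases h1 : x ∈ Uo
    · exfalso
      obtain ⟨i, hi⟩ := a3 h1
      obtain ⟨j, hj⟩ := b3 (iUnion_mapsTo hO h1)
      rw [hi] at a2 hne
      rw [hj] at b1 b2 hne
      have hjn : j < n := by simpa [A] using b1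
      have := hC.modeq (hO i a2) b2
      apply hne
      simp only [σ, Sum.elim_inl]
      rw [this, Nat.mod_eq_of_lt hjn]
    by_cases h2 : f x ∈ Uo
    · exact Or.inr (Or.inr ⟨h1, h2⟩)
    by_cases h3 : x ∈ Ub
    · by_cases h4 : f x ∈ Ub
      · exfalso
        obtain ⟨p, hp⟩ := a4 h1 h3
        obtain ⟨q, hq⟩ := b4 h2 h4
        rw [hp] at a1 a2 hne
        rw [hq] at b1 b2 hne
        have hpP : p ∈ P := by simpa [A] using a1
        have hqP : q ∈ P := by simpa [A] using b1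
        refine hr p hpP q hqP (fun hc => hne ?_) x a2 b2
        simp [σ, hc]
      · exact Or.inr (Or.inl ⟨hKf hx, fun h => h.elim h2 h4⟩)
    · exact Or.inl ⟨hx, fun h => h.elim h1 h3⟩
  have hM : ∀ y ∈ K, ∀ m, ((Finset.range m).filter
      (fun t => lab (f^[t + 1] y) ≠ σ (lab (f^[t] y)))).card ≤ 2 * (∑ x ∈ T, N x) + 1 := by
    intro y hy m
    have h1 : (Finset.range m).filter (fun t => lab (f^[t + 1] y) ≠ σ (lab (f^[t] y))) ⊆
        ((Finset.range m).filter (fun t => f^[t] y ∈ K') ∪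
          (Finset.range m).filter (fun t => f^[t] (f y) ∈ K')) ∪
          (Finset.range m).filter (fun t => f^[t] y ∉ Uo ∧ f^[t + 1] y ∈ Uo) := by
      intro t ht
      obtain ⟨ht1, ht2⟩ := Finset.mem_filter.1 ht
      rw [iterate_succ_apply'] at ht2
      simp only [Finset.mem_union, Finset.mem_filter, ht1, true_and]
      rcases hbreak _ (hKf.iterate t hy) ht2 with h | h | h
      · exact Or.inl (Or.inl h)
      · left; right; rwa [← iterate_succ_apply, iterate_succ_apply']
      · right; rwa [iterate_succ_apply']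
    have h2 : ((Finset.range m).filter (fun t => f^[t] y ∉ Uo ∧ f^[t + 1] y ∈ Uo)).card ≤ 1 := by
      refine card_le_of_window _ _ fun s hs t ht hst => ?_
      by_contra hc
      apply (Finset.mem_filter.1 ht).2.1
      have := (iUnion_mapsTo hO).iterate (t - (s + 1)) (Finset.mem_filter.1 hs).2.2
      rwa [← iterate_add_apply, Nat.sub_add_cancel (by omega)] at this
    have h3 := hE y m
    have h4 := hE (f y) m
    have h5 := Finset.card_le_card h1
    have h6 := Finset.card_union_le ((Finset.range m).filter (fun t => f^[t] y ∈ K') ∪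
          (Finset.range m).filter (fun t => f^[t] (f y) ∈ K'))
          ((Finset.range m).filter (fun t => f^[t] y ∉ Uo ∧ f^[t + 1] y ∈ Uo))
    have h7 := Finset.card_union_le ((Finset.range m).filter (fun t => f^[t] y ∈ K'))
          ((Finset.range m).filter (fun t => f^[t] (f y) ∈ K'))
    omega
  have hU : ∀ x ∈ K, ∀ y ∈ K, lab x = lab y → (x, y) ∈ {p : X × X | dist p.1 p.2 < ε} := by
    intro x hx y hy hxy
    obtain ⟨a1, a2, -, -⟩ := hlab x hx
    obtain ⟨-, b2, -, -⟩ := hlab y hy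
    rw [← hxy] at b2
    change dist x y < ε
    rcases hl : lab x with i | p | z
    · rw [hl] at a2 b2; exact hOd i x a2 y b2
    · rw [hl] at a2 b2
      have h1 : dist x p < r := a2
      have h2 : dist y p < r := b2
      have := dist_triangle_right x y p
      linarith
    · rw [hl] at a1 a2 b2
      have hz : z ∈ T := by simpa [A] using a1
      have h1 : dist x z < ε / 2 := hVb z (hTK z hz) a2
      have h2 : dist y z < ε / 2 := hVb z (hTK z hz) b2
      have := dist_triangle_right x y z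
      linarith
  refine expGrowthSup_poly (C := A.card * (2 * (∑ x ∈ T, N x) + 1 + 1)) (L := A.card)
    (M := 2 * (∑ x ∈ T, N x) + 1) fun m => ?_
  have := cover_of_labels hKf A lab σ _ (fun x hx => (hlab x hx).1) hU hM m
  exact (ENat.toENNReal_mono this).trans (le_of_eq (ENat.toENNReal_coe _))

/-- Many separated orbits give positive entropy. -/
theorem entropy_pos {X : Type*} [MetricSpace X] {f : X → X} {K : Set X} {n : ℕ} (hn : 0 < n)
    {ε : ℝ} (hε : 0 < ε)
    (h : ∀ k : ℕ, ∃ y : (Fin k → Bool) → X, (∀ w, y w ∈ K) ∧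
      ∀ w w' (i : Fin k), w i ≠ w' i → ε ≤ dist (f^[i * n] (y w)) (f^[i * n] (y w'))) :
    0 < coverEntropy f K := by
  classical
  let U : SetRel X X := {p : X × X | dist p.1 p.2 < ε / 2}
  have hU : U ∈ uniformity X := Metric.dist_mem_uniformity (by linarith)
  refine lt_of_lt_of_le ?_ (netEntropyEntourage_le_coverEntropy (T := f) (F := K) hU)
  have hc : (0 : ℝ) < Real.log 2 / n := div_pos (Real.log_pos (by norm_num)) (by exact_mod_cast hn)
  refine lt_of_lt_of_le (by exact_mod_cast hc : (0 : EReal) < ((Real.log 2 / n : ℝ) : EReal)) ?_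
  apply Frequently.le_expGrowthSup
  rw [frequently_atTop]
  intro k
  refine ⟨k * n, Nat.le_mul_of_pos_right k hn, ?_⟩
  obtain ⟨y, hyK, hy⟩ := h k
  have hsep : ∀ w w', w ≠ w' → ∃ i : Fin k, ε ≤ dist (f^[i * n] (y w)) (f^[i * n] (y w')) := by
    intro w w' hww
    obtain ⟨i, hi⟩ := Function.ne_iff.1 hww
    exact ⟨i, hy w w' i hi⟩
  have hinj : Injective y := by
    intro w w' hww
    by_contra hc
    obtain ⟨i, hi⟩ := hsep w w' hc
    rw [hww, dist_self] at hi
    linarith
  have hnet : IsDynNetIn f K U (k * n) (Finset.univ.image y : Finset X) := by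
    constructor
    · intro z hz
      obtain ⟨w, -, rfl⟩ := Finset.mem_image.1 (Finset.mem_coe.1 hz)
      exact hyK w
    · intro z hz z' hz' hzz
      obtain ⟨w, -, rfl⟩ := Finset.mem_image.1 (Finset.mem_coe.1 hz)
      obtain ⟨w', -, rfl⟩ := Finset.mem_image.1 (Finset.mem_coe.1 hz')
      obtain ⟨i, hi⟩ := hsep w w' fun hc => hzz (by rw [hc])
      refine Set.disjoint_left.2 fun u hu hu' => ?_
      have hik : (i : ℕ) * n < k * n := Nat.mul_lt_mul_of_pos_right i.2 hn
      have h1 : dist (f^[i * n] (y w)) (f^[i * n] u) < ε / 2 := mem_ball_dynEntourage.1 hu _ hik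
      have h2 : dist (f^[i * n] (y w')) (f^[i * n] u) < ε / 2 := mem_ball_dynEntourage.1 hu' _ hik
      have := dist_triangle_right (f^[i * n] (y w)) (f^[i * n] (y w')) (f^[i * n] u)
      linarith
  have h1 := hnet.card_le_netMaxcard
  rw [Finset.card_image_of_injective _ hinj] at h1
  simp only [Finset.card_univ, Fintype.card_fun, Fintype.card_bool, Fintype.card_fin] at h1
  refine le_trans (le_of_eq ?_) (ENat.toENNReal_mono h1)
  have h2 : ((Real.log 2 / n : ℝ) : EReal) * ((k * n : ℕ) : EReal) =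
      ((Real.log (2 ^ k) : ℝ) : EReal) := by
    rw [← EReal.coe_natCast, ← EReal.coe_mul, Real.log_pow]
    congr 1
    have : (n : ℝ) ≠ 0 := by exact_mod_cast hn.ne'
    push_cast; field_simp
  rw [h2, EReal.exp_coe, Real.exp_log (by positivity)]
  simp [ENNReal.ofReal_pow]

end Pool.Agent.Lib.MP_3fe454_an
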