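import Mathlib.Topology.Algebra.Module.FiniteDimension
import Mathlib.Analysis.Normed.Field.Lemmas
import Mathlib.Analysis.Normed.Module.FiniteDimension
import Pool.Agent.Lib.MP_3fe454_an.Simple
import Mathlib.Analysis.Calculus.FDeriv.Prod
import Mathlib.Analysis.Calculus.ContDiff.Operations
import Mathlib.Analysis.Calculus.TangentCone.Real
import Mathlib.LinearAlgebra.Basis.Fin
import Pool.Agent.Lib.MP_3fe454_an.Defs
import Pool.Agent.Lib.MP_3fe454_an.Entropy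

-- part Pool.Agent.Lib.MP_3fe454_an.Block
section

/-! Linear cocycles of Henon type and their renormalization. -/

namespace Pool.Agent.Lib.MP_3fe454_an

/-- One linear step. -/
noncomputable def Bm (q : ℝ) : (ℝ × ℝ) ≃L[ℝ] (ℝ × ℝ) :=
  LinearEquiv.toContinuousLinearEquiv
    { toFun := fun v => (q * v.1 - v.2 / 50, v.1 / 2)
      invFun := fun v => (2 * v.2, 50 * (2 * q * v.2 - v.1))
      map_add' := fun v w => by ext <;> simp <;> ring
      map_smul' := fun c v => by ext <;> simp <;> ring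
      left_inv := fun v => by ext <;> simp <;> ring
      right_inv := fun v => by ext <;> simp; ring }

lemma Bm_apply (q : ℝ) (v : ℝ × ℝ) : Bm q v = (q * v.1 - v.2 / 50, v.1 / 2) := rfl

/-- Products of linear steps. -/
noncomputable def Mm (p : ℕ → ℝ) : ℕ → ((ℝ × ℝ) ≃L[ℝ] (ℝ × ℝ))
  | 0 => ContinuousLinearEquiv.refl ℝ _
  | i + 1 => (Mm p i).trans (Bm (p i))

lemma Mm_zero (p : ℕ → ℝ) (v : ℝ × ℝ) : Mm p 0 v = v := rfl

lemma Mm_succ (p : ℕ → ℝ) (i : ℕ) (v : ℝ × ℝ) : Mm p (i + 1) v = Bm (p i) (Mm p i v) := rfl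

lemma Mm_add (p : ℕ → ℝ) (i j : ℕ) (v : ℝ × ℝ) :
    Mm p (i + j) v = Mm (fun k => p (k + i)) j (Mm p i v) := by
  induction j with
  | zero => rfl
  | succ j ih => rw [← add_assoc, Mm_succ, Mm_succ, ih, add_comm j i]

lemma Mm_congr {p p' : ℕ → ℝ} {i : ℕ} (h : ∀ k < i, p k = p' k) (v : ℝ × ℝ) :
    Mm p i v = Mm p' i v := by
  induction i with
  | zero => rfl
  | succ i ih => rw [Mm_succ, Mm_succ, ih fun k hk => h k (by omega), h i (by omega)]

lemma Mm_det (p : ℕ → ℝ) (i : ℕ) :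
    (Mm p i (1, 0)).1 * (Mm p i (0, 1)).2 - (Mm p i (0, 1)).1 * (Mm p i (1, 0)).2
      = (1 / 100) ^ i := by
  induction i with
  | zero => simp [Mm_zero]
  | succ i ih => simp only [Mm_succ, Bm_apply, pow_succ, ← ih]; ring

lemma cle_apply (A : (ℝ × ℝ) ≃L[ℝ] (ℝ × ℝ)) (x y : ℝ) :
    A (x, y) = (x * (A (1, 0)).1 + y * (A (0, 1)).1, x * (A (1, 0)).2 + y * (A (0, 1)).2) := by
  have : ((x, y) : ℝ × ℝ) = x • ((1, 0) : ℝ × ℝ) + y • ((0, 1) : ℝ × ℝ) := by simp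
  rw [this, map_add, map_smul, map_smul]
  ext <;> simp

/-- The product of the steps `1, ..., n - 1`. -/
noncomputable def Wm (n : ℕ) (p : ℕ → ℝ) : (ℝ × ℝ) ≃L[ℝ] (ℝ × ℝ) :=
  Mm (fun k => p (k + 1)) (n - 1)

noncomputable def Dd (n : ℕ) (p : ℕ → ℝ) : ℝ := (Wm n p (1, 0)).1

noncomputable def Ee (n : ℕ) (p : ℕ → ℝ) : ℝ := (Wm n p (1, 0)).2

/-- The trace of the return map. -/
noncomputable def tau (n : ℕ) (p : ℕ → ℝ) : ℝ :=
  Dd n p * p 0 - Ee n p / 50 + (Wm n p (0, 1)).1 / 2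

/-- Henon coordinates. -/
noncomputable def Lf (n : ℕ) (p : ℕ → ℝ) (w : ℝ × ℝ) : ℝ × ℝ :=
  (w.1, (Ee n p * w.1 + (1 / 100) ^ (n - 1) * w.2 / 2) / Dd n p)

noncomputable def Lm (n : ℕ) (p : ℕ → ℝ) (hD : Dd n p ≠ 0) : (ℝ × ℝ) ≃L[ℝ] (ℝ × ℝ) :=
  LinearEquiv.toContinuousLinearEquiv
    { toFun := Lf n p
      invFun := fun v => (v.1, 2 * (Dd n p * v.2 - Ee n p * v.1) / (1 / 100) ^ (n - 1))
      map_add' := fun v w => by ext <;> simp [Lf]; ring
      map_smul' := fun c v => by ext <;> simp [Lf]; ring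
      left_inv := fun v => by ext <;> simp [Lf]; field_simp; ring
      right_inv := fun v => by ext <;> simp [Lf]; field_simp; ring }

lemma Lm_apply (n : ℕ) (p : ℕ → ℝ) (hD : Dd n p ≠ 0) (w : ℝ × ℝ) : Lm n p hD w = Lf n p w := rfl

lemma Wm_eq {n : ℕ} {p : ℕ → ℝ} (hD : Dd n p ≠ 0) (u v : ℝ) :
    Wm n p (u, v) = Lf n p (Dd n p * u + (Wm n p (0, 1)).1 * v, 2 * v) := by
  have h := Mm_det (fun k => p (k + 1)) (n - 1)
  change Dd n p * (Wm n p (0, 1)).2 - (Wm n p (0, 1)).1 * Ee n p = _ at h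
  rw [cle_apply]
  change (u * Dd n p + _, u * Ee n p + _) = _
  simp only [Lf, ← h]
  ext
  · simp only; ring
  · simp only; field_simp; ring

lemma block {n : ℕ} (hn : 0 < n) {p : ℕ → ℝ} (hD : Dd n p ≠ 0) (q s X Y : ℝ) :
    Wm n p (Bm q (Lf n p (X, Y)) + (s, 0)) =
      Lf n p ((tau n p + Dd n p * (q - p 0)) * X + Dd n p * s - (1 / 100) ^ n * Y, X) := by
  rw [Bm_apply, Prod.mk_add_mk, Wm_eq hD]
  congr 1
  have : ((1 : ℝ) / 100) ^ n = (1 / 100) ^ (n - 1) * (1 / 100) := by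
    rw [← pow_succ, Nat.sub_add_cancel hn]
  rw [this]
  ext
  · simp only [Lf, tau]; field_simp; ring
  · simp only [Lf]; ring

lemma Mm_period {n : ℕ} (hn : 0 < n) (p : ℕ → ℝ) (v : ℝ × ℝ) :
    Mm p n v = Wm n p (Bm (p 0) v) := by
  conv_lhs => rw [show n = 1 + (n - 1) by omega]
  rw [Mm_add]; rfl

lemma Wm_congr {n : ℕ} {p p' : ℕ → ℝ} (h : ∀ j, ¬ n ∣ j → p' j = p j) (v : ℝ × ℝ) :
    Wm n p' v = Wm n p v :=
  Mm_congr (fun k hk => h _ fun hd => by have := Nat.le_of_dvd (by omega) hd; omega) v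

lemma Dd_congr {n : ℕ} {p p' : ℕ → ℝ} (h : ∀ j, ¬ n ∣ j → p' j = p j) : Dd n p' = Dd n p := by
  unfold Dd; rw [Wm_congr h]

lemma tau_congr {n : ℕ} {p p' : ℕ → ℝ} (h : ∀ j, ¬ n ∣ j → p' j = p j) :
    tau n p' = tau n p + Dd n p * (p' 0 - p 0) := by
  unfold tau Ee; rw [Dd_congr h, Wm_congr h, Wm_congr h]; ring

lemma Wm_three {n : ℕ} (hn : 0 < n) {p p' : ℕ → ℝ} (hp : ∀ i, p (i + n) = p i)
    (h : ∀ j, ¬ n ∣ j → p' j = p j) (v : ℝ × ℝ) :
    Wm (3 * n) p' v = Wm n p (Bm (p' (2 * n)) (Wm n p (Bm (p' n) (Wm n p v)))) := by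
  have key : ∀ m u, Mm (fun k => p' (k + (m * n + 1))) (n - 1) u = Wm n p u := by
    intro m u
    refine Mm_congr (fun k hk => ?_) u
    rw [h, show k + (m * n + 1) = k + 1 + m * n by ring, per_mul hp]
    intro hd
    rw [show k + (m * n + 1) = k + 1 + m * n by ring] at hd
    have := Nat.le_of_dvd (by omega) ((Nat.dvd_add_left (Dvd.intro_left m rfl)).1 hd)
    omega
  unfold Wm
  rw [show 3 * n - 1 = (n - 1) + 1 + (n - 1) + 1 + (n - 1) by omega, Mm_add, Mm_succ, Mm_add,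
    Mm_succ]
  have k0 := key 0
  have k1 := key 1
  have k2 := key 2
  simp only [zero_mul, zero_add, one_mul] at k0 k1 k2
  rw [k0, show n - 1 + 1 + (n - 1) + 1 = 2 * n by omega, show n - 1 + 1 = n by omega]
  simp only [add_assoc]
  rw [k1, k2]
  rfl

lemma three_blocks {n : ℕ} (hn : 0 < n) {p p' : ℕ → ℝ} (hD : Dd n p ≠ 0)
    (hp : ∀ i, p (i + n) = p i) (h : ∀ j, ¬ n ∣ j → p' j = p j) {a b c : ℝ}
    (ha : a = tau n p + Dd n p * (p' 0 - p 0)) (hb : b = tau n p + Dd n p * (p' n - p 0))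
    (hc : c = tau n p + Dd n p * (p' (2 * n) - p 0)) :
    Dd (3 * n) p' = Dd n p * (b * c - (1 / 100) ^ n) ∧
      tau (3 * n) p' = a * b * c - (1 / 100) ^ n * (a + b + c) := by
  have bl : ∀ q X Y, Wm n p (Bm q (Lf n p (X, Y))) =
      Lf n p ((tau n p + Dd n p * (q - p 0)) * X - (1 / 100) ^ n * Y, X) := by
    intro q X Y
    have := block hn hD q 0 X Y
    rwa [Prod.mk_zero_zero, add_zero, mul_zero, add_zero] at this
  have e1 : Wm (3 * n) p' (1, 0) = Lf n p (Dd n p * (b * c - (1 / 100) ^ n), b * Dd n p) := by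
    rw [Wm_three hn hp h, Wm_eq hD 1 0, bl, bl, ← hb, ← hc]
    congr 1; ext <;> simp only <;> ring
  have e2 : (Wm (3 * n) p' (0, 1)).1 =
      (Wm n p (0, 1)).1 * (b * c - (1 / 100) ^ n) - 2 * (1 / 100) ^ n * c := by
    rw [Wm_three hn hp h, Wm_eq hD 0 1, bl, bl, ← hb, ← hc]
    simp only [Lf]; ring
  have e3 : Dd (3 * n) p' = Dd n p * (b * c - (1 / 100) ^ n) := by
    unfold Dd; rw [e1]; rfl
  refine ⟨e3, ?_⟩
  have e4 : Ee (3 * n) p' = Ee n p * (b * c - (1 / 100) ^ n) + (1 / 100) ^ (n - 1) * b / 2 := by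
    unfold Ee; rw [e1]; simp only [Lf, Ee]; field_simp
  have e5 : ((1 : ℝ) / 100) ^ n = (1 / 100) ^ (n - 1) * (1 / 100) := by
    rw [← pow_succ, Nat.sub_add_cancel hn]
  rw [tau, e2, e3, e4, ha, tau, e5]
  ring

end Pool.Agent.Lib.MP_3fe454_an
end

-- part Pool.Agent.Lib.MP_3fe454_an.Psi
section

/-! The localized perturbation and the basic data structures. -/

namespace Pool.Agent.Lib.MP_3fe454_an

open Set Filter Topology Function

/-- The plane map attached to a function `F`. -/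
noncomputable def hen (F : ℝ × ℝ → ℝ) (v : ℝ × ℝ) : ℝ × ℝ := (F v, v.1 / 2)

lemma hen_add (F ψ : ℝ × ℝ → ℝ) (v : ℝ × ℝ) : hen (F + ψ) v = hen F v + (ψ v, 0) := by
  simp [hen]

lemma hen_cont {F : ℝ × ℝ → ℝ} (h : Continuous F) : Continuous (hen F) := by
  unfold hen; fun_prop

/-- A periodic orbit near which the map is affine. -/
structure Site (F : ℝ × ℝ → ℝ) (n : ℕ) (o : ℕ → ℝ × ℝ) (p : ℕ → ℝ) (U : ℕ → Set (ℝ × ℝ)) :
    Prop where
  pos : 0 < n
  oper : ∀ i, o (i + n) = o i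
  pper : ∀ i, p (i + n) = p i
  uper : ∀ i, U (i + n) = U i
  inj : ∀ i j, i < n → j < n → o i = o j → i = j
  aff : ∀ i, ∀ᶠ v in 𝓝 (0 : ℝ × ℝ), hen F (o i + v) = o (i + 1) + Bm (p i) v
  nhd : ∀ i, U i ∈ 𝓝 (o i)

lemma Site.shift {F : ℝ × ℝ → ℝ} {n : ℕ} {o : ℕ → ℝ × ℝ} {p : ℕ → ℝ} {U : ℕ → Set (ℝ × ℝ)}
    (S : Site F n o p U) (s : ℕ) :
    Site F n (fun i => o (i + s)) (fun i => p (i + s)) (fun i => U (i + s)) where
  pos := S.pos
  oper := fun i => by rw [add_right_comm, S.oper]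
  pper := fun i => by rw [add_right_comm, S.pper]
  uper := fun i => by rw [add_right_comm, S.uper]
  inj := fun i j hi hj h => by
    have h1 := S.inj _ _ (Nat.mod_lt (i + s) S.pos) (Nat.mod_lt (j + s) S.pos)
      (by rw [per_mod S.oper, per_mod S.oper]; exact h)
    have h2 : i ≡ j [MOD n] := Nat.ModEq.add_right_cancel' s h1
    exact Nat.ModEq.eq_of_lt_of_lt h2 hi hj
  aff := fun i => by rw [add_right_comm]; exact S.aff (i + s)
  nhd := fun i => S.nhd (i + s)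

lemma Site.mono {F : ℝ × ℝ → ℝ} {n : ℕ} {o : ℕ → ℝ × ℝ} {p : ℕ → ℝ} {U V : ℕ → Set (ℝ × ℝ)}
    (S : Site F n o p U) (hV : ∀ i, V (i + n) = V i) (hV' : ∀ i, V i ∈ 𝓝 (o i)) :
    Site F n o p V := ⟨S.pos, S.oper, S.pper, hV, S.inj, S.aff, hV'⟩

lemma Site.radius {F : ℝ × ℝ → ℝ} {n : ℕ} {o : ℕ → ℝ × ℝ} {p : ℕ → ℝ} {U : ℕ → Set (ℝ × ℝ)}
    (S : Site F n o p U) : ∃ r > 0, ∀ j < n,
      (∀ v, ‖v‖ < r → hen F (o j + v) = o (j + 1) + Bm (p j) v ∧ o j + v ∈ U j) ∧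
      ∀ i < n, i ≠ j → 2 * r ≤ ‖o i - o j‖ := by
  have : ∀ᶠ r in 𝓝[>] (0 : ℝ), ∀ j ∈ Finset.range n,
      (∀ v, ‖v‖ < r → hen F (o j + v) = o (j + 1) + Bm (p j) v ∧ o j + v ∈ U j) ∧
      ∀ i ∈ Finset.range n, i ≠ j → 2 * r ≤ ‖o i - o j‖ := by
    rw [Finset.eventually_all]
    intro j hj
    refine Eventually.and ?_ ?_
    · have h1 : ∀ᶠ v in 𝓝 (0 : ℝ × ℝ), o j + v ∈ U j := by
        have : ContinuousAt (fun v => o j + v) 0 := by fun_prop
        exact this (by simpa using S.nhd j)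
      obtain ⟨ε, hε, h⟩ := Metric.eventually_nhds_iff.1 ((S.aff j).and h1)
      filter_upwards [nhdsWithin_le_nhds (Iio_mem_nhds hε)] with r hr v hv
      exact h (by simpa using hv.trans hr)
    · rw [Finset.eventually_all]
      intro i hi
      by_cases hij : i = j
      · exact Eventually.of_forall fun r h => (h hij).elim
      have : 0 < ‖o i - o j‖ / 2 := by
        have := norm_pos_iff.2 (sub_ne_zero.2 fun h =>
          hij (S.inj i j (Finset.mem_range.1 hi) (Finset.mem_range.1 hj) h))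
        linarith
      filter_upwards [nhdsWithin_le_nhds (Iio_mem_nhds this)] with r hr _
      have : r < ‖o i - o j‖ / 2 := hr
      linarith
  obtain ⟨r, hr, hr0⟩ := (this.and self_mem_nhdsWithin).exists
  exact ⟨r, hr0, fun j hj => ⟨(hr j (Finset.mem_range.2 hj)).1,
    fun i hi => (hr j (Finset.mem_range.2 hj)).2 i (Finset.mem_range.2 hi)⟩⟩

/-- The localized perturbation. -/
noncomputable def psi (Q χ : ℝ → ℝ) (c : ℝ × ℝ) (D ρ H : ℝ) (v : ℝ × ℝ) : ℝ :=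
  ρ / D * (Q ((v.1 - c.1) / ρ) * χ ((v.2 - c.2) / (ρ * H)))

lemma psi_deriv {Q Q' χ : ℝ → ℝ} {C : ℝ} (B : Bump χ C) (hQ : ∀ x, HasDerivAt Q (Q' x) x)
    (c : ℝ × ℝ) {D ρ H : ℝ} (hρ : ρ ≠ 0) (v : ℝ × ℝ) :
    fderiv ℝ (psi Q χ c D ρ H) v (1, 0) =
      Q' ((v.1 - c.1) / ρ) * χ ((v.2 - c.2) / (ρ * H)) / D ∧
    fderiv ℝ (psi Q χ c D ρ H) v (0, 1) =
      Q ((v.1 - c.1) / ρ) * deriv χ ((v.2 - c.2) / (ρ * H)) / (D * H) := by
  have a1 : HasFDerivAt (fun v : ℝ × ℝ => (v.1 - c.1) / ρ)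
      (ρ⁻¹ • ContinuousLinearMap.fst ℝ ℝ ℝ) v := by
    have := ((hasFDerivAt_fst (𝕜 := ℝ) (p := v)).sub_const c.1).const_smul ρ⁻¹
    refine this.congr_of_eventuallyEq (Eventually.of_forall fun y => ?_)
    simp [div_eq_inv_mul]
  have a2 : HasFDerivAt (fun v : ℝ × ℝ => (v.2 - c.2) / (ρ * H))
      ((ρ * H)⁻¹ • ContinuousLinearMap.snd ℝ ℝ ℝ) v := by
    have := ((hasFDerivAt_snd (𝕜 := ℝ) (p := v)).sub_const c.2).const_smul (ρ * H)⁻¹
    refine this.congr_of_eventuallyEq (Eventually.of_forall fun y => ?_)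
    simp only [div_eq_inv_mul, Pi.smul_apply, smul_eq_mul]
  have a3 := ((HasDerivAt.comp_hasFDerivAt v (hQ _) a1).mul
    (HasDerivAt.comp_hasFDerivAt v (B.hd _) a2)).const_mul (ρ / D)
  have a4 : psi Q χ c D ρ H = fun y => ρ / D * ((Q ∘ fun v : ℝ × ℝ => (v.1 - c.1) / ρ) *
      (χ ∘ fun v : ℝ × ℝ => (v.2 - c.2) / (ρ * H))) y := by
    ext y; simp [psi]
  rw [a4, a3.fderiv]
  constructor
  · simp; field_simp
  · simp; field_simp

lemma psi_contDiff {Q χ : ℝ → ℝ} (hχ : ContDiff ℝ 1 χ) (hQ : ContDiff ℝ 1 Q)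
    (c : ℝ × ℝ) (D ρ H : ℝ) : ContDiff ℝ 1 (psi Q χ c D ρ H) := by
  unfold psi
  fun_prop

lemma Prof.dev {τ Λ : ℝ} {P : ℝ → ℝ} (h : Prof τ Λ P) :
    ∃ (Q' : ℝ → ℝ) (Ψ R : ℝ), 0 ≤ Ψ ∧ ContDiff ℝ 1 (fun x => P x - τ * x) ∧
      (∀ x, HasDerivAt (fun x => P x - τ * x) (Q' x) x) ∧ (∀ x, |Q' x| ≤ Λ) ∧
      (∀ x, |P x - τ * x| ≤ Ψ) ∧ ∀ x, R ≤ |x| → P x - τ * x = 0 := by
  obtain ⟨P', hc, hd, hb⟩ := h.ex
  obtain ⟨R, hR⟩ := h.far
  have hd' : ∀ x, HasDerivAt (fun x => P x - τ * x) (P' x - τ) x := fun x =>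
    hd_congr ((hd x).sub ((hasDerivAt_id x).const_mul τ)) (fun y => by simp) (by simp)
  have hcd : ContDiff ℝ 1 (fun x => P x - τ * x) := by
    rw [contDiff_one_iff_deriv]
    refine ⟨fun x => (hd' x).differentiableAt, ?_⟩
    rw [funext fun x => (hd' x).deriv]
    fun_prop
  have hs : HasCompactSupport (fun x => P x - τ * x) := by
    refine HasCompactSupport.intro (isCompact_Icc (a := -R) (b := R)) fun x hx => ?_
    rw [hR x, sub_self]
    by_contra hc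
    exact hx (abs_le.1 (not_le.1 hc).le)
  obtain ⟨Ψ, hΨ⟩ := hcd.continuous.bounded_above_of_compact_support hs
  exact ⟨fun x => P' x - τ, Ψ, R, (norm_nonneg _).trans (hΨ 0), hcd, hd', hb, hΨ,
    fun x hx => by rw [hR x hx, sub_self]⟩

lemma Prof.cont {τ Λ : ℝ} {P : ℝ → ℝ} (h : Prof τ Λ P) : Continuous P := by
  obtain ⟨P', -, hd, -⟩ := h.ex
  exact continuous_iff_continuousAt.2 fun x => (hd x).continuousAt

end Pool.Agent.Lib.MP_3fe454_an
end

-- part Pool.Agent.Lib.MP_3fe454_an.Mod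
section

/-! Inserting a prescribed Henon map as the return map near an affine sink. -/

namespace Pool.Agent.Lib.MP_3fe454_an

open Set Filter Topology Function

structure Core (F ψ : ℝ × ℝ → ℝ) (n : ℕ) (o : ℕ → ℝ × ℝ) (p : ℕ → ℝ) (U : ℕ → Set (ℝ × ℝ))
    (P : ℝ → ℝ) (Λ η R0 : ℝ) (O O' : ℕ → Set (ℝ × ℝ)) (h : (ℝ × ℝ) ≃ₜ (ℝ × ℝ)) (ρ : ℝ)
    (A : Set (ℝ × ℝ)) : Prop where
  cd : ContDiff ℝ 1 ψ
  c0 : ∀ v, |ψ v| ≤ η
  cx : ∀ v, |fderiv ℝ ψ v (1, 0)| ≤ Λ / |Dd n p|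
  cy : ∀ v, |fderiv ℝ ψ v (0, 1)| ≤ η
  cyc : Cyc n O
  per' : ∀ i, O' (i + n) = O' i
  opn : ∀ i, IsOpen (O i)
  opn' : ∀ i, IsOpen (O' i)
  sub : ∀ i, closure (O' i) ⊆ O i
  subU : ∀ i, O i ⊆ U i
  supp : ∀ v, v ∉ O' 0 → ψ v = 0
  old : ∀ i, MapsTo (hen F) (O i) (O (i + 1))
  old' : ∀ i, MapsTo (hen F) (O' i) (O' (i + 1))
  new : ∀ i, MapsTo (hen (F + ψ)) (O i) (O (i + 1))
  new' : ∀ i, MapsTo (hen (F + ψ)) (O' i) (O' (i + 1))
  rho : 0 < ρ
  hx : ∀ w w', (h w).1 - (h w').1 = ρ * (w.1 - w'.1)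
  Ainv : MapsTo (hG ((1 / 100) ^ n) P) A A
  Abig : ∀ w, ‖w‖ ≤ R0 → w ∈ A
  inn : ∀ w ∈ A, h w ∈ O' 0
  conj : ∀ w ∈ A, (hen (F + ψ))^[n] (h w) = h (hG ((1 / 100) ^ n) P w)
  recs : ∀ x ∈ O 0, Rec (hen (F + ψ)) x → ∃ w ∈ A, x = h w ∧ Rec (hG ((1 / 100) ^ n) P) w
  aff0 : ∀ w ∈ A, ∀ π : ℝ, (∀ᶠ t in 𝓝 (0 : ℝ), P (w.1 + t) = P w.1 + π * t) →
    ∀ᶠ v in 𝓝 (0 : ℝ × ℝ), hen (F + ψ) (h w + v) =
      hen (F + ψ) (h w) + Bm (p 0 + (π - tau n p) / Dd n p) v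
  aff1 : ∀ i, ¬ n ∣ i → ∀ x ∈ O i, ∀ᶠ v in 𝓝 (0 : ℝ × ℝ),
    hen (F + ψ) (x + v) = hen (F + ψ) x + Bm (p i) v

lemma pow_small {n : ℕ} (hn : 0 < n) : (0 : ℝ) < (1 / 100) ^ n ∧ ((1 : ℝ) / 100) ^ n ≤ 1 / 100 := by
  refine ⟨by positivity, ?_⟩
  calc ((1 : ℝ) / 100) ^ n ≤ (1 / 100) ^ 1 := pow_le_pow_of_le_one (by norm_num) (by norm_num) hn
    _ = 1 / 100 := pow_one _

lemma exists_cle_bound (n : ℕ) (A : ℕ → (ℝ × ℝ) ≃L[ℝ] (ℝ × ℝ)) :
    ∃ K, 0 < K ∧ ∀ j < n, ∀ w, ‖A j w‖ ≤ K * ‖w‖ := by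
  refine ⟨1 + ∑ j ∈ Finset.range n, ‖(A j : (ℝ × ℝ) →L[ℝ] (ℝ × ℝ))‖, by positivity,
    fun j hj w => ?_⟩
  refine ((A j : (ℝ × ℝ) →L[ℝ] (ℝ × ℝ)).le_opNorm w).trans ?_
  apply mul_le_mul_of_nonneg_right _ (norm_nonneg _)
  have := Finset.single_le_sum (f := fun j => ‖(A j : (ℝ × ℝ) →L[ℝ] (ℝ × ℝ))‖)
    (fun j _ => norm_nonneg _) (Finset.mem_range.2 hj)
  linarith

lemma step_zero {n : ℕ} (hn : 0 < n) {p : ℕ → ℝ} (hD : Dd n p ≠ 0) (w : ℝ × ℝ) (q : ℝ) :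
    Bm (p 0) (Lf n p w) + (q / Dd n p, 0) =
      Mm p 1 (Lf n p (w.1, w.2 - q / (1 / 100) ^ n)) := by
  have e5 : ((1 : ℝ) / 100) ^ n = (1 / 100) ^ (n - 1) * (1 / 100) := by
    rw [← pow_succ, Nat.sub_add_cancel hn]
  have : ((1 : ℝ) / 100) ^ (n - 1) ≠ 0 := by positivity
  rw [Mm_succ, Mm_zero, Bm_apply, Bm_apply, e5]
  simp only [Lf]
  generalize ((1 : ℝ) / 100) ^ (n - 1) = δ at *
  ext
  · simp only [Prod.mk_add_mk]; field_simp; ring
  · simp

lemma step_full {n : ℕ} (hn : 0 < n) {p : ℕ → ℝ} (hD : Dd n p ≠ 0) (w : ℝ × ℝ) :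
    Mm p n (Lf n p w) = Lf n p (tau n p * w.1 - (1 / 100) ^ n * w.2, w.1) := by
  have := block hn hD (p 0) 0 w.1 w.2
  rw [Prod.mk_zero_zero, add_zero] at this
  rw [Mm_period hn, this]
  simp

theorem mod_core {χ : ℝ → ℝ} {C : ℝ} (B : Bump χ C) {F : ℝ × ℝ → ℝ} {n : ℕ} {o : ℕ → ℝ × ℝ}
    {p : ℕ → ℝ} {U : ℕ → Set (ℝ × ℝ)} (S : Site F n o p U) (hD : Dd n p ≠ 0)
    (hτ : |tau n p| ≤ 9 / 10) {P : ℝ → ℝ} {Λ : ℝ} (hP : Prof (tau n p) Λ P) {η : ℝ} (hη : 0 < η)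
    (R0 : ℝ) : ∃ ψ O O' h ρ A, Core F ψ n o p U P Λ η R0 O O' h ρ A := by
  obtain ⟨Q', Ψ, RQ, hΨ, hQc, hQd, hQ', hQ, hQz⟩ := hP.dev
  obtain ⟨hβ0, hβ1⟩ := pow_small S.pos
  have hn := S.pos
  set β : ℝ := (1 / 100) ^ n with hβ
  set τ := tau n p with hτ'
  set D := Dd n p with hD'
  set Q : ℝ → ℝ := fun x => P x - τ * x with hQdef
  have hDa : 0 < |D| := abs_pos.2 hD
  have hC := B.one_le
  let L := Lm n p hD
  have hL : ∀ w, L w = Lf n p w := fun w => rfl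
  obtain ⟨r, hr, hrad⟩ := S.radius
  obtain ⟨K, hK, hKb⟩ := exists_cle_bound n fun j => L.trans (Mm p j)
  obtain ⟨K', hK', hK'b⟩ := exists_cle_bound 1 fun _ => L.symm
  -- constants
  obtain ⟨RA, hRA0, hRA1, hRA2⟩ : ∃ RA : ℝ, 0 < RA ∧ R0 < RA ∧ 13 * Ψ < RA :=
    ⟨max R0 0 + 13 * Ψ + 1, by positivity, by linarith [le_max_left R0 0],
      by linarith [le_max_right R0 0]⟩
  obtain ⟨H, hH0, hH1, hH2⟩ : ∃ H : ℝ, 0 < H ∧ K * (2 * RA) < H ∧ Ψ * C / (|D| * η) ≤ H :=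
    ⟨K * (2 * RA) + Ψ * C / (|D| * η) + 1, by positivity,
      by have : 0 ≤ Ψ * C / (|D| * η) := by positivity
         linarith,
      by have : 0 ≤ K * (2 * RA) := by positivity
         linarith⟩
  obtain ⟨s, hs0, hs1, hs2, hs3⟩ : ∃ s : ℝ, 0 < s ∧ RA ≤ s ∧ 6 * Ψ / β ≤ s ∧
      K' * max RQ (2 * H) < s :=
    ⟨RA + 6 * Ψ / β + K' * max RQ (2 * H), by positivity,
      by have : 0 ≤ K' * max RQ (2 * H) := by positivity
         have : 0 ≤ 6 * Ψ / β := by positivity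
         linarith,
      by have : 0 ≤ K' * max RQ (2 * H) := by positivity
         linarith,
      by have : 0 ≤ 6 * Ψ / β := by positivity
         linarith⟩
  obtain ⟨ρ, hρ0, hρ1, hρ2⟩ : ∃ ρ : ℝ, 0 < ρ ∧ ρ * (K * (6 * s)) < r ∧ ρ * Ψ ≤ η * |D| := by
    refine ⟨min (r / (K * (6 * s) + 1)) (η * |D| / (Ψ + 1)), by positivity, ?_, ?_⟩
    · have h1 : min (r / (K * (6 * s) + 1)) (η * |D| / (Ψ + 1)) ≤ r / (K * (6 * s) + 1) :=
        min_le_left _ _
      rw [le_div_iff₀ (by positivity)] at h1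
      have : 0 < min (r / (K * (6 * s) + 1)) (η * |D| / (Ψ + 1)) := by positivity
      linarith
    · have h1 : min (r / (K * (6 * s) + 1)) (η * |D| / (Ψ + 1)) ≤ η * |D| / (Ψ + 1) :=
        min_le_right _ _
      rw [le_div_iff₀ (by positivity)] at h1
      have : 0 < min (r / (K * (6 * s) + 1)) (η * |D| / (Ψ + 1)) := by positivity
      linarith
  let ψ := psi Q χ (o 0) D ρ H
  -- charts
  let ch : ℕ → (ℝ × ℝ) ≃ₜ (ℝ × ℝ) := fun j =>
    ((L.trans (Mm p j)).toHomeomorph.trans (Homeomorph.smulOfNeZero ρ hρ0.ne')).trans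
      (Homeomorph.addLeft (o j))
  have hch : ∀ j w, ch j w = o j + ρ • Mm p j (Lf n p w) := fun j w => rfl
  let wt : ℕ → ℝ := fun i => if i = 0 then 1 else 13 / 12
  let T : ℝ → ℕ → Set (ℝ × ℝ) := fun a i => (ch (i % n)).symm ⁻¹' {w | nN w < a * wt (i % n)}
  have hT : ∀ a i v, v ∈ T a i ↔ ∃ w, nN w < a * wt (i % n) ∧ v = ch (i % n) w := by
    intro a i v
    refine ⟨fun hv => ⟨_, hv, by simp⟩, ?_⟩
    rintro ⟨w, hw, rfl⟩
    simpa [T] using hw
  have hwt : ∀ i, 1 ≤ wt i ∧ wt i ≤ 13 / 12 := fun i => by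
    simp only [wt]; split_ifs <;> norm_num
  have hsmall : ∀ j < n, ∀ w, nN w < 3 * s → ‖ρ • Mm p j (Lf n p w)‖ < r := by
    intro j hj w hw
    have h1 : ‖Mm p j (Lf n p w)‖ ≤ K * ‖w‖ := hKb j hj w
    have h2 := norm_le_nN w
    rw [norm_smul, Real.norm_eq_abs, abs_of_pos hρ0]
    calc ρ * ‖Mm p j (Lf n p w)‖ ≤ ρ * (K * (6 * s)) := by
          gcongr; exact h1.trans (by gcongr; linarith)
      _ < r := hρ1
  have haff : ∀ j < n, ∀ w, nN w < 3 * s → hen F (ch j w) = o (j + 1) + ρ • Mm p (j + 1) (Lf n p w) := by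
    intro j hj w hw
    rw [hch, ((hrad j hj).1 _ (hsmall j hj w hw)).1, map_smul, Mm_succ]
  have hball : ∀ j < n, ∀ w, nN w < 3 * s → ‖ch j w - o j‖ < r := by
    intro j hj w hw
    rw [hch, add_sub_cancel_left]; exact hsmall j hj w hw
  have hψ0 : ∀ w, ψ (ch 0 w) = ρ / D * (Q w.1 * χ ((Lf n p w).2 / H)) := by
    intro w
    simp only [ψ, psi, hch, Mm_zero, Prod.fst_add, Prod.snd_add, add_sub_cancel_left,
      Prod.smul_fst, Prod.smul_snd, smul_eq_mul]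
    congr 3
    · simp only [Lf]; field_simp
    · field_simp
  have hsupp : ∀ v, v ∉ T s 0 → ψ v = 0 := by
    intro v hv
    obtain ⟨w, rfl⟩ := (ch 0).surjective v
    have hw : s ≤ nN w := by
      by_contra hc
      exact hv ((hT s 0 _).2 ⟨w, by simpa [wt] using hc, by simp⟩)
    rw [hψ0]
    have h1 : ‖w‖ ≤ K' * ‖Lf n p w‖ := by
      have := hK'b 0 one_pos (L w)
      rwa [ContinuousLinearEquiv.symm_apply_apply] at this
    have h2 : max RQ (2 * H) < ‖Lf n p w‖ := by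
      refine lt_of_mul_lt_mul_left ?_ hK'.le
      linarith [nN_le_norm w]
    rw [Prod.norm_def, lt_max_iff] at h2
    rcases h2 with h2 | h2
    · have : Q w.1 = 0 := hQz _ ((le_max_left _ _).trans h2.le)
      rw [this]; simp
    · have h3 : 2 * H < |(Lf n p w).2| := (le_max_right _ _).trans_lt h2
      rw [B.zero _ (by rw [abs_div, abs_of_pos hH0, le_div_iff₀ hH0]; linarith)]; simp
  have hoff : ∀ j < n, j ≠ 0 → ∀ v, ‖v - o j‖ < r → ψ v = 0 := by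
    intro j hj hj0 v hv
    apply hsupp
    intro hv'
    obtain ⟨w, hw, rfl⟩ := (hT s 0 _).1 hv'
    simp only [Nat.zero_mod] at hw hv
    have h1 := hball 0 hn w (by have := (hwt 0).2; nlinarith)
    have h2 := (hrad j hj).2 0 hn hj0.symm
    have h3 : ‖o 0 - o j‖ ≤ ‖ch 0 w - o 0‖ + ‖ch 0 w - o j‖ := by
      have := norm_sub_le (ch 0 w - o j) (ch 0 w - o 0)
      rw [sub_sub_sub_cancel_left] at this
      linarith
    linarith
  -- the perturbation seen in the chart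
  let qq : ℝ × ℝ → ℝ := fun w => Q w.1 * χ ((Lf n p w).2 / H)
  have hqq : ∀ w, |qq w| ≤ Ψ := by
    intro w
    simp only [qq]
    rw [abs_mul, abs_of_nonneg (B.nn _)]
    calc _ ≤ Ψ * 1 := mul_le_mul (hQ _) (B.le _) (B.nn _) hΨ
      _ = Ψ := mul_one _
  have hfirst : ∀ t : ℝ, ∀ w, nN w < 3 * s → hen (F + t • ψ) (ch 0 w) =
      o 1 + ρ • Mm p 1 (Lf n p (w.1, w.2 - t * qq w / β)) := by
    intro t w hw
    rw [hen_add, haff 0 hn w hw, ← step_zero hn hD, Pi.smul_apply, hψ0, smul_add, add_assoc]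
    congr 2
    ext
    · simp only [qq, smul_eq_mul, Prod.smul_fst]; ring
    · simp
  have hshift : ∀ t : ℝ, |t| ≤ 1 → ∀ w : ℝ × ℝ,
      nN (w.1, w.2 - t * qq w / β) ≤ nN w + s / 12 := by
    intro t ht w
    have h1 : |t * qq w / β| ≤ s / 6 := by
      rw [abs_div, abs_mul, abs_of_pos hβ0, div_le_iff₀ hβ0]
      rw [div_le_iff₀ hβ0] at hs2
      have : |t| * |qq w| ≤ 1 * Ψ := mul_le_mul ht (hqq w) (abs_nonneg _) zero_le_one
      linarith
    refine max_le (by linarith [nN_fst w]) ?_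
    have := abs_sub w.2 (t * qq w / β)
    simp only
    linarith [nN_snd w]
  have hlater : ∀ t : ℝ, ∀ j < n, j ≠ 0 → ∀ w, nN w < 3 * s → hen (F + t • ψ) (ch j w) =
      o (j + 1) + ρ • Mm p (j + 1) (Lf n p w) := by
    intro t j hj hj0 w hw
    rw [hen_add, haff j hj w hw, Pi.smul_apply, hoff j hj hj0 _ (hball j hj w hw)]
    simp
  have hland : ∀ a, 0 < a → ∀ i, ∀ w, nN w < a * (13 / 12) →
      o (i % n + 1) + ρ • Mm p (i % n + 1) (Lf n p w) ∈ T a (i + 1) := by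
    intro a ha i w hw
    have h1 := Nat.mod_lt i hn
    rcases (Nat.succ_le_of_lt h1).eq_or_lt with h | h
    · have h2 : (i + 1) % n = 0 := by
        rw [Nat.add_mod, Nat.add_mod_mod, show i % n + 1 = n from h, Nat.mod_self]
      refine (hT a _ _).2 ⟨(τ * w.1 - β * w.2, w.1), ?_, ?_⟩
      · have := nN_step (w := w) (u := τ * w.1) hβ0 hβ1 le_rfl (by
          rw [abs_mul, add_zero]; gcongr)
        rw [h2]; simp only [wt, if_true]; linarith
      · rw [h2, hch, show i % n + 1 = n from h, step_full hn hD, Mm_zero]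
        have := S.oper 0
        rw [zero_add] at this
        rw [this]
    · have h2 : (i + 1) % n = i % n + 1 := by
        rw [Nat.add_mod, Nat.add_mod_mod, Nat.mod_eq_of_lt h]
      refine (hT a _ _).2 ⟨w, ?_, by rw [h2, hch]⟩
      rw [h2]; simpa [wt] using hw
  have hmaps : ∀ t : ℝ, |t| ≤ 1 → ∀ a, s ≤ a → a ≤ 2 * s → ∀ i,
      MapsTo (hen (F + t • ψ)) (T a i) (T a (i + 1)) := by
    intro t ht a ha ha' i v hv
    obtain ⟨w, hw, rfl⟩ := (hT a i v).1 hv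
    have h1 := Nat.mod_lt i hn
    have hw3 : nN w < 3 * s := by have := (hwt (i % n)).2; nlinarith
    by_cases h0 : i % n = 0
    · have := hland a (by linarith) i (w.1, w.2 - t * qq w / β) (by
        have := hshift t ht w
        rw [h0] at hw; simp only [wt, if_true] at hw; linarith)
      rw [h0] at this ⊢
      rw [hfirst t w hw3]; exact this
    · rw [hlater t _ h1 h0 w hw3]
      exact hland a (by linarith) i w (by simpa [wt, h0] using hw)
  have hF0 : F + (0 : ℝ) • ψ = F := by simp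
  have hF1 : F + (1 : ℝ) • ψ = F + ψ := by simp
  -- the return map
  let G : ℝ × ℝ → ℝ × ℝ := fun w => (τ * w.1 + qq w - β * w.2, w.1)
  have hret : ∀ w, nN w < 2 * s → (hen (F + ψ))^[n] (ch 0 w) = ch 0 (G w) := by
    intro w hw
    have h1 : ∀ j < n, (hen (F + ψ))^[j + 1] (ch 0 w) =
        o (j + 1) + ρ • Mm p (j + 1) (Lf n p (w.1, w.2 - 1 * qq w / β)) := by
      intro j hj
      induction j with
      | zero => rw [zero_add, iterate_one, ← hF1, hfirst 1 w (by linarith)]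
      | succ j ih =>
        rw [iterate_succ_apply', ih (by omega), ← hch, ← hF1, hlater 1 _ hj (by omega)]
        have := hshift 1 (by simp) w
        linarith
    have h2 := h1 (n - 1) (by omega)
    rw [Nat.sub_add_cancel hn, step_full hn hD] at h2
    have h3 := S.oper 0
    rw [zero_add] at h3
    rw [h2, h3, hch, Mm_zero]
    congr 4
    simp only
    field_simp; ring
  have hGn : ∀ w, nN (G w) ≤ 23 / 25 * nN w + Ψ := by
    intro w
    refine nN_step hβ0 hβ1 hΨ ((abs_add_le _ _).trans ?_)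
    rw [abs_mul]
    have := hqq w
    gcongr
  let A : Set (ℝ × ℝ) := {w | nN w < RA}
  have hAH : ∀ w ∈ A, |(Lf n p w).2| < H := by
    intro w hw
    have h1 : ‖Lf n p w‖ ≤ K * ‖w‖ := hKb 0 hn w
    have h2 := norm_le_nN w
    have h3 : nN w < RA := hw
    have h4 : |(Lf n p w).2| ≤ ‖Lf n p w‖ := norm_snd_le (Lf n p w)
    have h5 : K * ‖w‖ ≤ K * (2 * RA) := by gcongr; linarith
    linarith
  have hGA : ∀ w ∈ A, G w = hG β P w := by
    intro w hw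
    simp only [G, qq, hG, Q]
    rw [B.one _ (by rw [abs_div, abs_of_pos hH0, div_le_one hH0]; exact (hAH w hw).le)]
    congr 1; ring
  have hAinv : MapsTo (hG β P) A A := by
    intro w hw
    have h3 : nN w < RA := hw
    rw [← hGA w hw]
    have := hGn w
    change nN (G w) < RA
    linarith
  have hTo : ∀ a i, IsOpen (T a i) := fun a i =>
    (isOpen_lt nN_cont continuous_const).preimage (ch _).symm.continuous
  have hTball : ∀ i, ∀ v ∈ T (2 * s) i, ‖v - o (i % n)‖ < r := by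
    intro i v hv
    obtain ⟨w, hw, rfl⟩ := (hT _ i v).1 hv
    exact hball _ (Nat.mod_lt i hn) w (by have := (hwt (i % n)).2; nlinarith)
  have hcyc : Cyc n (T (2 * s)) := by
    refine ⟨hn, fun i => by simp [T], fun i j hi hj hij => Set.disjoint_left.2 fun v h1 h2 => ?_⟩
    have a1 := hTball i v h1
    have a2 := hTball j v h2
    rw [Nat.mod_eq_of_lt hi] at a1
    rw [Nat.mod_eq_of_lt hj] at a2
    have a3 := (hrad j hj).2 i hi hij
    have := norm_sub_le (v - o j) (v - o i)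
    rw [sub_sub_sub_cancel_left] at this
    linarith
  have hnew : ∀ i, MapsTo (hen (F + ψ)) (T (2 * s) i) (T (2 * s) (i + 1)) := fun i =>
    hF1 ▸ hmaps 1 (by simp) _ (by linarith) le_rfl i
  refine ⟨ψ, T (2 * s), T s, ch 0, ρ, A, psi_contDiff B.cd hQc _ _ _ _, fun v => ?_, fun v => ?_,
    fun v => ?_, hcyc, fun i => by simp [T], hTo _, hTo _, fun i => ?_, fun i v hv => ?_, hsupp,
    fun i => hF0 ▸ hmaps 0 (by simp) _ (by linarith) le_rfl i,
    fun i => hF0 ▸ hmaps 0 (by simp) _ le_rfl (by linarith) i, hnew,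
    fun i => hF1 ▸ hmaps 1 (by simp) _ le_rfl (by linarith) i, hρ0, fun w w' => ?_, hAinv,
    fun w hw => lt_of_le_of_lt ((nN_le_norm w).trans hw) hRA1, fun w hw => ?_, fun w hw => ?_,
    fun x hx Hx => ?_, fun w hw π hπ => ?_, fun i hi x hx => ?_⟩
  · obtain ⟨w, rfl⟩ := (ch 0).surjective v
    rw [hψ0, abs_mul, abs_div, abs_of_pos hρ0, div_mul_eq_mul_div, div_le_iff₀ hDa]
    have := hqq w
    exact le_trans (by gcongr) hρ2
  · rw [(psi_deriv B hQd _ hρ0.ne' v).1, abs_div, abs_mul, abs_of_nonneg (B.nn _)]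
    gcongr
    calc _ ≤ Λ * 1 := mul_le_mul (hQ' _) (B.le _) (B.nn _) ((abs_nonneg _).trans (hQ' 0))
      _ = Λ := mul_one _
  · rw [(psi_deriv B hQd _ hρ0.ne' v).2, abs_div, abs_mul, abs_mul, abs_of_pos hH0,
      div_le_iff₀ (by positivity)]
    rw [div_le_iff₀ (by positivity)] at hH2
    calc _ ≤ Ψ * C := mul_le_mul (hQ _) (B.bd _) (abs_nonneg _) hΨ
      _ ≤ _ := by linarith
  · have : IsClosed ((ch (i % n)).symm ⁻¹' {w | nN w ≤ s * wt (i % n)}) :=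
      (isClosed_le nN_cont continuous_const).preimage (ch _).symm.continuous
    refine (closure_minimal (fun v (hv : nN _ < _) => hv.le) this).trans fun v hv => ?_
    have h1 : nN ((ch (i % n)).symm v) ≤ s * wt (i % n) := hv
    change nN _ < _
    have := (hwt (i % n)).1
    nlinarith
  · have := ((hrad _ (Nat.mod_lt i hn)).1 _ (hTball i v hv)).2
    rwa [add_sub_cancel, per_mod S.uper] at this
  · simp [hch, Mm_zero, Lf]; ring
  · have h3 : nN w < RA := hw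
    exact (hT s 0 _).2 ⟨w, by simp only [wt, Nat.zero_mod, if_true]; linarith, by simp⟩
  · have h3 : nN w < RA := hw
    rw [hret w (by linarith), hGA w hw]
  · obtain ⟨w, hw, rfl⟩ := (hT _ 0 x).1 hx
    simp only [wt, Nat.zero_mod, if_true, mul_one] at hw Hx hx
    have H1 := Hx.cyc hcyc hnew ((hTo _ 0).mem_nhds hx)
    have H2 : Rec G w := H1.transfer (ch 0) (A := {w | nN w < 2 * s})
      ((isOpen_lt nN_cont continuous_const).mem_nhds hw)
      (fun u hu => by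
        have h1 : nN u < 2 * s := hu
        have := hGn u
        change nN (G u) < 2 * s
        linarith) hret
    have h1 : nN w ≤ 25 / 2 * Ψ := H2.lyap (A := univ) univ_mem (mapsTo_univ _ _)
      nN_cont.continuousAt (θ := 23 / 25) (by norm_num) (by norm_num) fun y _ => by
        linarith [hGn y]
    have hwA : w ∈ A := by change nN w < RA; linarith
    exact ⟨w, hwA, by simp, Rec.transfer (Homeomorph.refl _)
      ((isOpen_lt nN_cont continuous_const).mem_nhds hwA) hAinv hGA H2⟩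
  · have h3 : nN w < RA := hw
    have h4 := hsmall 0 hn w (by linarith)
    have e1 : ∀ᶠ v in 𝓝 (0 : ℝ × ℝ), ‖ρ • Mm p 0 (Lf n p w) + v‖ < r := by
      have : ContinuousAt (fun v : ℝ × ℝ => ‖ρ • Mm p 0 (Lf n p w) + v‖) 0 := by fun_prop
      exact this.eventually (gt_mem_nhds (by simpa using h4))
    have e2 : ∀ᶠ v in 𝓝 (0 : ℝ × ℝ), P (w.1 + v.1 / ρ) = P w.1 + π * (v.1 / ρ) := by
      have : Tendsto (fun v : ℝ × ℝ => v.1 / ρ) (𝓝 0) (𝓝 0) := by
        have : ContinuousAt (fun v : ℝ × ℝ => v.1 / ρ) 0 := by fun_prop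
        simpa using this.tendsto
      exact this.eventually hπ
    have e3 : ∀ᶠ v in 𝓝 (0 : ℝ × ℝ), |(Lf n p w).2 + v.2 / ρ| < H := by
      have : ContinuousAt (fun v : ℝ × ℝ => |(Lf n p w).2 + v.2 / ρ|) 0 := by fun_prop
      exact this.eventually (gt_mem_nhds (by simpa using hAH w hw))
    filter_upwards [e1, e2, e3] with v a1 a2 a3
    have b1 : ψ (ch 0 w + v) = ψ (ch 0 w) + (π - τ) / D * v.1 := by
      rw [hψ0, B.one _ (by rw [abs_div, abs_of_pos hH0, div_le_one hH0]; exact (hAH w hw).le)]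
      simp only [ψ, psi, hch, Mm_zero]
      have c1 : ((o 0 + ρ • Lf n p w + v).1 - (o 0).1) / ρ = w.1 + v.1 / ρ := by
        simp [Lf]; field_simp; ring
      have c2 : ((o 0 + ρ • Lf n p w + v).2 - (o 0).2) / (ρ * H) =
          ((Lf n p w).2 + v.2 / ρ) / H := by
        simp; field_simp; ring
      rw [c1, c2, B.one _ (by rw [abs_div, abs_of_pos hH0, div_le_one hH0]; exact a3.le)]
      simp only [Q]
      rw [a2]; field_simp; ring
    rw [hen_add, hen_add, b1, hch, add_assoc, ((hrad 0 hn).1 _ a1).1, ((hrad 0 hn).1 _ h4).1,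
      map_add, Bm_apply (p 0) v, Bm_apply (p 0 + _) v]
    ext
    · simp; ring
    · simp; ring
  · have h1 := Nat.mod_lt i hn
    have h0 : i % n ≠ 0 := fun h => hi (Nat.dvd_of_mod_eq_zero h)
    have h2 := hTball i x hx
    have e1 : ∀ᶠ v in 𝓝 (0 : ℝ × ℝ), ‖x - o (i % n) + v‖ < r := by
      have : ContinuousAt (fun v : ℝ × ℝ => ‖x - o (i % n) + v‖) 0 := by fun_prop
      exact this.eventually (gt_mem_nhds (by simpa using h2))
    filter_upwards [e1] with v a1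
    have b1 := ((hrad _ h1).1 _ a1).1
    have b2 := ((hrad _ h1).1 _ h2).1
    rw [← add_assoc, add_sub_cancel, map_add, per_mod S.pper] at b1
    rw [add_sub_cancel, per_mod S.pper] at b2
    rw [hen_add, hen_add, b1, b2, hoff _ h1 h0 x h2,
      hoff _ h1 h0 (x + v) (by rwa [add_sub_right_comm])]
    simp [add_assoc, Prod.mk_zero_zero]

end Pool.Agent.Lib.MP_3fe454_an
end

-- part Pool.Agent.Lib.MP_3fe454_an.Res
section

/-! The result of one modification: new site, tameness, nesting. -/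

namespace Pool.Agent.Lib.MP_3fe454_an

open Set Filter Topology Function

structure Glob (F : ℝ × ℝ → ℝ) (a : ℝ) : Prop where
  cd : ContDiff ℝ 1 F
  c0 : ∀ v, |F v - (-v.1 / 10 - v.2 / 50)| ≤ a
  cy : ∀ v, |fderiv ℝ F v (0, 1) + 1 / 50| ≤ a

structure Close (F F' : ℝ × ℝ → ℝ) (η L : ℝ) : Prop where
  c0 : ∀ v, |F' v - F v| ≤ η
  cy : ∀ v, |fderiv ℝ F' v (0, 1) - fderiv ℝ F v (0, 1)| ≤ η
  cx : ∀ v, |fderiv ℝ F' v (1, 0) - fderiv ℝ F v (1, 0)| ≤ L

lemma Close.trans {F F' F'' : ℝ × ℝ → ℝ} {η L η' L' : ℝ} (h : Close F F' η L)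
    (h' : Close F' F'' η' L') : Close F F'' (η + η') (L + L') :=
  ⟨fun v => (abs_sub_le _ (F' v) _).trans (by linarith [h.c0 v, h'.c0 v]),
    fun v => (abs_sub_le _ (fderiv ℝ F' v (0, 1)) _).trans (by linarith [h.cy v, h'.cy v]),
    fun v => (abs_sub_le _ (fderiv ℝ F' v (1, 0)) _).trans (by linarith [h.cx v, h'.cx v])⟩

lemma Close.mono {F F' : ℝ × ℝ → ℝ} {η L η' L' : ℝ} (h : Close F F' η L) (h1 : η ≤ η')
    (h2 : L ≤ L') : Close F F' η' L' :=
  ⟨fun v => (h.c0 v).trans h1, fun v => (h.cy v).trans h1, fun v => (h.cx v).trans h2⟩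

lemma Glob.close {F F' : ℝ × ℝ → ℝ} {a η L : ℝ} (h : Glob F a) (hc : ContDiff ℝ 1 F')
    (h' : Close F F' η L) : Glob F' (a + η) := by
  refine ⟨hc, fun v => (abs_sub_le _ (F v) _).trans (by linarith [h.c0 v, h'.c0 v]), fun v => ?_⟩
  have a1 := abs_le.1 (h.cy v)
  have a2 := abs_le.1 (h'.cy v)
  rw [abs_le]; constructor <;> linarith

lemma Glob.mono {F : ℝ × ℝ → ℝ} {a a' : ℝ} (h : Glob F a) (h1 : a ≤ a') : Glob F a' :=
  ⟨h.cd, fun v => (h.c0 v).trans h1, fun v => (h.cy v).trans h1⟩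

lemma Glob.inj {F : ℝ × ℝ → ℝ} {a : ℝ} (h : Glob F a) (ha : a ≤ 1 / 100) : Injective (hen F) := by
  rintro ⟨x, y⟩ ⟨x', y'⟩ e
  simp only [hen, Prod.mk.injEq] at e
  obtain ⟨e1, e2⟩ := e
  obtain rfl : x = x' := by linarith
  have hd : ∀ t, HasDerivAt (fun t => F (x, t)) (fderiv ℝ F (x, t) (0, 1)) t := fun t =>
    ((h.cd.differentiable one_ne_zero (x, t)).hasFDerivAt).comp_hasDerivAt t
      ((hasDerivAt_const t x).prodMk (hasDerivAt_id t))
  have : StrictAnti fun t => F (x, t) := strictAnti_of_deriv_neg fun t => by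
    rw [(hd t).deriv]
    linarith [(abs_le.1 (h.cy (x, t))).2]
  rw [this.injective e1]

/-- `F'` agrees with `F` off the cyclic family `V`, which it permutes cyclically. -/
structure Sub (F F' : ℝ × ℝ → ℝ) (V : ℕ → Set (ℝ × ℝ)) : Prop where
  off : ∀ x, x ∉ ⋃ i, V i → hen F' x = hen F x
  maps : ∀ i, MapsTo (hen F') (V i) (V (i + 1))

lemma Sub.trans {F F' F'' : ℝ × ℝ → ℝ} {V V' : ℕ → Set (ℝ × ℝ)} {n s : ℕ} (hC : Cyc n V)
    (h : Sub F F' V) (h' : Sub F' F'' V') (hs : ∀ j, V' j ⊆ V (j + s)) : Sub F F'' V := by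
  constructor
  · intro x hx
    rw [h'.off x fun hc => ?_, h.off x hx]
    obtain ⟨j, hj⟩ := mem_iUnion.1 hc
    exact hx (mem_iUnion.2 ⟨_, hs j hj⟩)
  · intro i x hx
    by_cases hc : x ∈ ⋃ j, V' j
    · obtain ⟨j, hj⟩ := mem_iUnion.1 hc
      have h1 := hC.modeq hx (hs j hj)
      have h2 := hs _ (h'.maps j hj)
      rwa [hC.eq_of_modeq (j := j + 1 + s)]
      rw [add_right_comm]
      exact Nat.ModEq.add_right 1 h1
    · rw [h'.off x hc]; exact h.maps i hx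

lemma persist_cyc {F F' : ℝ × ℝ → ℝ} {V : ℕ → Set (ℝ × ℝ)} {N m : ℕ} (hC : Cyc N V)
    (hold : ∀ i, MapsTo (hen F) (V i) (V (i + 1))) (h : Sub F F' V) {c : ℝ × ℝ}
    (hc : (hen F)^[m] c = c) (hm : 0 < m) (hN : ¬ N ∣ m) : (hen F')^[m] c = c := by
  refine persist (iUnion_mapsTo hold) h.off hc hm fun hcT => ?_
  obtain ⟨i, hi⟩ := mem_iUnion.1 hcT
  exact hN (hC.dvd hold hi (hc.symm ▸ hi))

lemma closure_iUnion_subset {n : ℕ} (hn : 0 < n) {O O' : ℕ → Set (ℝ × ℝ)}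
    (hper : ∀ i, O' (i + n) = O' i) (hsub : ∀ i, closure (O' i) ⊆ O i) {x : ℝ × ℝ}
    (hx : x ∈ closure (⋃ i, O' i)) : ∃ i < n, x ∈ O i := by
  have : (⋃ i, O' i) = ⋃ i ∈ Finset.range n, O' i := by
    ext y
    simp only [mem_iUnion, Finset.mem_range, exists_prop]
    exact ⟨fun ⟨i, hi⟩ => ⟨i % n, Nat.mod_lt i hn, by rwa [per_mod hper]⟩,
      fun ⟨i, _, hi⟩ => ⟨i, hi⟩⟩
  rw [this, Finset.closure_biUnion] at hx
  obtain ⟨i, hi, hx⟩ := mem_iUnion₂.1 hx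
  exact ⟨i, Finset.mem_range.1 hi, hsub i hx⟩

/-- The geometric output of a modification. -/
structure Res (F F' : ℝ × ℝ → ℝ) (n : ℕ) (U O O' : ℕ → Set (ℝ × ℝ)) (η L : ℝ) : Prop where
  cd : ContDiff ℝ 1 F'
  close : Close F F' η L
  cyc : Cyc n O
  cyc' : Cyc n O'
  opn : ∀ i, IsOpen (O i)
  opn' : ∀ i, IsOpen (O' i)
  sub : ∀ i, closure (O' i) ⊆ O i
  subU : ∀ i, O i ⊆ U i
  old : ∀ i, MapsTo (hen F) (O i) (O (i + 1))
  old' : ∀ i, MapsTo (hen F) (O' i) (O' (i + 1))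
  sb : Sub F F' O
  sb' : Sub F F' O'

lemma Res.sub' {F F' : ℝ × ℝ → ℝ} {n : ℕ} {U O O' : ℕ → Set (ℝ × ℝ)} {η L : ℝ}
    (h : Res F F' n U O O' η L) (i : ℕ) : O' i ⊆ O i := subset_closure.trans (h.sub i)

/-- Composition with a later modification nested inside. -/
lemma Res.trans {F F' F'' : ℝ × ℝ → ℝ} {n n' s : ℕ} {U O O' U2 O2 O2' : ℕ → Set (ℝ × ℝ)}
    {η L η' L' : ℝ} (h : Res F F' n U O O' η L) (h' : Res F' F'' n' U2 O2 O2' η' L')
    (hs : ∀ j, U2 j ⊆ O' (j + s)) : Res F F'' n U O O' (η + η') (L + L') :=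
  ⟨h'.cd, h.close.trans h'.close, h.cyc, h.cyc', h.opn, h.opn', h.sub, h.subU, h.old, h.old',
    h.sb.trans h.cyc h'.sb fun j => ((h'.subU j).trans (hs j)).trans (h.sub' _),
    h.sb'.trans h.cyc' h'.sb fun j => (h'.subU j).trans (hs j)⟩

section

variable {F ψ : ℝ × ℝ → ℝ} {n : ℕ} {o : ℕ → ℝ × ℝ} {p : ℕ → ℝ} {U : ℕ → Set (ℝ × ℝ)}
  {P : ℝ → ℝ} {Λ η R0 : ℝ} {O O' : ℕ → Set (ℝ × ℝ)} {h : (ℝ × ℝ) ≃ₜ (ℝ × ℝ)} {ρ : ℝ}
  {A : Set (ℝ × ℝ)}

lemma Core.res (K : Core F ψ n o p U P Λ η R0 O O' h ρ A) (hF : ContDiff ℝ 1 F) :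
    Res F (F + ψ) n U O O' η (Λ / |Dd n p|) := by
  have hd : ∀ v, fderiv ℝ (F + ψ) v = fderiv ℝ F v + fderiv ℝ ψ v := fun v =>
    fderiv_add (hF.differentiable one_ne_zero v) (K.cd.differentiable one_ne_zero v)
  have hs : ∀ i, O' i ⊆ O i := fun i => subset_closure.trans (K.sub i)
  refine ⟨hF.add K.cd, ⟨fun v => by simpa using K.c0 v, fun v => by simpa [hd] using K.cy v,
    fun v => by simpa [hd] using K.cx v⟩, K.cyc, ⟨K.cyc.pos, K.per', fun i j hi hj hij =>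
      (K.cyc.disj i j hi hj hij).mono (hs i) (hs j)⟩, K.opn, K.opn', K.sub, K.subU, K.old, K.old',
    ⟨fun x hx => ?_, K.new⟩, ⟨fun x hx => ?_, K.new'⟩⟩
  · rw [hen_add, K.supp x fun hc => hx (mem_iUnion.2 ⟨0, hs 0 hc⟩)]; simp
  · rw [hen_add, K.supp x fun hc => hx (mem_iUnion.2 ⟨0, hc⟩)]; simp

lemma Core.conj_iter (K : Core F ψ n o p U P Λ η R0 O O' h ρ A) {w : ℝ × ℝ} (hw : w ∈ A)
    (k : ℕ) : (hen (F + ψ))^[k * n] (h w) = h ((hG ((1 / 100) ^ n) P)^[k] w) := by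
  induction k with
  | zero => simp
  | succ k ih =>
    rw [Nat.succ_mul, add_comm (k * n), iterate_add_apply, ih, K.conj _ (K.Ainv.iterate k hw),
      iterate_succ_apply']

lemma Core.tame (K : Core F ψ n o p U P Λ η R0 O O' h ρ A) (hF : ContDiff ℝ 1 F)
    (hinj : Injective (hen (F + ψ))) (hT : Tame (hen F) n) {q : ℕ} (hq : 0 < q)
    (hG' : Tame (hG ((1 / 100) ^ n) P) q) : Tame (hen (F + ψ)) (q * n) := by
  have R := K.res hF
  have hn := K.cyc.pos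
  have hc : Continuous (hen (F + ψ)) := hen_cont R.cd.continuous
  have key : ∀ x, Rec (hen (F + ψ)) x → (hen (F + ψ))^[q * n] x = x ∧ (Rec (hen F) x ∨
      ∃ j ≤ q * n, ∃ w, Rec (hG ((1 / 100) ^ n) P) w ∧ x = (hen (F + ψ))^[j] (h w)) := by
    intro x H
    by_cases hx : x ∈ closure (⋃ i, O' i)
    · obtain ⟨i, hi, hxi⟩ := closure_iUnion_subset hn K.per' K.sub hx
      have h1 := cyc_iter K.new hxi (n - i)
      rw [show i + (n - i) = 0 + n by omega, K.cyc.per] at h1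
      obtain ⟨w, hwA, e, Hw⟩ := K.recs _ h1 (H.iterate hc _)
      have h2 := K.conj_iter hwA q
      rw [hG'.2 w Hw, ← e, ← iterate_add_apply, add_comm (q * n), iterate_add_apply] at h2
      have h3 := hinj.iterate _ h2
      have h4 : n ≤ q * n := Nat.le_mul_of_pos_left n hq
      refine ⟨h3, Or.inr ⟨q * n - (n - i), by omega, w, Hw, ?_⟩⟩
      rw [← e, ← iterate_add_apply, show q * n - (n - i) + (n - i) = q * n by omega, h3]
    · have H' := H.modify (iUnion_mapsTo K.new') R.sb'.off hx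
      refine ⟨persist (iUnion_mapsTo K.old') R.sb'.off ?_ (by positivity)
        (fun hc => hx (subset_closure hc)), Or.inl H'⟩
      rw [mul_comm, iterate_mul]
      exact iterate_fixed (hT.2 x H') q
  refine ⟨(hT.1.union (Set.Finite.image2 (fun j w => (hen (F + ψ))^[j] (h w))
    (Set.finite_le_nat (q * n)) hG'.1)).subset fun x H => ?_, fun x H => (key x H).1⟩
  rcases (key x H).2 with h1 | ⟨j, hj, w, Hw, e⟩
  · exact Or.inl h1
  · exact Or.inr ⟨j, hj, w, Hw, e.symm⟩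

lemma Core.site (K : Core F ψ n o p U P Λ η R0 O O' h ρ A) (S : Site F n o p U)
    (hinj : Injective (hen (F + ψ))) {q : ℕ} (hq : 0 < q) {w : ℝ × ℝ} (hw : w ∈ A)
    (hper : (hG ((1 / 100) ^ n) P)^[q] w = w)
    (hne : ∀ k, 0 < k → k < q → (hG ((1 / 100) ^ n) P)^[k] w ≠ w) (π : ℕ → ℝ)
    (hπ : ∀ k < q, ∀ᶠ t in 𝓝 (0 : ℝ), P (((hG ((1 / 100) ^ n) P)^[k] w).1 + t) =
      P ((hG ((1 / 100) ^ n) P)^[k] w).1 + π k * t) :
    ∃ o' p', Site (F + ψ) (q * n) o' p' O' ∧ (∀ j, ¬ n ∣ j → p' j = p j) ∧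
      ∀ k < q, p' (k * n) = p 0 + (π k - tau n p) / Dd n p := by
  classical
  have hn := K.cyc.pos
  have hs : ∀ i, O' i ⊆ O i := fun i => subset_closure.trans (K.sub i)
  have hin : ∀ j, (hen (F + ψ))^[j] (h w) ∈ O' j := fun j => by
    simpa using cyc_iter K.new' (K.inn w hw) j
  refine ⟨fun j => (hen (F + ψ))^[j] (h w),
    fun j => if n ∣ j then p 0 + (π (j / n % q) - tau n p) / Dd n p else p j,
    ⟨by positivity, fun i => ?_, fun i => ?_, fun i => per_mul K.per' i q, ?_, fun i => ?_,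
      fun i => (K.opn' i).mem_nhds (hin i)⟩, fun j hj => if_neg hj, fun k hk => ?_⟩
  · rw [iterate_add_apply, K.conj_iter hw, hper]
  · have h1 : n ∣ i + q * n ↔ n ∣ i := Nat.dvd_add_left (Dvd.intro_left q rfl)
    rw [per_mul S.pper, Nat.add_mul_div_right _ _ hn, Nat.add_mod_right]
    simp only [h1]
  · have key : ∀ i j, i < j → j < q * n →
        (hen (F + ψ))^[i] (h w) ≠ (hen (F + ψ))^[j] (h w) := by
      intro i j hij hj e
      rw [show j = i + (j - i) by omega, iterate_add_apply] at e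
      have e1 := hinj.iterate _ e
      obtain ⟨k, hk⟩ := K.cyc.dvd K.new (hs 0 (K.inn w hw)) (e1 ▸ hs 0 (K.inn w hw))
      rw [hk, mul_comm, K.conj_iter hw] at e1
      refine hne k ?_ ?_ (h.injective e1).symm
      · rcases Nat.eq_zero_or_pos k with rfl | h0
        · omega
        · exact h0
      · by_contra hc
        have : n * q ≤ n * k := Nat.mul_le_mul_left n (by omega)
        rw [mul_comm n q] at this
        omega
    intro i j hi hj e
    rcases lt_trichotomy i j with h1 | h1 | h1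
    · exact (key i j h1 hj e).elim
    · exact h1
    · exact (key j i h1 hi e.symm).elim
  · rw [iterate_succ_apply']
    split_ifs with hd
    · obtain ⟨k, rfl⟩ := hd
      rw [Nat.mul_div_cancel_left k hn, mul_comm, K.conj_iter hw]
      have e : (hG ((1 / 100) ^ n) P)^[k] w = (hG ((1 / 100) ^ n) P)^[k % q] w := by
        conv_lhs => rw [← Nat.mod_add_div k q, iterate_add_apply, iterate_mul, iterate_fixed hper]
      rw [e]
      exact K.aff0 _ (K.Ainv.iterate _ hw) _ (hπ _ (Nat.mod_lt k hq))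
    · exact K.aff1 i hd _ (hs i (hin i))
  · simp only
    rw [if_pos (Dvd.intro_left k rfl), Nat.mul_div_cancel k hn, Nat.mod_eq_of_lt hk]

end

end Pool.Agent.Lib.MP_3fe454_an
end

-- part Pool.Agent.Lib.MP_3fe454_an.Disc
section

/-! The maps `hen F` are dissipative diffeomorphisms of the disc. -/

namespace Pool.Agent.Lib.MP_3fe454_an

open Set Filter Topology Function

lemma ball_sub_disc : Metric.ball (0 : ℝ × ℝ) (1 / 2) ⊆ disc := by
  rintro ⟨x, y⟩ h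
  simp only [Metric.mem_ball, dist_zero_right, Prod.norm_def, Real.norm_eq_abs, max_lt_iff] at h
  obtain ⟨a, b⟩ := abs_lt.1 h.1
  obtain ⟨c, d⟩ := abs_lt.1 h.2
  simp only [disc, mem_ofPred_eq]
  nlinarith

lemma disc_compact : IsCompact disc := by
  refine (isCompact_closedBall (0 : ℝ × ℝ) 1).of_isClosed_subset
    (isClosed_le (by fun_prop) continuous_const) ?_
  rintro ⟨x, y⟩ h
  simp only [disc, mem_ofPred_eq] at h
  simp only [Metric.mem_closedBall, dist_zero_right, Prod.norm_def, Real.norm_eq_abs, max_le_iff]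
  constructor <;> rw [abs_le] <;> constructor <;> nlinarith

lemma disc_unique : UniqueDiffOn ℝ disc := by
  apply uniqueDiffOn_convex
  · rintro ⟨x, y⟩ h ⟨x', y'⟩ h' a b ha hb hab
    simp only [disc, mem_ofPred_eq] at h h' ⊢
    obtain rfl : b = 1 - a := by linarith
    simp only [Prod.smul_mk, Prod.mk_add_mk, smul_eq_mul]
    nlinarith [mul_nonneg ha hb, sq_nonneg (x - x'), sq_nonneg (y - y'),
      mul_nonneg (mul_nonneg ha hb) (sq_nonneg (x - x')),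
      mul_nonneg (mul_nonneg ha hb) (sq_nonneg (y - y'))]
  · exact ⟨0, mem_interior.2 ⟨_, ball_sub_disc, Metric.isOpen_ball, by simp⟩⟩

lemma hen_fderiv {F : ℝ × ℝ → ℝ} (h : ContDiff ℝ 1 F) {x : ℝ × ℝ} (hx : x ∈ disc) :
    fderivWithin ℝ (hen F) disc x =
      (fderiv ℝ F x).prod ((1 / 2 : ℝ) • ContinuousLinearMap.fst ℝ ℝ ℝ) := by
  have h1 : HasFDerivAt (fun v : ℝ × ℝ => v.1 / 2)
      ((1 / 2 : ℝ) • ContinuousLinearMap.fst ℝ ℝ ℝ) x := by
    have := (hasFDerivAt_fst (𝕜 := ℝ) (p := x)).const_smul (1 / 2 : ℝ)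
    refine this.congr_of_eventuallyEq (Eventually.of_forall fun y => ?_)
    simp [div_eq_inv_mul]
  exact ((h.differentiable one_ne_zero x).hasFDerivAt.prodMk h1).hasFDerivWithinAt.fderivWithin
    (disc_unique x hx)

lemma det_prod (A : (ℝ × ℝ) →L[ℝ] (ℝ × ℝ)) :
    A.det = (A (1, 0)).1 * (A (0, 1)).2 - (A (0, 1)).1 * (A (1, 0)).2 := by
  rw [ContinuousLinearMap.det, ← LinearMap.det_toMatrix (Module.Basis.finTwoProd ℝ),
    Matrix.det_fin_two]
  simp [LinearMap.toMatrix_apply, Module.Basis.coe_finTwoProd_repr]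

lemma hen_det {F : ℝ × ℝ → ℝ} (h : ContDiff ℝ 1 F) {x : ℝ × ℝ} (hx : x ∈ disc) :
    (fderivWithin ℝ (hen F) disc x).det = -fderiv ℝ F x (0, 1) / 2 := by
  rw [hen_fderiv h hx, det_prod]; simp; ring

lemma Glob.det_pos {F : ℝ × ℝ → ℝ} (h : Glob F (1 / 100)) {x : ℝ × ℝ} (hx : x ∈ disc) :
    0 < (fderivWithin ℝ (hen F) disc x).det := by
  rw [hen_det h.cd hx]
  linarith [(abs_le.1 (h.cy x)).2]

lemma Glob.dissipative {F : ℝ × ℝ → ℝ} (h : Glob F (1 / 100)) : Dissipative (hen F) := by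
  refine ⟨?_, (h.inj le_rfl).injOn, fun x hx => (h.det_pos hx).ne', fun x hx => ?_, ?_⟩
  · have := h.cd
    exact ContDiff.contDiffOn (by unfold hen; fun_prop)
  · rw [abs_of_pos (h.det_pos hx), hen_det h.cd hx]
    linarith [(abs_le.1 (h.cy x)).1]
  · rintro ⟨x, y⟩ hv
    refine mem_interior.2 ⟨{p | p.1 ^ 2 + p.2 ^ 2 < 1}, fun p (hp : p.1 ^ 2 + p.2 ^ 2 < 1) => hp.le,
      isOpen_lt (by fun_prop) continuous_const, ?_⟩
    simp only [disc, mem_ofPred_eq] at hv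
    obtain ⟨a, b⟩ := abs_le.1 (h.c0 (x, y))
    simp only [hen, mem_ofPred_eq] at a b ⊢
    have hx : |x| ≤ 1 := by rw [abs_le]; constructor <;> nlinarith
    have hy : |y| ≤ 1 := by rw [abs_le]; constructor <;> nlinarith
    obtain ⟨c, d⟩ := abs_le.1 hx
    obtain ⟨e, f⟩ := abs_le.1 hy
    have g1 : F (x, y) ≤ 1 / 2 := by linarith
    have g2 : -(1 / 2) ≤ F (x, y) := by linarith
    nlinarith

lemma Glob.maps {F : ℝ × ℝ → ℝ} (h : Glob F (1 / 100)) : MapsTo (hen F) disc disc :=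
  fun _ hx => interior_subset (h.dissipative.into hx)

lemma norm_form_le (A : (ℝ × ℝ) →L[ℝ] ℝ) : ‖A‖ ≤ |A (1, 0)| + |A (0, 1)| := by
  refine A.opNorm_le_bound (by positivity) fun v => ?_
  have : v = v.1 • ((1, 0) : ℝ × ℝ) + v.2 • ((0, 1) : ℝ × ℝ) := by simp
  have h1 : |v.1| ≤ ‖v‖ := norm_fst_le v
  have h2 : |v.2| ≤ ‖v‖ := norm_snd_le v
  calc ‖A v‖ = |v.1 * A (1, 0) + v.2 * A (0, 1)| := by
        conv_lhs => rw [this, map_add, map_smul, map_smul]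
        rfl
    _ ≤ |v.1| * |A (1, 0)| + |v.2| * |A (0, 1)| := by
        rw [← abs_mul, ← abs_mul]; exact abs_add_le _ _
    _ ≤ ‖v‖ * |A (1, 0)| + ‖v‖ * |A (0, 1)| := by gcongr
    _ = _ := by ring

lemma Close.c1 {F G : ℝ × ℝ → ℝ} {η L : ℝ} (h : Close F G η L) (hF : ContDiff ℝ 1 F)
    (hG : ContDiff ℝ 1 G) : C1Close (η + L) (hen F) (hen G) := by
  intro x hx
  have a0 := h.c0 x
  have a1 := h.cx x
  have a2 := h.cy x
  have hL : 0 ≤ L := (abs_nonneg _).trans a1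
  constructor
  · rw [Prod.norm_def]
    simp only [hen, Prod.fst_sub, Prod.snd_sub, sub_self, norm_zero, Real.norm_eq_abs]
    rw [abs_sub_comm] at a0
    exact max_le (by linarith) (by linarith [abs_nonneg (F x - G x)])
  · rw [hen_fderiv hF hx, hen_fderiv hG hx]
    have h1 := norm_form_le (fderiv ℝ F x - fderiv ℝ G x)
    simp only [sub_apply] at h1
    rw [abs_sub_comm] at a1 a2
    refine ContinuousLinearMap.opNorm_le_bound _ (by linarith [abs_nonneg (G x - F x)]) fun v => ?_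
    have h2 := (fderiv ℝ F x - fderiv ℝ G x).le_opNorm v
    rw [Prod.norm_def]
    simp only [sub_apply, ContinuousLinearMap.prod_apply, Prod.fst_sub,
      Prod.snd_sub, sub_self, norm_zero] at h2 ⊢
    refine max_le (h2.trans ?_) (mul_nonneg (by linarith [abs_nonneg (G x - F x)]) (norm_nonneg _))
    exact mul_le_mul_of_nonneg_right (by linarith) (norm_nonneg _)

end Pool.Agent.Lib.MP_3fe454_an
end

-- part Pool.Agent.Lib.MP_3fe454_an.Step
section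

/-! The three elementary modifications and one full tripling step. -/

namespace Pool.Agent.Lib.MP_3fe454_an

open Set Filter Topology Function

variable {χ : ℝ → ℝ} {C : ℝ} {F : ℝ × ℝ → ℝ} {n : ℕ} {o : ℕ → ℝ × ℝ} {p : ℕ → ℝ}
  {U : ℕ → Set (ℝ × ℝ)} {a η : ℝ}

theorem move_step (B : Bump χ C) (S : Site F n o p U) (hD : Dd n p ≠ 0)
    (hτ : |tau n p| ≤ 9 / 10) {τ' : ℝ} (hτ' : |τ'| ≤ 9 / 10) (hG : Glob F a) (hη : 0 < η)
    (ha : a + η ≤ 1 / 100) (hT : Tame (hen F) n) :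
    ∃ F' o' p' O O', Res F F' n U O O' η (3 * C * |τ' - tau n p| / |Dd n p|) ∧
      Tame (hen F') n ∧ Site F' n o' p' O' ∧ (∀ j, ¬ n ∣ j → p' j = p j) ∧
      p' 0 = p 0 + (τ' - tau n p) / Dd n p := by
  obtain ⟨P, hP, hP1, hP2⟩ := exists_move B hτ hτ'
  obtain ⟨ψ, O, O', h, ρ, A, K⟩ := mod_core B S hD hτ hP hη 0
  obtain ⟨hβ0, hβ1⟩ := pow_small S.pos
  have R := K.res hG.cd
  have hinj := (hG.close R.cd R.close).inj ha
  have hT' := K.tame hG.cd hinj hT one_pos (move_tame hβ0 hβ1 hP1)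
  have hP0 : P 0 = 0 := by simpa using hP2 0 (by simp)
  obtain ⟨o', p', S', h1, h2⟩ := K.site S hinj one_pos (w := 0) (K.Abig 0 (by simp))
    (by simp [Pool.Agent.Lib.MP_3fe454_an.hG, hP0]) (fun k h0 h1 => by omega) (fun _ => τ')
    (fun k hk => by
      obtain rfl : k = 0 := by omega
      filter_upwards [Metric.ball_mem_nhds (0 : ℝ) one_pos] with t ht
      have : |t| < 1 := by simpa using ht
      simp [hP0, hP2 t this.le])
  rw [one_mul] at hT' S'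
  exact ⟨_, o', p', O, O', R, hT', S', h1, by simpa using h2 0 one_pos⟩

theorem tripod_step (B : Bump χ C) (S : Site F n o p U) (hD : Dd n p ≠ 0) {σ : ℝ} (h0 : 0 < σ)
    (h1 : σ ≤ 1 / 10) (hσ : σ ^ 2 = (1 / 100) ^ n) (hτ : tau n p = -σ) (hG : Glob F a)
    (hη : 0 < η) (ha : a + η ≤ 1 / 100) (hT : Tame (hen F) n) :
    ∃ F' o' p' O O', Res F F' n U O O' η (3 / σ ^ 2 / |Dd n p|) ∧
      Tame (hen F') (3 * n) ∧ Site F' (3 * n) o' p' O' ∧ (∀ j, ¬ n ∣ j → p' j = p j) ∧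
      p' 0 = p 0 + (-(4 / 5) / σ ^ 2 + σ) / Dd n p ∧
      p' n = p 0 + (-(5 / 4) * σ ^ 4 + σ) / Dd n p ∧ p' (2 * n) = p 0 ∧
      ∃ c ∈ O 0, (hen F')^[n] c = c := by
  obtain ⟨g, g', s, b, R, L⟩ := exists_leg (ω := σ ^ 3) (by positivity) (sq_small h0 h1).2
  obtain ⟨P, P', R', T⟩ := exists_triP h0 h1 L
  have hP : Prof (tau n p) (3 / σ ^ 2) P := by
    rw [hτ]
    exact ⟨⟨P', T.hc, T.hd, fun x => by simpa using T.bound x⟩, R', T.far⟩
  have hτ' : |tau n p| ≤ 9 / 10 := by rw [hτ, abs_neg, abs_of_pos h0]; linarith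
  obtain ⟨ψ, O, O', h, ρ, A, K⟩ := mod_core B S hD hτ' hP hη ‖((b, 0) : ℝ × ℝ)‖
  have R := K.res hG.cd
  have hinj := (hG.close R.cd R.close).inj ha
  have hT' := K.tame hG.cd hinj hT (by norm_num : 0 < 3) (hσ ▸ tripod_tame h0 h1 L T)
  have hP0 := T.zero h0
  have hb0 : 0 < b := L.s_pos.trans L.s_lt
  have hgb : g b = b := by rw [L.tip b (by simp)]; simp
  have hPb : P b < 0 := hP0 ▸ T.anti hb0
  have e1 : (Pool.Agent.Lib.MP_3fe454_an.hG (σ ^ 2) P)^[1] (b, 0) = (P b, b) := by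
    simp [Pool.Agent.Lib.MP_3fe454_an.hG]
  have e2 : (Pool.Agent.Lib.MP_3fe454_an.hG (σ ^ 2) P)^[2] (b, 0) = (0, P b) := by
    simp [Pool.Agent.Lib.MP_3fe454_an.hG, T.PP b hb0.le]
  obtain ⟨o', p', S', k1, k2⟩ := K.site S hinj (by norm_num : 0 < 3) (w := (b, 0))
    (K.Abig _ le_rfl) (by rw [← hσ, T.leg3 h0 hb0.le, hgb])
    (fun k h0 h1 => by
      rw [← hσ]
      interval_cases k
      · rw [e1]; intro hc; exact hb0.ne' (congrArg Prod.snd hc)
      · rw [e2]; intro hc; exact hPb.ne (congrArg Prod.snd hc))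
    (fun k => if k = 0 then -(4 / 5) / σ ^ 2 else if k = 1 then -(5 / 4) * σ ^ 4 else -σ)
    (fun k hk => by
      rw [← hσ]
      have hm : 0 < min (1 / 2) (σ / 2) := by positivity
      filter_upwards [Metric.ball_mem_nhds (0 : ℝ) hm] with t ht
      have ht' : |t| < min (1 / 2) (σ / 2) := by simpa using ht
      rw [lt_min_iff] at ht'
      interval_cases k
      · simpa using T.tip1 t (by linarith [ht'.1])
      · rw [e1]; simpa [T.PP b hb0.le] using T.tip2 t ht'.1.le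
      · rw [e2]; simpa [hP0] using T.near t ht'.2.le)
  refine ⟨_, o', p', O, O', R, hT', S', k1, ?_, ?_, ?_, h 0,
    R.sub' 0 (K.inn 0 (K.Abig 0 (by simp))), ?_⟩
  · simpa [hτ] using k2 0 (by norm_num)
  · simpa [hτ] using k2 1 (by norm_num)
  · simpa [hτ] using k2 2 (by norm_num)
  · rw [K.conj 0 (K.Abig 0 (by simp))]
    simp [Pool.Agent.Lib.MP_3fe454_an.hG, hP0, Prod.mk_zero_zero]

theorem shoe_step (B : Bump χ C) (S : Site F n o p U) (hD : Dd n p ≠ 0)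
    (hτ : |tau n p| ≤ 9 / 10) (hF : ContDiff ℝ 1 F) (hη : 0 < η) (hU : U 0 ⊆ disc) :
    ∃ G, ContDiff ℝ 1 G ∧ Close F G η (40 * C / |Dd n p|) ∧ 0 < entropy (hen G) := by
  obtain ⟨P, hP, hP1⟩ := exists_shoe B hτ
  obtain ⟨ψ, O, O', h, ρ, A, K⟩ := mod_core B S hD hτ hP hη 2
  obtain ⟨hβ0, hβ1⟩ := pow_small S.pos
  have R := K.res hF
  refine ⟨_, R.cd, R.close, entropy_pos S.pos (ε := ρ) K.rho fun k => ?_⟩
  let c : (Fin k → Bool) → ℕ → ℝ := fun w i =>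
    if h : i < k then (if w ⟨i, h⟩ then 1 else -1) else 1
  have hc : ∀ w i, |c w i| = 1 := fun w i => by simp only [c]; split_ifs <;> simp
  have := fun w => henon_horseshoe hβ0 hβ1 (c w) (hc w) (fun i x hx => hP1 _ x (hc w i) hx) k
  choose x hx1 hx2 using this
  have hA : ∀ w, ((x w, 0) : ℝ × ℝ) ∈ A := fun w => K.Abig _ (hx1 w 0 (Nat.zero_le k))
  refine ⟨fun w => h (x w, 0), fun w => hU (K.subU 0 (R.sub' 0 (K.inn _ (hA w)))),
    fun w w' i hi => ?_⟩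
  rw [K.conj_iter (hA w), K.conj_iter (hA w'), dist_eq_norm]
  refine le_trans ?_ (norm_fst_le _)
  rw [Prod.fst_sub, K.hx, Real.norm_eq_abs, abs_mul, abs_of_pos K.rho]
  refine le_mul_of_one_le_right K.rho.le ?_
  obtain ⟨a1, a2⟩ := abs_le.1 (hx2 w i i.2)
  obtain ⟨a3, a4⟩ := abs_le.1 (hx2 w' i i.2)
  simp only [c, i.2, dif_pos, Fin.eta] at a1 a2 a3 a4
  rw [le_abs]
  cases h1 : w i <;> cases h2 : w' i <;> simp only [h1, h2] at a1 a2 a3 a4 hi
  · exact (hi rfl).elim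
  · right; simp at a1 a2 a3 a4 ⊢; linarith
  · left; simp at a1 a2 a3 a4 ⊢; linarith
  · exact (hi rfl).elim

theorem big_step (B : Bump χ C) (S : Site F n o p U) {l : ℝ} (hl : 0 < l)
    (hD : l ≤ |Dd n p| * (1 / 100) ^ n) (hτ : tau n p = -(1 / 10) ^ n) (hG : Glob F a)
    (hη : 0 < η) (ha : a + 4 * η ≤ 1 / 100) (hT : Tame (hen F) n) :
    ∃ F' o' p' U' O O', Res F F' n U O O' (4 * η) (15 * C / l) ∧
      Tame (hen F') (3 * n) ∧ Site F' (3 * n) o' p' U' ∧ (∃ s, ∀ j, U' j ⊆ O' (j + s)) ∧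
      5 / 4 * l ≤ |Dd (3 * n) p'| * (1 / 100) ^ (3 * n) ∧ tau (3 * n) p' = -(1 / 10) ^ (3 * n) ∧
      ∃ c ∈ O 0, (hen F')^[n] c = c := by
  have hn := S.pos
  have hC := B.one_le
  set σ : ℝ := (1 / 10) ^ n with hσdef
  have h0 : 0 < σ := by positivity
  have h1 : σ ≤ 1 / 10 := by
    calc σ ≤ (1 / 10) ^ 1 := pow_le_pow_of_le_one (by norm_num) (by norm_num) hn
      _ = 1 / 10 := pow_one _
  have hσ : σ ^ 2 = (1 / 100) ^ n := by rw [hσdef, ← pow_mul, mul_comm, pow_mul]; norm_num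
  obtain ⟨s2, s3⟩ := sq_small h0 h1
  have hβ : 0 < σ ^ 2 := by positivity
  obtain ⟨D, hDdef⟩ : ∃ D, D = Dd n p := ⟨_, rfl⟩
  rw [← hσ, ← hDdef] at hD
  have hDa : 0 < |D| := by
    by_contra hc
    have : |D| * σ ^ 2 ≤ 0 := mul_nonpos_of_nonpos_of_nonneg (not_lt.1 hc) hβ.le
    linarith
  have hD0 : D ≠ 0 := abs_pos.1 hDa
  have hD0' : Dd n p ≠ 0 := hDdef ▸ hD0
  have hnd : ∀ j, ¬ n ∣ j → ¬ 3 * n ∣ j := fun j hj hc => hj ((Dvd.intro_left 3 rfl).trans hc)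
  have hsh : ∀ (q : ℕ → ℝ) (m : ℕ), (∀ j, ¬ n ∣ j → q j = p j) →
      ∀ j, ¬ n ∣ j → q (j + m * n) = p j := fun q m hq j hj => by
    rw [hq _ fun hc => hj ((Nat.dvd_add_left (Dvd.intro_left m rfl)).1 hc), per_mul S.pper]
  have nd1 : ¬ 3 * n ∣ n := fun hc => by have := Nat.le_of_dvd hn hc; omega
  have nd2 : ¬ 3 * n ∣ 2 * n := fun hc => by have := Nat.le_of_dvd (by omega) hc; omega
  -- tripod
  obtain ⟨F1, o1, p1, O, O', R1, T1, S1, a0, a1, a2, a3, c, hcO, hc⟩ :=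
    tripod_step B S hD0' h0 h1 hσ hτ hG hη (by linarith) hT
  rw [← hDdef] at a1 a2 R1
  have G1 := hG.close R1.cd R1.close
  -- first move
  have S1' := S1.shift (1 * n)
  have b0 := hsh p1 1 a0
  obtain ⟨d1, t1⟩ := three_blocks hn hD0' S.pper b0 (a := -(5 / 4) * σ ^ 4) (b := -σ)
    (c := -(4 / 5) / σ ^ 2)
    (by simp only [zero_add, one_mul]; rw [a2, hτ, ← hDdef]; field_simp; ring)
    (by rw [show n + 1 * n = 2 * n by ring, a3, hτ]; ring)
    (by rw [show 2 * n + 1 * n = 0 + 3 * n by ring, S1.pper, a1, hτ, ← hDdef]; field_simp; ring)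
  rw [← hσ, ← hDdef] at d1
  rw [← hσ] at t1
  have f1 : 0 < -σ * (-(4 / 5) / σ ^ 2) - σ ^ 2 := by
    have : -σ * (-(4 / 5) / σ ^ 2) = 4 / 5 / σ := by field_simp
    rw [this, sub_pos, lt_div_iff₀ h0]; nlinarith
  have t1' : tau (3 * n) (fun j => p1 (j + 1 * n)) = 4 / 5 + 5 / 4 * σ ^ 6 := by
    rw [t1]; field_simp; ring
  have s6 : σ ^ 6 ≤ 1 / 1000 := by nlinarith
  have s6' : 0 < σ ^ 6 := by positivity
  have s3' : 0 < σ ^ 3 := by positivity
  obtain ⟨F2, o2, p2, O2, O2', R2, T2, S2, c0, c1⟩ := move_step B S1'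
    (by rw [d1]; exact mul_ne_zero hD0 f1.ne')
    (by rw [t1', abs_le]; constructor <;> linarith) (τ' := 4 / 5 + σ ^ 3)
    (by rw [abs_le]; constructor <;> linarith) G1 hη (by linarith) T1
  have G2 := G1.close R2.cd R2.close
  have e20 : p2 0 = p 0 + σ / D := by
    rw [c1, d1, t1']
    simp only [zero_add, one_mul]
    rw [a2]
    have : σ ^ 3 - 5 / 4 * σ ^ 6 = (-σ * (-(4 / 5) / σ ^ 2) - σ ^ 2) * (5 / 4 * σ ^ 4) := by
      field_simp
    rw [show 4 / 5 + σ ^ 3 - (4 / 5 + 5 / 4 * σ ^ 6) = σ ^ 3 - 5 / 4 * σ ^ 6 by ring, this]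
    generalize -σ * (-(4 / 5) / σ ^ 2) - σ ^ 2 = z at f1
    have := f1.ne'
    field_simp; ring
  have e21 : p2 n = p 0 := by rw [c0 n nd1, show n + 1 * n = 2 * n by ring, a3]
  have e22 : p2 (2 * n) = p 0 + (-(4 / 5) / σ ^ 2 + σ) / D := by
    rw [c0 _ nd2, show 2 * n + 1 * n = 0 + 3 * n by ring, S1.pper, a1]
  -- second move
  have S2' := S2.shift (1 * n)
  have b1 := hsh p2 1 fun j hj => (c0 j (hnd j hj)).trans (b0 j hj)
  obtain ⟨d2, t2⟩ := three_blocks hn hD0' S.pper b1 (a := -σ) (b := -(4 / 5) / σ ^ 2) (c := 0)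
    (by simp only [zero_add, one_mul]; rw [e21, hτ]; ring)
    (by rw [show n + 1 * n = 2 * n by ring, e22, hτ, ← hDdef]; field_simp; ring)
    (by rw [show 2 * n + 1 * n = 0 + 3 * n by ring, S2.pper, e20, hτ, ← hDdef]; field_simp; ring)
  rw [← hσ, ← hDdef] at d2
  rw [← hσ] at t2
  have d2' : Dd (3 * n) (fun j => p2 (j + 1 * n)) = -(D * σ ^ 2) := by rw [d2]; ring
  have t2' : tau (3 * n) (fun j => p2 (j + 1 * n)) = 4 / 5 + σ ^ 3 := by
    rw [t2]; field_simp; ring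
  obtain ⟨F3, o3, p3, O3, O3', R3, T3, S3, g0, g1⟩ := move_step B S2'
    (by rw [d2']; exact neg_ne_zero.2 (mul_ne_zero hD0 hβ.ne'))
    (by rw [t2', abs_le]; constructor <;> linarith) (τ' := -(4 / 5))
    (by rw [abs_le]; constructor <;> linarith) G2 hη (by linarith) T2
  have G3 := G2.close R3.cd R3.close
  have e30 : p3 0 = p 0 + (8 / 5 / σ ^ 2 + σ) / D := by
    rw [g1, d2', t2']
    simp only [zero_add, one_mul]
    rw [e21]; field_simp; ring
  have e31 : p3 n = p 0 + (-(4 / 5) / σ ^ 2 + σ) / D := by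
    rw [g0 n nd1, show n + 1 * n = 2 * n by ring, e22]
  have e32 : p3 (2 * n) = p 0 + σ / D := by
    rw [g0 _ nd2, show 2 * n + 1 * n = 0 + 3 * n by ring, S2.pper, e20]
  -- third move
  have S3' := S3.shift (2 * n)
  have b2 := hsh p3 2 fun j hj => (g0 j (hnd j hj)).trans (b1 j hj)
  obtain ⟨d3, t3⟩ := three_blocks hn hD0' S.pper b2 (a := 0) (b := 8 / 5 / σ ^ 2)
    (c := -(4 / 5) / σ ^ 2)
    (by simp only [zero_add]; rw [e32, hτ, ← hDdef]; field_simp; ring)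
    (by rw [show n + 2 * n = 0 + 3 * n by ring, S3.pper, e30, hτ, ← hDdef]; field_simp; ring)
    (by rw [show 2 * n + 2 * n = n + 3 * n by ring, S3.pper, e31, hτ, ← hDdef]; field_simp; ring)
  rw [← hσ, ← hDdef] at d3
  rw [← hσ] at t3
  have d3' : Dd (3 * n) (fun j => p3 (j + 2 * n)) = -(D * ((32 / 25 + σ ^ 6) / σ ^ 4)) := by
    rw [d3]; field_simp; ring
  have t3' : tau (3 * n) (fun j => p3 (j + 2 * n)) = -(4 / 5) := by
    rw [t3]; field_simp; ring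
  have f3 : 0 < (32 / 25 + σ ^ 6) / σ ^ 4 := by positivity
  have hD3 : Dd (3 * n) (fun j => p3 (j + 2 * n)) ≠ 0 := by
    rw [d3']; exact neg_ne_zero.2 (mul_ne_zero hD0 f3.ne')
  obtain ⟨F4, o4, p4, O4, O4', R4, T4, S4, i0, i1⟩ := move_step B S3' hD3
    (by rw [t3', abs_le]; constructor <;> linarith) (τ' := -σ ^ 3)
    (by rw [abs_le]; constructor <;> linarith) G3 hη (by linarith) T3
  have R34 := R3.trans R4 (s := 2 * n) fun j => Subset.rfl
  have R234 := R2.trans R34 (s := 1 * n) fun j => Subset.rfl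
  have R := R1.trans R234 (s := 1 * n) fun j => Subset.rfl
  have hσ3 : ((1 : ℝ) / 100) ^ (3 * n) = σ ^ 6 := by
    rw [mul_comm, pow_mul, ← hσ]; ring
  refine ⟨F4, o4, p4, O4', O, O', ⟨R.cd, R.close.mono (le_of_eq (by ring)) ?_, R.cyc, R.cyc',
    R.opn, R.opn', R.sub, R.subU, R.old, R.old', R.sb, R.sb'⟩, T4, S4,
    ⟨2 * n + 1 * n + 1 * n, fun j => ?_⟩, ?_, ?_, c, hcO,
    persist_cyc R234.cyc' R234.old' R234.sb' hc hn nd1⟩
  · have hl' : ∀ u : ℝ, 0 ≤ u → u / (|D| * σ ^ 2) ≤ u / l := fun u hu => by gcongr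
    have u1 : 3 / σ ^ 2 / |D| ≤ 3 * C / l := by
      calc _ = 3 / (|D| * σ ^ 2) := by field_simp
        _ ≤ 3 / l := hl' 3 (by norm_num)
        _ ≤ 3 * C / l := by gcongr; linarith
    have u2 : 3 * C * |4 / 5 + σ ^ 3 - tau (3 * n) fun j => p1 (j + 1 * n)| /
        |Dd (3 * n) fun j => p1 (j + 1 * n)| ≤ 3 * C / l := by
      refine le_trans ?_ (hl' _ (by positivity))
      rw [t1', d1, abs_mul, abs_of_pos f1]
      have : 4 / 5 + σ ^ 3 - (4 / 5 + 5 / 4 * σ ^ 6) =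
          (-σ * (-(4 / 5) / σ ^ 2) - σ ^ 2) * (5 / 4 * σ ^ 4) := by
        field_simp; ring
      rw [this, abs_mul, abs_of_pos f1, abs_of_pos (by positivity : 0 < 5 / 4 * σ ^ 4)]
      generalize -σ * (-(4 / 5) / σ ^ 2) - σ ^ 2 = z at f1
      rw [div_le_div_iff₀ (by positivity) (by positivity)]
      have h5 : 0 < 3 * C * z * |D| := by positivity
      have h6 : 5 / 4 * σ ^ 6 ≤ 1 := by linarith
      calc _ = 3 * C * z * |D| * (5 / 4 * σ ^ 6) := by ring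
        _ ≤ 3 * C * z * |D| * 1 := by gcongr
        _ = _ := by ring
    have u3 : 3 * C * |-(4 / 5) - tau (3 * n) fun j => p2 (j + 1 * n)| /
        |Dd (3 * n) fun j => p2 (j + 1 * n)| ≤ 6 * C / l := by
      refine le_trans ?_ (hl' _ (by positivity))
      rw [t2', d2', abs_neg, abs_mul, abs_of_pos hβ]
      have : |-(4 / 5) - (4 / 5 + σ ^ 3)| ≤ 2 := by rw [abs_le]; constructor <;> linarith
      apply div_le_div_of_nonneg_right _ (by positivity)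
      calc _ ≤ 3 * C * 2 := by gcongr
        _ = _ := by ring
    have u4 : 3 * C * |-σ ^ 3 - tau (3 * n) fun j => p3 (j + 2 * n)| /
        |Dd (3 * n) fun j => p3 (j + 2 * n)| ≤ 3 * C / l := by
      refine le_trans ?_ (hl' _ (by positivity))
      rw [t3', d3', abs_neg, abs_mul, abs_of_pos f3]
      have h2 : |-σ ^ 3 - -(4 / 5)| ≤ 1 := by rw [abs_le]; constructor <;> linarith
      have h3 : σ ^ 2 ≤ (32 / 25 + σ ^ 6) / σ ^ 4 := by
        rw [le_div_iff₀ (by positivity), ← pow_add]; linarith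
      calc _ ≤ 3 * C * 1 / (|D| * σ ^ 2) := by gcongr
        _ = _ := by rw [mul_one]
    have : 15 * C / l = 3 * C / l + (3 * C / l + (6 * C / l + 3 * C / l)) := by ring
    rw [this]
    gcongr
  · refine (R4.sub' j).trans ((R4.subU j).trans ((R3.sub' _).trans ((R3.subU _).trans
      ((R2.sub' _).trans ((R2.subU _).trans ?_)))))
    simp only [add_assoc]
    rfl
  · rw [Dd_congr i0, d3', abs_neg, abs_mul, abs_of_pos f3, hσ3]
    have : |D| * ((32 / 25 + σ ^ 6) / σ ^ 4) * σ ^ 6 = (32 / 25 + σ ^ 6) * (|D| * σ ^ 2) := by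
      field_simp
    rw [this]
    gcongr
    linarith
  · rw [tau_congr i0, i1, mul_comm 3 n, pow_mul, ← hσdef, mul_comm n 3]
    field_simp; ring

end Pool.Agent.Lib.MP_3fe454_an
end
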