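import Mathlib.Analysis.Calculus.SmoothSeries
import Pool.Agent.Lib.MP_3fe454_an.Step

/-! The infinite tower of triplings and its limit. -/

namespace Pool.Agent.Lib.MP_3fe454_an

open Set Filter Topology Function

structure Stage (k : ℕ) where
  F : ℝ × ℝ → ℝ
  o : ℕ → ℝ × ℝ
  p : ℕ → ℝ
  U : ℕ → Set (ℝ × ℝ)
  glob : Glob F ((1 - (1 / 2) ^ k) / 100)
  tame : Tame (hen F) (3 ^ k)
  site : Site F (3 ^ k) o p U
  hD : 1 / 100 * (5 / 4) ^ k ≤ |Dd (3 ^ k) p| * (1 / 100) ^ (3 ^ k)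
  htau : tau (3 ^ k) p = -(1 / 10) ^ (3 ^ k)
  inD : ∀ i, U i ⊆ disc

def Rel (C : ℝ) (k : ℕ) (S : Stage k) (S' : Stage (k + 1)) : Prop :=
  ∃ O O', Res S.F S'.F (3 ^ k) S.U O O' ((1 / 2) ^ k / 200) (1500 * C * (4 / 5) ^ k) ∧
    (∀ i, ∀ x ∈ O i, ∀ y ∈ O i, dist x y < (1 / 2) ^ k) ∧ (∃ s, ∀ j, S'.U j ⊆ O' (j + s)) ∧
    ∃ c ∈ O 0, (hen S'.F)^[3 ^ k] c = c

lemma inv_growth (C u : ℝ) (k : ℕ) :
    u * C / (1 / 100 * (5 / 4) ^ k) = 100 * u * C * (4 / 5) ^ k := by
  have : ((4 : ℝ) / 5) ^ k * (5 / 4) ^ k = 1 := by rw [← mul_pow]; norm_num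
  rw [div_eq_iff (by positivity)]
  linear_combination (-u * C) * this

theorem exists_next {χ : ℝ → ℝ} {C : ℝ} (B : Bump χ C) (k : ℕ) (S : Stage k) :
    ∃ S' : Stage (k + 1), Rel C k S S' := by
  have hk : (0 : ℝ) < (1 / 2) ^ k := by positivity
  have S1 := S.site.mono (V := fun i => S.U i ∩ Metric.ball (S.o i) ((1 / 2) ^ k / 2))
    (fun i => by rw [S.site.uper, S.site.oper])
    (fun i => inter_mem (S.site.nhd i) (Metric.ball_mem_nhds _ (by linarith)))
  obtain ⟨F', o', p', U', O, O', R, T, S', ⟨s, hs⟩, hD, hτ, hc⟩ :=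
    big_step B S1 (by positivity) S.hD S.htau S.glob (η := (1 / 2) ^ k / 800) (by linarith)
      (by linarith) S.tame
  rw [← pow_succ'] at T S' hD hτ
  refine ⟨⟨F', o', p', U', (S.glob.close R.cd R.close).mono (le_of_eq (by ring)), T, S',
    le_trans (le_of_eq (by ring)) hD, hτ, fun j => (hs j).trans ((R.sub' _).trans
      ((R.subU _).trans (inter_subset_left.trans (S.inD _))))⟩, O, O',
    ⟨R.cd, R.close.mono (le_of_eq (by ring)) (le_of_eq (by rw [inv_growth]; ring)), R.cyc, R.cyc',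
      R.opn, R.opn', R.sub, fun i => (R.subU i).trans inter_subset_left, R.old, R.old', R.sb,
      R.sb'⟩, fun i x hx y hy => ?_, ⟨s, hs⟩, hc⟩
  have h1 : dist x (S.o i) < (1 / 2) ^ k / 2 := (R.subU i hx).2
  have h2 : dist y (S.o i) < (1 / 2) ^ k / 2 := (R.subU i hy).2
  linarith [dist_triangle_right x y (S.o i)]

noncomputable def stage0 : Stage 0 where
  F := fun v => -v.1 / 10 - v.2 / 50
  o := fun _ => 0
  p := fun _ => -1 / 10
  U := fun _ => disc
  glob := by
    refine ⟨by fun_prop, fun v => by simp, fun v => ?_⟩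
    have : HasFDerivAt (fun v : ℝ × ℝ => -v.1 / 10 - v.2 / 50)
        ((-1 / 10 : ℝ) • ContinuousLinearMap.fst ℝ ℝ ℝ -
          (1 / 50 : ℝ) • ContinuousLinearMap.snd ℝ ℝ ℝ) v := by
      refine (((hasFDerivAt_fst (𝕜 := ℝ) (p := v)).const_smul (-1 / 10 : ℝ)).sub
        ((hasFDerivAt_snd (𝕜 := ℝ) (p := v)).const_smul (1 / 50 : ℝ))).congr_of_eventuallyEq
        (Eventually.of_forall fun y => ?_)
      simp; ring
    rw [this.fderiv]; simp
  tame := by
    have key : ∀ w, Rec (hen fun v : ℝ × ℝ => -v.1 / 10 - v.2 / 50) w → w = 0 := by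
      intro w H
      have h := H.lyap (A := univ) univ_mem (mapsTo_univ _ _) continuous_norm.continuousAt
        (θ := 1 / 2) (C := 0) (by norm_num) (by norm_num) fun y _ => by
          obtain ⟨a, b⟩ := abs_le.1 (norm_fst_le y)
          obtain ⟨c, d⟩ := abs_le.1 (norm_snd_le y)
          rw [sub_zero, sub_zero, Prod.norm_def (hen _ y)]
          simp only [hen, Real.norm_eq_abs]
          refine max_le ?_ ?_ <;> rw [abs_le] <;> constructor <;> linarith
      exact norm_le_zero_iff.1 h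
    refine ⟨(Set.finite_singleton 0).subset key, fun w H => ?_⟩
    rw [key w H]; simp [hen]
  site := ⟨by norm_num, fun _ => rfl, fun _ => rfl, fun _ => rfl, fun i j hi hj _ => by omega,
    fun _ => Eventually.of_forall fun v => by simp [hen, Bm_apply]; ring,
    fun _ => mem_of_superset (Metric.ball_mem_nhds _ (by norm_num)) ball_sub_disc⟩
  hD := by simp [Dd, Wm, Mm_zero]
  htau := by simp [tau, Dd, Ee, Wm, Mm_zero]; ring
  inD := fun _ => Subset.rfl

lemma exists_limit {F : ℕ → ℝ × ℝ → ℝ} {C : ℝ} (hF : ∀ k, ContDiff ℝ 1 (F k))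
    (h : ∀ k, Close (F k) (F (k + 1)) ((1 / 2) ^ k / 200) (1500 * C * (4 / 5) ^ k)) :
    ∃ G, ContDiff ℝ 1 G ∧ (∀ v, Tendsto (fun k => F k v) atTop (𝓝 (G v))) ∧
      ∀ k, Close (F k) G ((1 / 2) ^ k / 100) (7500 * C * (4 / 5) ^ k) := by
  have hd : ∀ k, Differentiable ℝ (F k) := fun k => (hF k).differentiable one_ne_zero
  let ψ : ℕ → ℝ × ℝ → ℝ := fun k v => F (k + 1) v - F k v
  let u : ℕ → ℝ := fun k => (1 / 2) ^ k / 200 + 1500 * C * (4 / 5) ^ k
  have hu : Summable u :=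
    ((summable_geometric_of_lt_one (by norm_num) (by norm_num)).div_const _).add
      ((summable_geometric_of_lt_one (by norm_num) (by norm_num)).mul_left _)
  have hL : ∀ k, 0 ≤ 1500 * C * (4 / 5 : ℝ) ^ k := fun k => (abs_nonneg _).trans ((h k).cx 0)
  have hψc : ∀ k, ContDiff ℝ 1 (ψ k) := fun k => (hF (k + 1)).sub (hF k)
  have hψd : ∀ k v, fderiv ℝ (ψ k) v = fderiv ℝ (F (k + 1)) v - fderiv ℝ (F k) v := fun k v =>
    fderiv_fun_sub (hd _ v) (hd _ v)
  have b0 : ∀ k v, ‖ψ k v‖ ≤ u k := fun k v => ((h k).c0 v).trans (by simp only [u]; linarith [hL k])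
  have b1 : ∀ k v, ‖fderiv ℝ (ψ k) v‖ ≤ u k := fun k v => by
    refine (norm_form_le _).trans ?_
    rw [hψd]
    simp only [sub_apply, u]
    linarith [(h k).cx v, (h k).cy v]
  have hs : ContDiff ℝ ((1 : ℕ∞) : WithTop ℕ∞) fun v => ∑' k, ψ k v := by
    refine contDiff_tsum (v := fun _ => u) hψc (fun _ _ => hu) fun j k v hj => ?_
    have : j ≤ 1 := by exact_mod_cast hj
    interval_cases j
    · rw [norm_iteratedFDeriv_zero]; exact b0 k v
    · rw [norm_iteratedFDeriv_one]; exact b1 k v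
  have t0 : ∀ v, Tendsto (fun k => F k v) atTop (𝓝 (F 0 v + ∑' k, ψ k v)) := by
    intro v
    have := (Summable.of_norm_bounded hu (b0 · v)).hasSum.tendsto_sum_nat.const_add (F 0 v)
    refine this.congr fun k => ?_
    simp only [ψ]
    rw [Finset.sum_range_sub (fun k => F k v)]; ring
  have t1 : ∀ v, Tendsto (fun k => fderiv ℝ (F k) v) atTop
      (𝓝 (fderiv ℝ (fun v => F 0 v + ∑' k, ψ k v) v)) := by
    intro v
    rw [fderiv_fun_add (hd 0 v) (hs.differentiable (by simp) v),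
      fderiv_tsum_apply hu (fun k => (hψc k).differentiable one_ne_zero) b1
        (Summable.of_norm_bounded hu (b0 · v))]
    have := (Summable.of_norm_bounded hu (b1 · v)).hasSum.tendsto_sum_nat.const_add
      (fderiv ℝ (F 0) v)
    refine this.congr fun k => ?_
    simp only [hψd]
    rw [Finset.sum_range_sub (fun k => fderiv ℝ (F k) v)]; abel
  have hc : ∀ k j, Close (F k) (F (k + j)) ((1 / 2) ^ k / 100 - (1 / 2) ^ (k + j) / 100)
      (7500 * C * (4 / 5) ^ k - 7500 * C * (4 / 5) ^ (k + j)) := by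
    intro k j
    induction j with
    | zero => exact ⟨fun v => by simp, fun v => by simp, fun v => by simp⟩
    | succ j ih =>
      exact (ih.trans (h (k + j))).mono (le_of_eq (by ring)) (le_of_eq (by ring))
  have hc' : ∀ k j, Close (F k) (F (j + k)) ((1 / 2) ^ k / 100) (7500 * C * (4 / 5) ^ k) := by
    intro k j
    rw [add_comm j]
    refine (hc k j).mono ?_ (by linarith [hL (k + j)])
    have : (0 : ℝ) < (1 / 2) ^ (k + j) := by positivity
    linarith
  have t2 : ∀ v e, Tendsto (fun k => fderiv ℝ (F k) v e) atTop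
      (𝓝 (fderiv ℝ (fun v => F 0 v + ∑' k, ψ k v) v e)) := fun v e =>
    ((ContinuousLinearMap.apply ℝ ℝ e).continuous.tendsto _).comp (t1 v)
  refine ⟨fun v => F 0 v + ∑' k, ψ k v, (hF 0).add hs, t0, fun k => ⟨fun v => ?_, fun v => ?_,
    fun v => ?_⟩⟩
  · exact le_of_tendsto' ((((t0 v).comp (tendsto_add_atTop_nat k)).sub_const _).abs)
      fun j => (hc' k j).c0 v
  · exact le_of_tendsto' ((((t2 v _).comp (tendsto_add_atTop_nat k)).sub_const _).abs)
      fun j => (hc' k j).cy v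
  · exact le_of_tendsto' ((((t2 v _).comp (tendsto_add_atTop_nat k)).sub_const _).abs)
      fun j => (hc' k j).cx v

theorem main : ∃ f, InBoundary f ∧ (∀ x ∈ disc, 0 < (fderivWithin ℝ f disc x).det) ∧
    entropy f = 0 ∧ ∀ m, 0 < m → ((∃ x ∈ disc, minimalPeriod f x = m) ↔ ∃ k, m = 3 ^ k) := by
  obtain ⟨χ, C, B⟩ := exists_bump
  choose nx hnx using exists_next B
  let S : ∀ k, Stage k := fun k => Nat.rec stage0 nx k
  have hS : ∀ k, Rel C k (S k) (S (k + 1)) := fun k => hnx k (S k)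
  choose O O' R hdiam hnest hcen using hS
  choose s hs using hnest
  obtain ⟨G, hG, hlim, hcl⟩ := exists_limit (F := fun k => (S k).F) (fun k => (S k).glob.cd)
    fun k => (R k).close
  have GG : Glob G (1 / 100) := ((S 0).glob.close hG (hcl 0)).mono (by norm_num)
  have hlim' : ∀ v, Tendsto (fun k => hen (S k).F v) atTop (𝓝 (hen G v)) := fun v =>
    (hlim v).prodMk_nhds tendsto_const_nhds
  have n1 : ∀ k j, O (k + 1) j ⊆ O' k (j + s k) := fun k j => ((R (k + 1)).subU j).trans (hs k j)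
  have n2 : ∀ k l, ∃ t, ∀ j, O (k + l + 1) j ⊆ O' k (j + t) := by
    intro k l
    induction l with
    | zero => exact ⟨s k, n1 k⟩
    | succ l ih =>
      obtain ⟨t, ht⟩ := ih
      refine ⟨s (k + l + 1) + t, fun j => ?_⟩
      rw [← add_assoc j]
      exact (n1 (k + l + 1) j).trans (((R _).sub' _).trans (ht _))
  have n3 : ∀ k l, Sub (S k).F (S (k + l + 1)).F (O' k) := by
    intro k l
    induction l with
    | zero => exact (R k).sb'
    | succ l ih =>
      obtain ⟨t, ht⟩ := n2 k l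
      exact ih.trans (R k).cyc' (R (k + l + 1)).sb ht
  have hl2 : ∀ k v, Tendsto (fun l => hen (S (k + l + 1)).F v) atTop (𝓝 (hen G v)) := fun k v =>
    (hlim' v).comp (tendsto_atTop_mono (g := fun l => k + l + 1)
      (fun l => by simp only [id]; omega) tendsto_id)
  have w1 : ∀ k x, x ∉ ⋃ i, O' k i → hen G x = hen (S k).F x := fun k x hx =>
    tendsto_nhds_unique (hl2 k x) (tendsto_const_nhds.congr fun l => ((n3 k l).off x hx).symm)
  have w2 : ∀ k i, MapsTo (hen G) (O' k i) (O k (i + 1)) := fun k i x hx =>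
    (R k).sub _ (mem_closure_of_tendsto (hl2 k x) (Eventually.of_forall fun l => (n3 k l).maps i hx))
  have q1 : ∀ k, Sub (S k).F G (O k) := by
    intro k
    refine ⟨fun x hx => w1 k x fun hc => hx (iUnion_mono (R k).sub' hc), fun i x hx => ?_⟩
    by_cases hc : x ∈ ⋃ j, O' k j
    · obtain ⟨j, hj⟩ := mem_iUnion.1 hc
      have h1 := (R k).cyc.modeq hx ((R k).sub' j hj)
      rw [(R k).cyc.eq_of_modeq (j := j + 1) (Nat.ModEq.add_right 1 h1)]
      exact w2 k j hj
    · rw [w1 k x hc]; exact (R k).old i hx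
  have q2 : ∀ k, Sub (S k).F G (O' k) := fun k => (R k).sb'.trans (R k).cyc' (q1 (k + 1)) (n1 k)
  have hrec : ∀ k x, Rec (hen G) x → x ∉ ⋃ i, O k i →
      Rec (hen (S k).F) x ∧ x ∉ ⋃ i, O' k i := by
    intro k x H hx
    have : x ∉ closure (⋃ i, O' k i) := fun hc => by
      obtain ⟨i, -, hi⟩ := closure_iUnion_subset (R k).cyc.pos (R k).cyc'.per (R k).sub hc
      exact hx (mem_iUnion.2 ⟨i, hi⟩)
    exact ⟨H.modify (iUnion_mapsTo (q2 k).maps) (q2 k).off this, fun hc => this (subset_closure hc)⟩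
  have hzero : entropy (hen G) = 0 := by
    refine entropy_zero (hen_cont hG.continuous) disc_compact GG.maps
      ⟨0, ball_sub_disc (by simp)⟩ fun ε hε => ?_
    obtain ⟨k, hk⟩ : ∃ k : ℕ, (1 / 2 : ℝ) ^ k < ε := exists_pow_lt_of_lt_one hε (by norm_num)
    refine ⟨3 ^ k, O k, (S k).tame.1.toFinset, (R k).cyc, (R k).opn, (q1 k).maps,
      fun i x hx y hy => (hdiam k i x hx y hy).trans hk, fun x H => ?_⟩
    by_cases hx : x ∈ ⋃ i, O k i
    · exact Or.inl hx
    · exact Or.inr (by simpa using (hrec k x H hx).1)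
  refine ⟨hen G, ⟨GG.dissipative, fun ε hε => ⟨⟨hen G, GG.dissipative, hzero, fun x _ => by
    simp [hε.le]⟩, ?_⟩⟩, fun x hx => GG.det_pos hx, hzero, fun m hm => ⟨?_, ?_⟩⟩
  · have hC := B.one_le
    have t1 : Tendsto (fun k : ℕ => (1 / 2 : ℝ) ^ k / 50 + 11500 * C * (4 / 5) ^ k) atTop
        (𝓝 (0 / 50 + 11500 * C * 0)) :=
      ((tendsto_pow_atTop_nhds_zero_of_lt_one (by norm_num) (by norm_num)).div_const _).add
        ((tendsto_pow_atTop_nhds_zero_of_lt_one (by norm_num) (by norm_num)).const_mul _)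
    obtain ⟨k, hk⟩ := (t1.eventually (gt_mem_nhds (by simpa using hε))).exists
    have hk0 : (0 : ℝ) < (1 / 2) ^ k := by positivity
    obtain ⟨hβ0, hβ1⟩ := pow_small (S k).site.pos
    have hD := (S k).hD
    have hl : (0 : ℝ) < 1 / 100 * (5 / 4) ^ k := by positivity
    have hD1 : 1 / 100 * (5 / 4) ^ k ≤ |Dd (3 ^ k) (S k).p| := by
      refine hD.trans (mul_le_of_le_one_right (abs_nonneg _) (by linarith))
    have hτ : |tau (3 ^ k) (S k).p| ≤ 9 / 10 := by
      rw [(S k).htau, abs_neg, abs_of_pos (by positivity)]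
      calc ((1 : ℝ) / 10) ^ 3 ^ k ≤ (1 / 10) ^ 1 :=
            pow_le_pow_of_le_one (by norm_num) (by norm_num) (S k).site.pos
        _ ≤ 9 / 10 := by norm_num
    obtain ⟨H, hH, hcH, hpos⟩ := shoe_step B (S k).site (abs_pos.1 (hl.trans_le hD1)) hτ
      (S k).glob.cd (η := (1 / 2) ^ k / 100) (by linarith) ((S k).inD 0)
    have GH : Glob H (1 / 100) := ((S k).glob.close hH hcH).mono (le_of_eq (by ring))
    refine ⟨hen H, GH.dissipative, hpos.ne', fun x hx => ?_⟩
    obtain ⟨a1, a2⟩ := (hcl k).c1 (S k).glob.cd hG x hx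
    obtain ⟨a3, a4⟩ := hcH.c1 (S k).glob.cd hH x hx
    have a5 : 40 * C / |Dd (3 ^ k) (S k).p| ≤ 4000 * C * (4 / 5) ^ k := by
      calc _ ≤ 40 * C / (1 / 100 * (5 / 4) ^ k) := by gcongr
        _ = _ := by rw [inv_growth]; ring
    rw [norm_sub_rev] at a1 a2
    constructor
    · linarith [norm_sub_le_norm_sub_add_norm_sub (hen G x) (hen (S k).F x) (hen H x)]
    · linarith [norm_sub_le_norm_sub_add_norm_sub (fderivWithin ℝ (hen G) disc x)
        (fderivWithin ℝ (hen (S k).F) disc x) (fderivWithin ℝ (hen H) disc x)]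
  · rintro ⟨x, -, rfl⟩
    have hper : (hen G)^[minimalPeriod (hen G) x] x = x := isPeriodicPt_minimalPeriod _ _
    have hx : x ∉ ⋃ i, O (minimalPeriod (hen G) x) i := by
      intro hc
      obtain ⟨i, hi⟩ := mem_iUnion.1 hc
      have h1 := Nat.le_of_dvd hm ((R _).cyc.dvd (q1 _).maps hi (hper.symm ▸ hi))
      exact absurd h1 (not_le.2 (Nat.lt_pow_self (by norm_num)))
    obtain ⟨H, hx'⟩ := hrec _ x (rec_of_periodic hm hper) hx
    have h1 := persist (iUnion_mapsTo (R _).old') (q2 _).off ((S _).tame.2 x H) (by positivity) hx'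
    obtain ⟨k, -, hk⟩ := (Nat.dvd_prime_pow Nat.prime_three).1
      (IsPeriodicPt.minimalPeriod_dvd (f := hen G) h1)
    exact ⟨k, hk⟩
  · rintro ⟨k, rfl⟩
    obtain ⟨c, hcO, hc⟩ := hcen k
    have h1 := persist_cyc (R (k + 1)).cyc' (R (k + 1)).old' (q2 (k + 1)) hc hm fun hd => by
      have := Nat.le_of_dvd hm hd
      rw [pow_succ] at this; omega
    refine ⟨c, (S k).inD 0 ((R k).subU 0 hcO), Nat.dvd_antisymm
      (IsPeriodicPt.minimalPeriod_dvd (f := hen G) h1) ?_⟩
    have hper : (hen G)^[minimalPeriod (hen G) c] c = c := isPeriodicPt_minimalPeriod _ _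
    exact (R k).cyc.dvd (q1 k).maps hcO (hper.symm ▸ hcO)

end Pool.Agent.Lib.MP_3fe454_an
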